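import Pool.Agent.LibJP91.Defs

open Polynomial
open scoped Polynomial.Bivariate

namespace JP91

/-- Row A0 (ONLY MATHLIB, EASY). The degrees in the inner variable are bounded by the degree of the
swapped polynomial. Expand `f` as the sum of `monomial j (f.coeff j)`, or compare coefficients:
`(Bivariate.swap f).coeff i` has the coefficient `(f.coeff j).coeff i` at `j`
(`Bivariate.swap_monomial_monomial`, induction on `f`). -/
theorem coeff_coeff_swap (f : ℤ[X][Y]) (i j : ℕ) :
    ((Bivariate.swap f).coeff i).coeff j = (f.coeff j).coeff i := by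
  induction f using Polynomial.induction_on' with
  | add p q hp hq => rw [map_add, coeff_add, coeff_add, hp, hq, coeff_add, coeff_add]
  | monomial n a =>
    induction a using Polynomial.induction_on' with
    | add p q hp hq =>
      rw [map_add, map_add, coeff_add, coeff_add, hp, hq, coeff_add, coeff_add]
    | monomial m r =>
      rw [Bivariate.swap_monomial_monomial, coeff_monomial, coeff_monomial]
      split_ifs with h1 h2 h2
      · rw [coeff_monomial, coeff_monomial, if_pos h1, if_pos h2]
      · rw [coeff_monomial, if_neg h2, coeff_zero]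
      · rw [coeff_monomial, if_neg h1, coeff_zero]
      · rw [coeff_zero, coeff_zero]

/-- Row A0, second part: from the first. -/
theorem natDegree_coeff_le (f : ℤ[X][Y]) (j : ℕ) :
    (f.coeff j).natDegree ≤ (Bivariate.swap f).natDegree := by
  rw [natDegree_le_iff_coeff_eq_zero]
  intro N hN
  rw [← coeff_coeff_swap, coeff_eq_zero_of_natDegree_lt hN, coeff_zero]

/-- Row A0, third part: the derivative with respect to `r`: `dr` is additive and a derivation,
`dr r = 1`, `dr s = 0`; it has smaller degree in `r`, and no larger degree in `s` (and a strictly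
smaller one if `f` is monic with `1 ≤ f.natDegree`, as the leading coefficient `1` disappears). -/
theorem dr_add (f g : ℤ[X][Y]) : dr (f + g) = dr f + dr g := by
  unfold dr
  rw [map_add, derivative_add, map_add]

theorem dr_mul (f g : ℤ[X][Y]) : dr (f * g) = dr f * g + f * dr g := by
  unfold dr
  rw [map_mul, derivative_mul, map_add, map_mul, map_mul, Bivariate.swap_swap_apply, Bivariate.swap_swap_apply]

theorem dr_CX : dr (C X) = 1 := by
  unfold dr
  rw [Bivariate.swap_X, derivative_X, map_one]

theorem dr_Y : dr (Y : ℤ[X][Y]) = 0 := by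
  unfold dr
  rw [Bivariate.swap_Y, derivative_C, map_zero]

theorem dr_CC (a : ℤ) : dr (C (C a)) = 0 := by
  unfold dr
  rw [Bivariate.swap_C_C, derivative_C, map_zero]

theorem coeff_dr (f : ℤ[X][Y]) (j : ℕ) : (dr f).coeff j = derivative (f.coeff j) := by
  ext i
  rw [← coeff_coeff_swap]
  unfold dr
  rw [Bivariate.swap_swap_apply, coeff_derivative, coeff_derivative, ← coeff_coeff_swap]
  have h1 : ((i : ℤ[X]) + 1) = C ((i : ℤ) + 1) := by simp
  rw [h1, coeff_mul_C]

theorem natDegree_dr_lt (f : ℤ[X][Y]) (hf : f.Monic) (h1 : 1 ≤ f.natDegree) :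
    (dr f).natDegree < f.natDegree := by
  have h2 : (dr f).natDegree ≤ f.natDegree - 1 := by
    rw [natDegree_le_iff_coeff_eq_zero]
    intro N hN
    rw [coeff_dr]
    rcases Nat.lt_or_ge f.natDegree N with h | h
    · rw [coeff_eq_zero_of_natDegree_lt h, derivative_zero]
    · have h3 : N = f.natDegree := by omega
      rw [h3, hf.coeff_natDegree, derivative_one]
  omega

end JP91
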