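import Pool.Agent.LibJP91.A0

open Polynomial
open scoped Polynomial.Bivariate

namespace JP91

private lemma A1_lead {x y z : ℕ} {H G : ℤ} (h : Dat x y z H G) {Aa Bb Cc B1 : ℤ[X][Y]} {u : ℤ[X]} (hu : IsUnit u)
    (hA : Aa.natDegree ≤ 1) (hC : Cc.Monic) (hC2 : Cc.natDegree = 2) (hB : Bb = C u * B1) (hB1 : B1.Monic)
    (hB2 : B1.natDegree = 2) :
    (Cc ^ z - C (C H) * Aa ^ x - C (C G) * Bb ^ y).natDegree = 2 * max y z ∧
      IsUnit (Cc ^ z - C (C H) * Aa ^ x - C (C G) * Bb ^ y).leadingCoeff := by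
  have hx2 := h.hx2
  have hy := h.hy
  have hz := h.hz
  have hCz : (Cc ^ z).natDegree = 2 * z := by
    rw [hC.natDegree_pow, hC2]
    ring
  have hAx : (C (C H) * Aa ^ x).natDegree ≤ x := by
    refine (natDegree_C_mul_le _ _).trans (natDegree_pow_le.trans ?_)
    calc x * Aa.natDegree ≤ x * 1 := Nat.mul_le_mul_left x hA
      _ = x := mul_one x
  have hBy : Bb ^ y = C (u ^ y) * B1 ^ y := by
    rw [hB, mul_pow, C_pow]
  have hBn : (Bb ^ y).natDegree = 2 * y := by
    rw [hBy, natDegree_C_mul ((hu.pow y).ne_zero), hB1.natDegree_pow, hB2]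
    ring
  have hBl : (Bb ^ y).leadingCoeff = u ^ y := by
    rw [hBy, leadingCoeff_mul, leadingCoeff_C, (hB1.pow y).leadingCoeff, mul_one]
  rcases lt_or_gt_of_ne h.hyz with hlt | hgt
  · have hR : (C (C H) * Aa ^ x + C (C G) * Bb ^ y).natDegree < (Cc ^ z).natDegree := by
      refine lt_of_le_of_lt (natDegree_add_le _ _) ?_
      rw [hCz]
      have h1 : (C (C G) * Bb ^ y).natDegree ≤ 2 * y := (natDegree_C_mul_le _ _).trans hBn.le
      exact max_lt (by omega) (by omega)
    rw [sub_sub, natDegree_sub_eq_left_of_natDegree_lt hR,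
      leadingCoeff_sub_of_degree_lt (degree_lt_degree hR), (hC.pow z).leadingCoeff, hCz, max_eq_right hlt.le]
    exact ⟨rfl, isUnit_one⟩
  · have hG : G = 1 := h.hG hgt
    subst hG
    have hR : (Cc ^ z - C (C H) * Aa ^ x).natDegree < (Bb ^ y).natDegree := by
      refine lt_of_le_of_lt (natDegree_sub_le _ _) ?_
      rw [hBn, hCz]
      exact max_lt (by omega) (by omega)
    have e : Cc ^ z - C (C H) * Aa ^ x - C (C (1:ℤ)) * Bb ^ y = -(Bb ^ y - (Cc ^ z - C (C H) * Aa ^ x)) := by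
      rw [C_1, C_1, one_mul, neg_sub]
    rw [e, natDegree_neg, leadingCoeff_neg, natDegree_sub_eq_left_of_natDegree_lt hR,
      leadingCoeff_sub_of_degree_lt (degree_lt_degree hR), hBn, hBl, max_eq_left hgt.le]
    exact ⟨rfl, (hu.pow y).neg⟩

private lemma A1_C : (cC.Monic) ∧ cC.natDegree = 2 := by
  have e : cC = X ^ 2 + C (X ^ 2) := by
    unfold cC
    rw [C_pow]
    ring
  rw [e]
  exact ⟨monic_X_pow_add_C _ (by norm_num), natDegree_X_pow_add_C⟩

private lemma A1_B : ((X ^ 2 - C (X ^ 2) : ℤ[X][Y]).Monic) ∧ (X ^ 2 - C (X ^ 2) : ℤ[X][Y]).natDegree = 2 :=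
  ⟨monic_X_pow_sub_C _ (by norm_num), natDegree_X_pow_sub_C⟩

private lemma A1_A : cA.natDegree ≤ 1 := by
  unfold cA
  refine (natDegree_C_mul_le _ _).trans ?_
  rw [natDegree_X]

/-- Row A1 (EASY). `FF` is monic up to sign in `s` and in `r`. As a polynomial in `s`: `cC ^ z` is
monic of degree `2 z`, `C (C H) * cA ^ x` has degree `x < 2 z`, and `cB ^ y` has degree `2 y` with the
leading coefficient `(-1) ^ y`. If `y < z` the leading term is `s ^ (2 z)`; if `z < y` then `G = 1` and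
the leading coefficient is `- (-1) ^ y`, of degree `2 y`. -/
theorem FF_lead {x y z : ℕ} {H G : ℤ} (h : Dat x y z H G) :
    (FF x y z H G).natDegree = 2 * max y z ∧ IsUnit (FF x y z H G).leadingCoeff := by
  unfold FF
  refine A1_lead h (u := -1) (B1 := X ^ 2 - C (X ^ 2)) isUnit_one.neg A1_A A1_C.1 A1_C.2 ?_ A1_B.1 A1_B.2
  unfold cB
  rw [C_neg, C_1, C_pow]
  ring

/-- Row A1, second part: the same in `r`. `swap cC = cC`, `swap cA = cA`, `swap cB = - cB`, so
`swap (FF x y z H G) = cC ^ z - C (C H) * cA ^ x - C (C G) * (- cB) ^ y`; same argument. -/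
theorem FF_swap_lead {x y z : ℕ} {H G : ℤ} (h : Dat x y z H G) :
    (Bivariate.swap (FF x y z H G)).natDegree = 2 * max y z ∧
      IsUnit (Bivariate.swap (FF x y z H G)).leadingCoeff := by
  have e1 : Bivariate.swap cC = cC := by
    unfold cC
    rw [map_add, map_pow, map_pow, Bivariate.swap_X, Bivariate.swap_Y]
    ring
  have e2 : Bivariate.swap cA = cA := by
    unfold cA
    rw [map_mul, Bivariate.swap_X, Bivariate.swap_Y]
    ring
  have e3 : Bivariate.swap cB = C 1 * (X ^ 2 - C (X ^ 2)) := by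
    unfold cB
    rw [map_sub, map_pow, map_pow, Bivariate.swap_X, Bivariate.swap_Y, C_1, C_pow]
    ring
  have e4 : Bivariate.swap (FF x y z H G) =
      cC ^ z - C (C H) * cA ^ x - C (C G) * (Bivariate.swap cB) ^ y := by
    unfold FF
    rw [map_sub, map_sub, map_mul, map_mul, map_pow, map_pow, map_pow, Bivariate.swap_C_C, Bivariate.swap_C_C, e1, e2]
  rw [e4]
  exact A1_lead h isUnit_one A1_A A1_C.1 A1_C.2 e3 A1_B.1 A1_B.2

end JP91
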