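import Pool.Agent.LibJP91.A1

open Polynomial
open scoped Polynomial.Bivariate

namespace JP91

theorem A10_real {t A A' : ℝ} {m x e : ℕ} (ht : 1 ≤ t) (hA : 0 ≤ A) (hA' : 0 ≤ A')
    (hx : x + 1 ≤ 2 * m) (he : e + 1 ≤ 2 * m)
    (h : (t ^ 2 / 2) ^ m ≤ A * t ^ x + A' * t ^ e) : t ≤ 2 ^ m * (A + A') := by
  have ht0 : 0 < t := by linarith
  obtain ⟨d, hd⟩ : ∃ d, 2 * m = d + 1 := ⟨2 * m - 1, by omega⟩
  have h1 : t ^ x ≤ t ^ d := pow_le_pow_right₀ ht (by omega)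
  have h2 : t ^ e ≤ t ^ d := pow_le_pow_right₀ ht (by omega)
  have h3 : (t ^ 2 / 2) ^ m * 2 ^ m = t * t ^ d := by
    rw [← mul_pow, div_mul_cancel₀ _ (two_ne_zero), ← pow_mul, hd, pow_succ]
    ring
  have h4 : A * t ^ x + A' * t ^ e ≤ (A + A') * t ^ d := by
    rw [add_mul]
    exact add_le_add (mul_le_mul_of_nonneg_left h1 hA) (mul_le_mul_of_nonneg_left h2 hA')
  have h5 : t * t ^ d ≤ (2 ^ m * (A + A')) * t ^ d := by
    rw [← h3]
    calc (t ^ 2 / 2) ^ m * 2 ^ m ≤ ((A + A') * t ^ d) * 2 ^ m :=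
          mul_le_mul_of_nonneg_right (h.trans h4) (by positivity)
      _ = (2 ^ m * (A + A')) * t ^ d := by ring
  exact le_of_mul_le_mul_right h5 (by positivity)

theorem A10_root {x y z b : ℕ} {H G r : ℤ} (h : Dat x y z H G) (hr : |r| ≤ 2 ^ b) {ρ : ℂ}
    (h0 : ((r:ℂ) ^ 2 + ρ ^ 2) ^ z - H * (r * ρ) ^ x - G * ((r:ℂ) ^ 2 - ρ ^ 2) ^ y = 0) :
    ‖ρ‖ ≤ 2 ^ ((b + 1) * (x + y + z) + 1) := by
  by_contra hcon
  have hcon' : (2:ℝ) ^ ((b + 1) * (x + y + z) + 1) < ‖ρ‖ := not_le.1 hcon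
  obtain ⟨t, ht⟩ : ∃ t, t = ‖ρ‖ := ⟨_, rfl⟩
  rw [← ht] at hcon'
  have hz := h.hz
  have hb1 : b + 2 ≤ (b + 1) * (x + y + z) + 1 := by
    have : (b + 1) * 1 ≤ (b + 1) * (x + y + z) := Nat.mul_le_mul_left _ (by omega)
    omega
  have h1 : (2:ℝ) ^ (b + 2) < t :=
    lt_of_le_of_lt (pow_le_pow_right₀ (by norm_num) hb1) hcon'
  have h2 : (2:ℝ) ^ (b + 2) = 4 * 2 ^ b := by rw [pow_add]; ring
  have hb0 : (1:ℝ) ≤ 2 ^ b := one_le_pow₀ (by norm_num)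
  have ht1 : 1 ≤ t := by linarith
  have hrr : ‖(r:ℂ)‖ ≤ 2 ^ b := by
    rw [Complex.norm_intCast]
    have : ((|r| : ℤ) : ℝ) ≤ ((2 ^ b : ℤ) : ℝ) := by exact_mod_cast hr
    push_cast at this
    exact this
  have hr0 : 0 ≤ ‖(r:ℂ)‖ := norm_nonneg _
  have hr2 : ‖(r:ℂ) ^ 2‖ ≤ t ^ 2 / 2 := by
    rw [norm_pow]
    nlinarith
  have hρ2 : ‖ρ ^ 2‖ = t ^ 2 := by rw [norm_pow, ht]
  have lowp : t ^ 2 / 2 ≤ ‖(r:ℂ) ^ 2 + ρ ^ 2‖ := by
    have h3 := norm_sub_norm_le (ρ ^ 2) (-((r:ℂ) ^ 2))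
    rw [norm_neg, sub_neg_eq_add, hρ2] at h3
    rw [add_comm]
    linarith
  have lowm : t ^ 2 / 2 ≤ ‖(r:ℂ) ^ 2 - ρ ^ 2‖ := by
    have h3 := norm_sub_norm_le (ρ ^ 2) ((r:ℂ) ^ 2)
    rw [hρ2] at h3
    rw [norm_sub_rev]
    linarith
  have upp : ‖(r:ℂ) ^ 2 + ρ ^ 2‖ ≤ 2 * t ^ 2 := by
    refine (norm_add_le _ _).trans ?_
    rw [hρ2]
    have := sq_nonneg t
    linarith
  have upm : ‖(r:ℂ) ^ 2 - ρ ^ 2‖ ≤ 2 * t ^ 2 := by
    refine (norm_sub_le _ _).trans ?_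
    rw [hρ2]
    have := sq_nonneg t
    linarith
  have hxterm : ‖((r:ℂ) * ρ) ^ x‖ ≤ 2 ^ (b * x) * t ^ x := by
    rw [norm_pow, norm_mul, mul_pow, ← ht, pow_mul]
    exact mul_le_mul_of_nonneg_right (pow_le_pow_left₀ hr0 hrr x) (by positivity)
  have hHn : ‖(H:ℂ)‖ ≤ 2 ^ x := by
    rw [Complex.norm_intCast, abs_of_nonneg (by have := h.hH1; exact_mod_cast (by omega : (0:ℤ) ≤ H))]
    exact_mod_cast h.hH2
  have hHx : ‖(H:ℂ) * ((r:ℂ) * ρ) ^ x‖ ≤ 2 ^ ((b + 1) * x) * t ^ x := by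
    rw [norm_mul]
    calc ‖(H:ℂ)‖ * ‖((r:ℂ) * ρ) ^ x‖ ≤ 2 ^ x * (2 ^ (b * x) * t ^ x) :=
          mul_le_mul hHn hxterm (norm_nonneg _) (by positivity)
      _ = 2 ^ ((b + 1) * x) * t ^ x := by
          rw [← mul_assoc, ← pow_add]
          congr 2
          ring
  rcases lt_or_gt_of_ne h.hyz with hyz | hyz
  · -- `y < z`
    have hGn : ‖(G:ℂ)‖ ≤ 2 ^ x := by
      rw [Complex.norm_intCast, abs_of_nonneg (by have := h.hG1; exact_mod_cast (by omega : (0:ℤ) ≤ G))]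
      exact_mod_cast h.hG2
    have hGy : ‖(G:ℂ) * ((r:ℂ) ^ 2 - ρ ^ 2) ^ y‖ ≤ 2 ^ (x + y) * t ^ (2 * y) := by
      rw [norm_mul, norm_pow]
      calc ‖(G:ℂ)‖ * ‖(r:ℂ) ^ 2 - ρ ^ 2‖ ^ y ≤ 2 ^ x * (2 * t ^ 2) ^ y :=
            mul_le_mul hGn (pow_le_pow_left₀ (norm_nonneg _) upm y) (by positivity) (by positivity)
        _ = 2 ^ (x + y) * t ^ (2 * y) := by rw [mul_pow, ← pow_mul, pow_add]; ring
    have e1 : ((r:ℂ) ^ 2 + ρ ^ 2) ^ z = H * (r * ρ) ^ x + G * ((r:ℂ) ^ 2 - ρ ^ 2) ^ y := by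
      linear_combination h0
    have e2 : (t ^ 2 / 2) ^ z ≤ 2 ^ ((b + 1) * x) * t ^ x + 2 ^ (x + y) * t ^ (2 * y) := by
      calc (t ^ 2 / 2) ^ z ≤ ‖(r:ℂ) ^ 2 + ρ ^ 2‖ ^ z := pow_le_pow_left₀ (by positivity) lowp z
        _ = ‖(H:ℂ) * (r * ρ) ^ x + G * ((r:ℂ) ^ 2 - ρ ^ 2) ^ y‖ := by rw [← norm_pow, e1]
        _ ≤ _ := (norm_add_le _ _).trans (add_le_add hHx hGy)
    have e3 := A10_real ht1 (by positivity) (by positivity) (by have := h.hx2; omega) (by omega) e2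
    have e4 : (2:ℝ) ^ ((b + 1) * x) ≤ 2 ^ ((b + 1) * x + y) :=
      pow_le_pow_right₀ (by norm_num) (by omega)
    have e5 : (2:ℝ) ^ (x + y) ≤ 2 ^ ((b + 1) * x + y) := by
      refine pow_le_pow_right₀ (by norm_num) ?_
      have : 1 * x ≤ (b + 1) * x := Nat.mul_le_mul_right x (by omega)
      omega
    have e6 : (2:ℝ) ^ z * (2 ^ ((b + 1) * x) + 2 ^ (x + y)) ≤ 2 ^ ((b + 1) * (x + y + z) + 1) := by
      calc (2:ℝ) ^ z * (2 ^ ((b + 1) * x) + 2 ^ (x + y))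
          ≤ 2 ^ z * (2 ^ ((b + 1) * x + y) + 2 ^ ((b + 1) * x + y)) :=
            mul_le_mul_of_nonneg_left (add_le_add e4 e5) (by positivity)
        _ = 2 ^ (z + ((b + 1) * x + y) + 1) := by rw [pow_succ, pow_add]; ring
        _ ≤ _ := by
            refine pow_le_pow_right₀ (by norm_num) ?_
            have : (b + 1) * (x + y + z) = (b + 1) * x + b * y + b * z + y + z := by ring
            rw [this]
            have h8 := Nat.zero_le (b * y)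
            have h9 := Nat.zero_le (b * z)
            omega
    linarith
  · -- `z < y`
    have hG1 : G = 1 := h.hG hyz
    have hz2 : ‖((r:ℂ) ^ 2 + ρ ^ 2) ^ z‖ ≤ 2 ^ z * t ^ (2 * z) := by
      rw [norm_pow]
      calc ‖(r:ℂ) ^ 2 + ρ ^ 2‖ ^ z ≤ (2 * t ^ 2) ^ z := pow_le_pow_left₀ (norm_nonneg _) upp z
        _ = 2 ^ z * t ^ (2 * z) := by rw [mul_pow, ← pow_mul]
    have e1 : ((r:ℂ) ^ 2 - ρ ^ 2) ^ y = ((r:ℂ) ^ 2 + ρ ^ 2) ^ z - H * (r * ρ) ^ x := by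
      rw [hG1] at h0
      push_cast at h0
      linear_combination -h0
    have e2 : (t ^ 2 / 2) ^ y ≤ 2 ^ ((b + 1) * x) * t ^ x + 2 ^ z * t ^ (2 * z) := by
      calc (t ^ 2 / 2) ^ y ≤ ‖(r:ℂ) ^ 2 - ρ ^ 2‖ ^ y := pow_le_pow_left₀ (by positivity) lowm y
        _ = ‖((r:ℂ) ^ 2 + ρ ^ 2) ^ z - H * (r * ρ) ^ x‖ := by rw [← norm_pow, e1]
        _ ≤ _ := by
          refine (norm_sub_le _ _).trans ?_
          linarith
    have e3 := A10_real ht1 (by positivity) (by positivity) (by have := h.hx2; omega) (by omega) e2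
    have e4 : (2:ℝ) ^ ((b + 1) * x) ≤ 2 ^ ((b + 1) * x + z) :=
      pow_le_pow_right₀ (by norm_num) (by omega)
    have e5 : (2:ℝ) ^ z ≤ 2 ^ ((b + 1) * x + z) := pow_le_pow_right₀ (by norm_num) (by omega)
    have e6 : (2:ℝ) ^ y * (2 ^ ((b + 1) * x) + 2 ^ z) ≤ 2 ^ ((b + 1) * (x + y + z) + 1) := by
      calc (2:ℝ) ^ y * (2 ^ ((b + 1) * x) + 2 ^ z)
          ≤ 2 ^ y * (2 ^ ((b + 1) * x + z) + 2 ^ ((b + 1) * x + z)) :=
            mul_le_mul_of_nonneg_left (add_le_add e4 e5) (by positivity)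
        _ = 2 ^ (y + ((b + 1) * x + z) + 1) := by rw [pow_succ, pow_add]; ring
        _ ≤ _ := by
            refine pow_le_pow_right₀ (by norm_num) ?_
            have : (b + 1) * (x + y + z) = (b + 1) * x + b * y + b * z + y + z := by ring
            rw [this]
            have h8 := Nat.zero_le (b * y)
            have h9 := Nat.zero_le (b * z)
            omega
    linarith

theorem A10_map (x y z : ℕ) (H G r : ℤ) : (FF x y z H G).map (evalRingHom r) =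
    (C (r ^ 2) + X ^ 2) ^ z - C H * (C r * X) ^ x - C G * (C (r ^ 2) - X ^ 2) ^ y := by
  simp [FF, cA, cB, cC, Polynomial.map_sub, Polynomial.map_mul, Polynomial.map_pow,
    Polynomial.map_add]

theorem A10_eval (x y z : ℕ) (H G r : ℤ) (ρ : ℂ) :
    (((FF x y z H G).map (evalRingHom r)).map (Int.castRingHom ℂ)).eval ρ =
      ((r:ℂ) ^ 2 + ρ ^ 2) ^ z - H * (r * ρ) ^ x - G * ((r:ℂ) ^ 2 - ρ ^ 2) ^ y := by
  rw [A10_map]
  simp

theorem A10_num (b n N : ℕ) (hn : 1 ≤ n) (hN : N ≤ 2 * n) :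
    2 * N + (((b + 1) * n + 1) * N + N + b * N) ≤ 100 * (b + 1) * n ^ 2 := by
  have h1 : 2 * N + (((b + 1) * n + 1) * N + N + b * N) = N * ((b + 1) * n + (b + 4)) := by ring
  rw [h1]
  have h2 : b + 4 ≤ 4 * (b + 1) * n := by
    have : 4 * (b + 1) * 1 ≤ 4 * (b + 1) * n := Nat.mul_le_mul_left _ hn
    omega
  calc N * ((b + 1) * n + (b + 4)) ≤ (2 * n) * ((b + 1) * n + 4 * (b + 1) * n) :=
        Nat.mul_le_mul hN (Nat.add_le_add_left h2 _)
    _ = 10 * ((b + 1) * n ^ 2) := by ring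
    _ ≤ 100 * ((b + 1) * n ^ 2) := Nat.mul_le_mul_right _ (by norm_num)
    _ = 100 * (b + 1) * n ^ 2 := by ring

/-- Row A10 (MEDIUM). Bound for `∂f/∂s` at an integral point. Let `g = f(r, ·) = f.map (evalRingHom r)`,
monic of degree `N ≤ 2 max y z`; its complex roots are roots of `F(r, ·) = (FF x y z H G)(r, ·)`, whose
leading coefficient is `± 1` (`FF_lead`) and whose coefficients are bounded by
`(r² + 1) ^ z + 2 ^ x |r| ^ x + 2 ^ x (r² + 1) ^ y ≤ 2 ^ (6 (b + 1) (x + y + z))`, say; so by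
`Polynomial.IsRoot.norm_lt_cauchyBound` they are bounded by `R = 2 ^ (8 (b + 1) (x + y + z))`. By
`Polynomial.coeff_le_of_roots_le` the coefficients of `g` are `≤ R ^ N 2 ^ N`, and `g'(s)` is at most
`N (N + 1) R ^ N 2 ^ N 2 ^ (b N)`. The constant `100` is generous: if you prefer another constant tell
helper91. -/
theorem der_bound {x y z : ℕ} {H G : ℤ} (h : Dat x y z H G) {f : ℤ[X][Y]} (hf : f.Monic)
    (hd : f ∣ FF x y z H G) {r s : ℤ} {b : ℕ} (hr : |r| ≤ 2 ^ b) (hs : |s| ≤ 2 ^ b) :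
    |(derivative f).evalEval r s| ≤ 2 ^ (100 * (b + 1) * (x + y + z) ^ 2) := by
  obtain ⟨g, hg⟩ : ∃ g, g = f.map (evalRingHom r) := ⟨_, rfl⟩
  have hgm : g.Monic := by rw [hg]; exact hf.map _
  have hval : (derivative f).evalEval r s = (derivative g).eval s := by
    rw [← map_evalRingHom_eval, hg, derivative_map]
  have hF := FF_lead h
  have hF0 : FF x y z H G ≠ 0 := by
    intro h0
    have h1 := hF.1
    rw [h0, natDegree_zero] at h1
    have := h.hz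
    omega
  have hN : g.natDegree ≤ 2 * (x + y + z) := by
    have h1 : g.natDegree = f.natDegree := by rw [hg]; exact hf.natDegree_map _
    have h2 := natDegree_le_of_dvd hd hF0
    rw [hF.1] at h2
    rw [h1]
    omega
  have hn1 : 1 ≤ x + y + z := by have := h.hz; omega
  have hdvd : g.map (Int.castRingHom ℂ) ∣
      ((FF x y z H G).map (evalRingHom r)).map (Int.castRingHom ℂ) := by
    rw [hg]
    exact Polynomial.map_dvd _ (Polynomial.map_dvd _ hd)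
  obtain ⟨B, hB⟩ : ∃ B : ℝ, B = 2 ^ ((b + 1) * (x + y + z) + 1) := ⟨_, rfl⟩
  have hB1 : 1 ≤ B := by rw [hB]; exact one_le_pow₀ (by norm_num)
  have hroots : ∀ ρ ∈ (g.map (Int.castRingHom ℂ)).roots, ‖ρ‖ ≤ B := by
    intro ρ hρ
    have h1 : (g.map (Int.castRingHom ℂ)).IsRoot ρ := isRoot_of_mem_roots hρ
    have h2 := h1.dvd hdvd
    rw [IsRoot, A10_eval] at h2
    rw [hB]
    exact A10_root h hr h2
  have hcoeff : ∀ i, |((g.coeff i : ℤ) : ℝ)| ≤ B ^ g.natDegree * 2 ^ g.natDegree := by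
    intro i
    have h1 := coeff_le_of_roots_le (f := Int.castRingHom ℂ) i hgm (IsAlgClosed.splits _) hroots
    rw [coeff_map, eq_intCast, Complex.norm_intCast] at h1
    refine h1.trans (mul_le_mul (pow_le_pow_right₀ hB1 (Nat.sub_le _ _)) ?_ (by positivity)
      (by positivity))
    exact_mod_cast Nat.choose_le_two_pow g.natDegree i
  have hsr : |(s:ℝ)| ≤ 2 ^ b := by
    have : ((|s| : ℤ) : ℝ) ≤ ((2 ^ b : ℤ) : ℝ) := by exact_mod_cast hs
    push_cast at this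
    exact this
  have key : |(((derivative g).eval s : ℤ) : ℝ)| ≤ 2 ^ (100 * (b + 1) * (x + y + z) ^ 2) := by
    rw [derivative_eval, sum_over_range _ (fun n => by simp)]
    push_cast
    obtain ⟨N, hNdef⟩ : ∃ N, N = g.natDegree := ⟨_, rfl⟩
    rw [← hNdef] at hN hcoeff ⊢
    have hterm : ∀ n ∈ Finset.range (N + 1), |(g.coeff n : ℝ) * n * (s:ℝ) ^ (n - 1)| ≤
        B ^ N * 2 ^ N * 2 ^ N * 2 ^ (b * N) := by
      intro n hn
      have hnN : n ≤ N := by have := Finset.mem_range.1 hn; omega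
      rw [abs_mul, abs_mul, abs_pow, Nat.abs_cast]
      have h1 : (n:ℝ) ≤ 2 ^ N := by
        have h2 : n ≤ 2 ^ N := hnN.trans (Nat.lt_two_pow_self).le
        exact_mod_cast h2
      have h2 : |(s:ℝ)| ^ (n - 1) ≤ 2 ^ (b * N) := by
        calc |(s:ℝ)| ^ (n - 1) ≤ (2 ^ b) ^ (n - 1) := pow_le_pow_left₀ (abs_nonneg _) hsr _
          _ = 2 ^ (b * (n - 1)) := (pow_mul _ _ _).symm
          _ ≤ 2 ^ (b * N) := pow_le_pow_right₀ (by norm_num) (Nat.mul_le_mul_left b (by omega))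
      have h3 : |(g.coeff n : ℝ)| * n ≤ B ^ N * 2 ^ N * 2 ^ N :=
        mul_le_mul (hcoeff n) h1 (by positivity) (by positivity)
      exact mul_le_mul h3 h2 (by positivity) (by positivity)
    refine (Finset.abs_sum_le_sum_abs _ _).trans ((Finset.sum_le_sum hterm).trans ?_)
    rw [Finset.sum_const, Finset.card_range, nsmul_eq_mul]
    have h4 : ((N + 1 : ℕ) : ℝ) ≤ 2 ^ N := by
      have h5 : N + 1 ≤ 2 ^ N := Nat.lt_two_pow_self
      exact_mod_cast h5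
    calc ((N + 1 : ℕ) : ℝ) * (B ^ N * 2 ^ N * 2 ^ N * 2 ^ (b * N))
        ≤ 2 ^ N * (B ^ N * 2 ^ N * 2 ^ N * 2 ^ (b * N)) :=
          mul_le_mul_of_nonneg_right h4 (by positivity)
      _ = 2 ^ (2 * N + (((b + 1) * (x + y + z) + 1) * N + N + b * N)) := by
          rw [hB, ← pow_mul, ← pow_add, ← pow_add, ← pow_add, ← pow_add]
          congr 1
          ring
      _ ≤ 2 ^ (100 * (b + 1) * (x + y + z) ^ 2) :=
          pow_le_pow_right₀ (by norm_num) (A10_num b (x + y + z) N hn1 hN)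
  rw [hval]
  have h9 : ((|(derivative g).eval s| : ℤ) : ℝ) ≤
      ((2 ^ (100 * (b + 1) * (x + y + z) ^ 2) : ℤ) : ℝ) := by
    push_cast
    exact key
  exact_mod_cast h9

end JP91
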