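import Pool.Agent.LibJP91.A1

open Polynomial
open scoped Polynomial.Bivariate

namespace JP91

/-- irreducible factors of a bivariate polynomial whose leading coefficient is a unit -/
private theorem A2_aux (F : ℤ[X][Y]) (hF : IsUnit F.leadingCoeff) :
    ∃ T : Finset ℤ[X][Y], T.card ≤ F.natDegree ∧
      (∀ f ∈ T, f.Monic ∧ Irreducible f ∧ f ∣ F) ∧
      ∀ r s : ℤ, F.evalEval r s = 0 → ∃ f ∈ T, f.evalEval r s = 0 := by
  classical
  induction F using WfDvdMonoid.induction_on_irreducible with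
  | zero =>
    rw [leadingCoeff_zero] at hF
    exact absurd hF not_isUnit_zero
  | unit u hu =>
    refine ⟨∅, by simp, by simp, fun r s h => ?_⟩
    have h1 : IsUnit (u.evalEval r s) := hu.map (evalEvalRingHom r s)
    rw [h] at h1
    exact absurd h1 not_isUnit_zero
  | mul a i ha hi ih =>
    rw [leadingCoeff_mul] at hF
    obtain ⟨hli, hla⟩ := IsUnit.mul_iff.1 hF
    obtain ⟨T, hT1, hT2, hT3⟩ := ih hla
    obtain ⟨v, hv⟩ := hli
    have hv' : ((v⁻¹ : ℤ[X]ˣ) : ℤ[X]) * i.leadingCoeff = 1 := by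
      rw [← hv]
      exact v.inv_mul
    have hu : IsUnit (C ((v⁻¹ : ℤ[X]ˣ) : ℤ[X]) : ℤ[X][Y]) := isUnit_C.2 (Units.isUnit _)
    have hass : Associated i (C ((v⁻¹ : ℤ[X]ˣ) : ℤ[X]) * i) := by
      obtain ⟨w, hw⟩ := hu
      exact ⟨w, by rw [hw, mul_comm]⟩
    have hmon : (C ((v⁻¹ : ℤ[X]ˣ) : ℤ[X]) * i).Monic := by
      rw [Monic, leadingCoeff_mul, leadingCoeff_C]
      exact hv'
    have hi1 : 1 ≤ i.natDegree := by
      by_contra hcon
      have h0 : i.natDegree = 0 := by omega
      rw [eq_C_of_natDegree_eq_zero h0] at hi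
      apply hi.not_isUnit
      rw [isUnit_C, ← h0]
      exact ⟨v, hv⟩
    refine ⟨insert (C ((v⁻¹ : ℤ[X]ˣ) : ℤ[X]) * i) T, ?_, ?_, ?_⟩
    · rw [natDegree_mul hi.ne_zero ha]
      have := Finset.card_insert_le (C ((v⁻¹ : ℤ[X]ˣ) : ℤ[X]) * i) T
      omega
    · intro f hf
      rcases Finset.mem_insert.1 hf with rfl | hf
      · exact ⟨hmon, hass.irreducible hi, (hass.symm.dvd).trans (dvd_mul_right _ _)⟩
      · exact ⟨(hT2 f hf).1, (hT2 f hf).2.1, ((hT2 f hf).2.2).trans (dvd_mul_left _ _)⟩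
    · intro r s h
      rw [evalEval_mul] at h
      rcases mul_eq_zero.1 h with h | h
      · refine ⟨_, Finset.mem_insert_self _ _, ?_⟩
        rw [evalEval_mul, h, mul_zero]
      · obtain ⟨f, hf, hf0⟩ := hT3 r s h
        exact ⟨f, Finset.mem_insert_of_mem hf, hf0⟩

/-- Row A2 (MEDIUM). The irreducible factors. `FF ≠ 0` by `FF_lead`.
`WfDvdMonoid.exists_factors` (or `UniqueFactorizationMonoid.normalizedFactors`) writes `FF` up to a
unit as a product of irreducible factors. The product of their leading coefficients is a unit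
(`leadingCoeff_mul`, `FF_lead`), so each leading coefficient is a unit `C u`-like element
(`IsUnit` in `ℤ[X]` means `C 1` or `C (-1)`, `Polynomial.isUnit_iff`), and after multiplication by
this unit the factor is monic. Each factor has `natDegree ≥ 1` (a monic polynomial of degree `0` is
`1`, not irreducible), so there are at most `natDegree FF = 2 max y z` factors. A zero of `FF` is a
zero of one of the factors (`evalEval` is multiplicative; a unit of `ℤ[X][Y]` is `± 1`). -/
theorem exists_factors {x y z : ℕ} {H G : ℤ} (h : Dat x y z H G) :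
    ∃ T : Finset ℤ[X][Y], T.card ≤ 2 * max y z ∧
      (∀ f ∈ T, f.Monic ∧ Irreducible f ∧ f ∣ FF x y z H G) ∧
      ∀ r s : ℤ, (FF x y z H G).evalEval r s = 0 → ∃ f ∈ T, f.evalEval r s = 0 := by
  obtain ⟨h1, h2⟩ := FF_lead h
  obtain ⟨T, hT1, hT2, hT3⟩ := A2_aux _ h2
  exact ⟨T, h1 ▸ hT1, hT2, hT3⟩

end JP91
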