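import Pool.Agent.LibJP91.A1

open Polynomial
open scoped Polynomial.Bivariate

namespace JP91

/-- Row A3 (MEDIUM, uses A1 only for the leading coefficient of the swapped polynomial). A factor of
`FF`, monic in `s`, has a unit as leading coefficient in `r` (`leadingCoeff_mul` for the swapped
polynomials, `swap` is a ring isomorphism and `ℤ[X][Y]` a domain; `isUnit_of_mul_isUnit_left`). -/
theorem swap_lead {x y z : ℕ} {H G : ℤ} (h : Dat x y z H G) {f : ℤ[X][Y]}
    (hd : f ∣ FF x y z H G) : IsUnit (Bivariate.swap f).leadingCoeff := by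
  obtain ⟨g, hg⟩ := hd
  have h1 := (FF_swap_lead h).2
  rw [hg, map_mul, leadingCoeff_mul] at h1
  exact isUnit_of_mul_isUnit_left h1

private theorem A3_two {k : Type*} [Field k] [CharP k 2] :
    (C X + C X : k[X][Y]) = 0 := by
  have h : (X + X : k[X]) = 0 := CharTwo.add_self_eq_zero X
  rw [← C_add, h, C_0]

private theorem A3_invol {k : Type*} [Field k] [CharP k 2] (p : k[X][Y]) :
    (p.comp (Y + C X)).comp (Y + C X) = p := by
  rw [comp_assoc]
  have : (Y + C X : k[X][Y]).comp (Y + C X) = Y := by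
    rw [add_comp, X_comp, C_comp, add_assoc, A3_two, add_zero]
  rw [this, comp_X]

private theorem A3_comp_map {k : Type*} [Field k] (ψ : k[X]) (q : k[X][Y]) :
    (ψ.map C).comp q = aeval q ψ := by
  rw [comp, eval₂_map, aeval_def]
  rfl

/-- Row A3, second part (ONLY MATHLIB). Over a field `k` of characteristic `2`: if a product `f * g` is
a nonzero polynomial in `r + s` then `f` is a polynomial in `r + s`, so its degrees in `r` and `s` are
equal. Proof: let `θ` be the automorphism `s ↦ s + r` of `k[X][Y]` (`f.comp (Y + C X)`; its own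
inverse as `2 = 0`). Then `θ (φ (r + s)) = φ (s + 2 r) = φ s = φ.map C`, so
`swap (θ f) * swap (θ g) = swap (φ.map C) = C φ` has degree `0` and `swap (θ f) = C ψ`
(`natDegree_mul`, `eq_C_of_natDegree_eq_zero`), `θ f = ψ.map C`, `f = (ψ.map C).comp (Y + C X)`.
Hence `f.natDegree = ψ.natDegree` (`natDegree_comp`), and `f` is symmetric: `swap f = f`. -/
theorem symm_of_mul {k : Type*} [Field k] [CharP k 2] (f g : k[X][Y]) (φ : k[X]) (hφ : φ ≠ 0)
    (h : f * g = (φ.map C).comp (Y + C X)) : Bivariate.swap f = f := by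
  have h1 : f.comp (Y + C X) * g.comp (Y + C X) = φ.map C := by
    rw [← mul_comp, h, A3_invol]
  have h2 : Bivariate.swap (f.comp (Y + C X)) * Bivariate.swap (g.comp (Y + C X)) = C φ := by
    rw [← map_mul, h1, Bivariate.swap_map_C]
  have hne : Bivariate.swap (f.comp (Y + C X)) * Bivariate.swap (g.comp (Y + C X)) ≠ 0 := by
    rw [h2]
    exact C_ne_zero.mpr hφ
  have h3 : (Bivariate.swap (f.comp (Y + C X))).natDegree = 0 := by
    have := natDegree_mul (left_ne_zero_of_mul hne) (right_ne_zero_of_mul hne)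
    rw [h2, natDegree_C] at this
    omega
  obtain ⟨ψ, hψ⟩ : ∃ ψ, Bivariate.swap (f.comp (Y + C X)) = C ψ :=
    ⟨_, eq_C_of_natDegree_eq_zero h3⟩
  have h4 : f.comp (Y + C X) = ψ.map C := by
    rw [← Bivariate.swap_swap_apply (f.comp (Y + C X)), hψ, Bivariate.swap_C]
  have h5 : f = (ψ.map C).comp (Y + C X) := by
    rw [← h4, A3_invol]
  have h6 : Bivariate.swap (Y + C X : k[X][Y]) = Y + C X := by
    rw [map_add, Bivariate.swap_X, Bivariate.swap_Y, add_comm]
  rw [h5, A3_comp_map, ← aeval_algHom_apply, h6]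

private theorem A3_swap_map {R S : Type*} [CommRing R] [CommRing S] (ρ : R →+* S) (f : R[X][Y]) :
    (Bivariate.swap f).map (mapRingHom ρ) = Bivariate.swap (f.map (mapRingHom ρ)) := by
  induction f using Polynomial.induction_on' with
  | add p q hp hq => rw [map_add, Polynomial.map_add, hp, hq, Polynomial.map_add, map_add]
  | monomial n a =>
    induction a using Polynomial.induction_on' with
    | add p q hp hq =>
      rw [map_add, map_add, Polynomial.map_add, hp, hq, Polynomial.map_add, map_add]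
    | monomial m r =>
      simp only [Bivariate.swap_monomial_monomial, map_monomial, coe_mapRingHom]

private theorem A3_FF_map {x y z : ℕ} {H G : ℤ} (h : Dat x y z H G) :
    (FF x y z H G).map (mapRingHom (Int.castRingHom (ZMod 2))) =
      (((X ^ (2 * z) - C (G : ZMod 2) * X ^ (2 * y) : (ZMod 2)[X])).map C).comp (Y + C X) := by
  have hH : ((H : ℤ) : ZMod 2) = 0 := by
    have := h.hH
    exact (ZMod.intCast_zmod_eq_zero_iff_dvd H 2).mpr this.two_dvd
  have hsq : (Y + C X : (ZMod 2)[X][Y]) ^ 2 = C X ^ 2 + Y ^ 2 := by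
    rw [CharTwo.add_sq, add_comm]
  have hsub : (C X ^ 2 - Y ^ 2 : (ZMod 2)[X][Y]) = C X ^ 2 + Y ^ 2 := by
    rw [CharTwo.sub_eq_add]
  have hG : (Int.castRingHom (ZMod 2)) G = (G : ZMod 2) := eq_intCast _ _
  have hH' : (Int.castRingHom (ZMod 2)) H = 0 := by rw [eq_intCast, hH]
  simp only [FF, cA, cB, cC, Polynomial.map_sub, Polynomial.map_pow, Polynomial.map_mul,
    Polynomial.map_add, map_X, coe_mapRingHom,
    sub_comp, mul_comp, pow_comp, X_comp, C_comp, hsub, pow_mul, hsq, map_C, hG, hH', C_0, zero_mul,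
    sub_zero]

/-- Row A3, third part. Reduce modulo `2`: with `ρ = Int.castRingHom (ZMod 2)` the polynomial
`FF.map (mapRingHom ρ)` is `(r + s) ^ (2 z) - G (r + s) ^ (2 y)` since `H` is even and
`r² - s² = r² + s² = (r + s)²`; so it is `(φ.map C).comp (Y + C X)` with
`φ = X ^ (2 z) - C G * X ^ (2 y)`, nonzero because the leading coefficient of `FF` is a unit. Also
`f.map (mapRingHom ρ)` is monic of degree `f.natDegree`, and the degree of its swap is that of
`swap f`, since the leading coefficient of `swap f` is a unit (`swap` commutes with the reduction).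
By `symm_of_mul` the two degrees are equal. -/
theorem deg_eq {x y z : ℕ} {H G : ℤ} (h : Dat x y z H G) {f : ℤ[X][Y]} (hf : f.Monic)
    (hd : f ∣ FF x y z H G) : (Bivariate.swap f).natDegree = f.natDegree := by
  set ρ := mapRingHom (Int.castRingHom (ZMod 2)) with hρ
  have hu := swap_lead h hd
  obtain ⟨g, hg⟩ := hd
  have hφ : (X ^ (2 * z) - C (G : ZMod 2) * X ^ (2 * y) : (ZMod 2)[X]) ≠ 0 := by
    intro h0
    have h1 := A3_FF_map h
    rw [h0, Polynomial.map_zero, zero_comp] at h1
    have h2 : ρ (FF x y z H G).leadingCoeff ≠ 0 := ((FF_lead h).2.map ρ).ne_zero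
    have h3 := congrArg (fun p => coeff p (FF x y z H G).natDegree) h1
    simp only [coeff_map, coeff_zero] at h3
    exact h2 h3
  have h1 : f.map ρ * g.map ρ =
      (((X ^ (2 * z) - C (G : ZMod 2) * X ^ (2 * y) : (ZMod 2)[X])).map C).comp (Y + C X) := by
    rw [← Polynomial.map_mul, ← hg, hρ, A3_FF_map h]
  have h2 := symm_of_mul _ _ _ hφ h1
  have h3 : ((Bivariate.swap f).map ρ).natDegree = (Bivariate.swap f).natDegree :=
    natDegree_map_of_leadingCoeff_ne_zero _ (hu.map ρ).ne_zero
  rw [← h3, hρ, A3_swap_map, ← hρ, h2, hf.natDegree_map]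

end JP91
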