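import Pool.Agent.LibJP91.Defs

open Polynomial
open scoped Polynomial.Bivariate

namespace JP91

/-- Row A4 (EASY). If `f(0, s)` divides `c s ^ T` then, being monic, it is `s ^ N` (over `ℚ` a monic
divisor of a power of `X` is a power of `X`: `dvd_prime_pow`, `Polynomial.prime_X`; then go back to
`ℤ`). For the point `(r, s)` of `Good.pt`: `r ∣ f(r, s) - f(0, s)` (`f` evaluated at congruent
arguments: `sub_dvd_eval_sub` for each coefficient, or write `f = C X * g + (at0 f).map C`), so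
`r ∣ s ^ N`, and `r`, `s` coprime give `IsUnit r`, impossible since `r > s ≥ 1`. -/
theorem not_dvd {x y z : ℕ} {H G : ℤ} {f : ℤ[X][Y]} (hf : Good x y z H G f) (c : ℤ) (hc : c ≠ 0)
    (T : ℕ) : ¬ at0 f ∣ C c * X ^ T := by
  rintro ⟨h, hh⟩
  have hmon : (at0 f).Monic := hf.mon.map _
  obtain ⟨g₂, hg₂, hnd⟩ := exists_eq_pow_rootMultiplicity_mul_and_not_dvd (at0 f) hmon.ne_zero 0
  set j := rootMultiplicity 0 (at0 f)
  rw [C_0, sub_zero] at hg₂ hnd
  have h1 : (X : ℤ[X]) ^ T ∣ g₂ * (X ^ j * h) := by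
    refine ⟨C c, ?_⟩
    rw [hg₂] at hh
    linear_combination -hh
  obtain ⟨h₂, hh₂⟩ := prime_X.pow_dvd_of_dvd_mul_left T hnd h1
  have h2 : g₂ * h₂ = C c := by
    apply mul_left_cancel₀ (pow_ne_zero T (X_ne_zero (R := ℤ)))
    rw [hg₂] at hh
    linear_combination -hh - g₂ * hh₂
  have hg₂m : g₂.Monic := by
    have h3 := hmon
    rw [hg₂] at h3
    exact (monic_X_pow j).of_mul_monic_left h3
  have hC : (C c : ℤ[X]) ≠ 0 := by
    rwa [Ne, C_eq_zero]
  have hd : g₂.natDegree = 0 := by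
    have h3 := congrArg natDegree h2
    have h4 : h₂ ≠ 0 := by
      rintro rfl
      rw [mul_zero] at h2
      exact hC h2.symm
    rw [natDegree_mul hg₂m.ne_zero h4, natDegree_C] at h3
    omega
  have hg1 : g₂ = 1 := eq_one_of_monic_natDegree_zero hg₂m hd
  rw [hg1, mul_one] at hg₂
  obtain ⟨r, s, hs, hsr, hcop, h0⟩ := hf.pt
  have h3 : r ∣ s ^ j := by
    have h4 := sub_dvd_eval_sub r 0 (eval (C s) f)
    have h5 : eval 0 (eval (C s) f) = s ^ j := by
      have h6 : (at0 f).eval s = s ^ j := by rw [hg₂, eval_pow, eval_X]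
      rw [at0, eval_map, eval₂_evalRingHom] at h6
      exact h6
    have h7 : eval r (eval (C s) f) = 0 := h0
    rw [h5, h7, sub_zero, zero_sub, dvd_neg] at h4
    exact h4
  have h4 : IsUnit r := (hcop.pow_right (n := j)).isUnit_of_dvd' dvd_rfl h3
  rcases Int.isUnit_iff.1 h4 with h5 | h5 <;> omega

end JP91
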