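import Pool.Agent.LibJP91.A3
import Pool.Agent.LibJP91.A4
import Pool.Agent.LibJP91.A5

open Polynomial
open scoped Polynomial.Bivariate

namespace JP91

private theorem A6_at0_dvd {f g : ℤ[X][Y]} (h : f ∣ g) : at0 f ∣ at0 g :=
  map_dvd (mapRingHom (evalRingHom (0 : ℤ))) h

private theorem A6_natDegree_pos {f : ℤ[X][Y]} (hm : f.Monic) (hi : Irreducible f) :
    1 ≤ f.natDegree := by
  by_contra hcon
  have h0 : f.natDegree = 0 := by omega
  have h1 : f = 1 := hm.natDegree_eq_zero.mp h0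
  exact hi.not_isUnit (h1 ▸ isUnit_one)

private theorem A6_not_dvd_C {f : ℤ[X][Y]} (h1 : 1 ≤ f.natDegree) (a : ℤ[X]) (ha : a ≠ 0) :
    ¬ f ∣ C a := by
  intro hd
  have := natDegree_le_of_dvd hd (C_ne_zero.mpr ha)
  rw [natDegree_C] at this
  omega

private theorem A6_not_dvd_dr {f : ℤ[X][Y]} (h1 : 1 ≤ (Bivariate.swap f).natDegree) :
    ¬ f ∣ dr f := by
  intro hd
  have h2 : Bivariate.swap f ∣ derivative (Bivariate.swap f) := by
    have := map_dvd (Bivariate.swap (R := ℤ)) hd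
    rwa [dr, Bivariate.swap_swap_apply] at this
  have h3 : derivative (Bivariate.swap f) ≠ 0 := by
    intro h0
    have := derivative_eq_zero.mp h0
    omega
  have h4 := natDegree_le_of_dvd h2 h3
  have h5 := natDegree_derivative_lt (p := Bivariate.swap f) (by omega)
  omega

/-- Row A6 (MEDIUM). Suppose `f ∣ E1`. By `key_dvd`, `f ∣ C (C H) * cA ^ (x - 1) * E2`. `f` is prime
(`Irreducible.prime`); it does not divide `C (C H)`, nor `C X` (degree in `s`: `f` is monic of positive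
degree, and a multiple of `f` has degree `≥ 1` in `s` or is `0`), nor `Y` (a monic irreducible divisor of
`Y` is `Y`, but `at0 Y = X`, see `not_dvd` with `c = 1`, `T = 1`). So `f ∣ E2`. Eliminate `derivative f`:
with `α = r ((y-z) r² + (y+z) s²)`, `β = s ((y+z) r² + (y-z) s²)`, `γ = s ((x-2y) r² - x s²)`,
`δ = r (x r² - (x-2y) s²)`: `E1 = α fₛ + β fᵣ`, `E2 = γ fₛ - δ fᵣ`, so
`γ E1 - α E2 = (β γ + α δ) fᵣ`. `f` does not divide `fᵣ = dr f` (it is nonzero: the degree in `r` of `f`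
is `natDegree f ≥ 1` by `deg_eq` and the leading coefficient in `r` a unit; and its degree in `r` is
smaller). So `f ∣ β γ + α δ`; at `r = 0`: `at0 f ∣ C (x (z - y)) * X ^ 6`
(`at0` is a ring homomorphism), which contradicts `not_dvd` as `y ≠ z`. -/
theorem not_dvd_E1 {x y z : ℕ} {H G : ℤ} (h : Dat x y z H G) {f : ℤ[X][Y]}
    (hf : Good x y z H G f) : ¬ f ∣ E1 y z f := by
  intro hE1
  have hH0 : H ≠ 0 := by have := h.hH1; omega
  have hx1 : 1 ≤ x := by have := h.hx; omega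
  have hdeg := A6_natDegree_pos hf.mon hf.irr
  have hprime : Prime f := hf.irr.prime
  have hkey := key_dvd hx1 h.hy h.hz hf.dvd
  have h1 : f ∣ C (C H) * cA ^ (x - 1) * E2 x y f := by
    have h2 : f ∣ 2 * cC ^ (z - 1) * E1 y z f := Dvd.dvd.mul_left hE1 _
    exact (dvd_add_right h2).mp hkey
  have hE2 : f ∣ E2 x y f := by
    rcases hprime.dvd_or_dvd h1 with h2 | h2
    · exfalso
      rcases hprime.dvd_or_dvd h2 with h3 | h3
      · exact A6_not_dvd_C hdeg _ (C_ne_zero.mpr hH0) h3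
      · have h4 : f ∣ C X * Y := hprime.dvd_of_dvd_pow h3
        rcases hprime.dvd_or_dvd h4 with h5 | h5
        · exact A6_not_dvd_C hdeg _ X_ne_zero h5
        · have h6 := A6_at0_dvd h5
          apply not_dvd hf 1 one_ne_zero 1
          rwa [C_1, one_mul, pow_one, ← map_X (evalRingHom (0 : ℤ))]
    · exact h2
  have hlin : f ∣ ((Y * (C (C ((y : ℤ) + z)) * C X ^ 2 + C (C ((y : ℤ) - z)) * Y ^ 2)) *
      (Y * (C (C ((x : ℤ) - 2 * y)) * C X ^ 2 - C (C (x : ℤ)) * Y ^ 2)) +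
      (C X * (C (C ((y : ℤ) - z)) * C X ^ 2 + C (C ((y : ℤ) + z)) * Y ^ 2)) *
      (C X * (C (C (x : ℤ)) * C X ^ 2 - C (C ((x : ℤ) - 2 * y)) * Y ^ 2))) * dr f := by
    have h2 := dvd_sub
      (Dvd.dvd.mul_left hE1 (Y * (C (C ((x : ℤ) - 2 * y)) * C X ^ 2 - C (C (x : ℤ)) * Y ^ 2)))
      (Dvd.dvd.mul_left hE2
        (C X * (C (C ((y : ℤ) - z)) * C X ^ 2 + C (C ((y : ℤ) + z)) * Y ^ 2)))
    convert h2 using 1
    rw [E1, E2]
    ring
  rcases hprime.dvd_or_dvd hlin with h2 | h2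
  · have h3 := A6_at0_dvd h2
    have hne : (x : ℤ) * ((z : ℤ) - y) ≠ 0 := by
      apply mul_ne_zero
      · have := hx1
        omega
      · have := h.hyz
        omega
    apply not_dvd hf _ hne 6
    convert h3 using 1
    simp only [at0, Polynomial.map_add, Polynomial.map_mul, Polynomial.map_sub, Polynomial.map_pow,
      map_X, map_C, coe_evalRingHom, eval_X, eval_C, C_0]
    rw [C_mul, C_sub, C_sub]
    ring
  · refine A6_not_dvd_dr ?_ h2
    rw [deg_eq h hf.mon hf.dvd]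
    exact hdeg

end JP91
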