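import Pool.Agent.LibJP91.A5

open Polynomial
open scoped Polynomial.Bivariate

namespace JP91

private theorem A7_pow (u v U : ℤ[X][Y]) (n m : ℕ)
    (hU : (v ^ 2) ^ n - (-(u ^ 2)) ^ n = (v ^ 2 - -(u ^ 2)) * U) :
    ∃ V : ℤ[X][Y], v ^ (2 * n * m) = (u ^ 2 + v ^ 2) ^ m * U ^ m + u ^ n * V := by
  have hU1 : (v ^ 2) ^ n = (u ^ 2 + v ^ 2) * U + u ^ n * (u ^ n * (-1) ^ n) := by
    have h1 : (-(u ^ 2)) ^ n = u ^ n * (u ^ n * (-1) ^ n) := by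
      rw [neg_pow (u ^ 2) n, ← pow_mul, two_mul, pow_add]
      ring
    rw [h1] at hU
    linear_combination hU
  obtain ⟨V₁, hV₁⟩ := sub_dvd_pow_sub_pow ((v ^ 2) ^ n) ((u ^ 2 + v ^ 2) * U) m
  refine ⟨(u ^ n * (-1) ^ n) * V₁, ?_⟩
  rw [pow_mul, pow_mul, ← mul_pow]
  have h2 : (v ^ 2) ^ n - (u ^ 2 + v ^ 2) * U = u ^ n * (u ^ n * (-1) ^ n) := by
    rw [hU1]
    ring
  rw [h2] at hV₁
  linear_combination hV₁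

theorem loc {x y z : ℕ} {H G : ℤ} {f : ℤ[X][Y]}
    (hk : f ∣ 2 * cC ^ (z - 1) * E1 y z f + C (C H) * cA ^ (x - 1) * E2 x y f) :
    ∃ (T : ℕ) (W V : ℤ[X][Y]), C (C 2) * Y ^ T * E1 y z f = f * W + C X ^ (x - 1) * V := by
  obtain ⟨W₁, hW₁⟩ := hk
  obtain ⟨n, hn⟩ : ∃ n : ℕ, n = x - 1 := ⟨_, rfl⟩
  rw [← hn] at hW₁ ⊢
  obtain ⟨u, hu⟩ : ∃ u : ℤ[X][Y], u = C X := ⟨_, rfl⟩
  obtain ⟨U, hU⟩ := sub_dvd_pow_sub_pow (Y ^ 2 : ℤ[X][Y]) (-(u ^ 2)) n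
  obtain ⟨V, hV⟩ := A7_pow u Y U n (z - 1) hU
  refine ⟨2 * n * (z - 1), W₁ * U ^ (z - 1),
    C (C 2) * V * E1 y z f - U ^ (z - 1) * C (C H) * Y ^ n * E2 x y f, ?_⟩
  rw [hV, ← hu]
  have h3 : cA ^ n = (u ^ n * Y ^ n : ℤ[X][Y]) := by
    unfold cA
    rw [mul_pow, hu]
  have h5 : cC = (u ^ 2 + Y ^ 2 : ℤ[X][Y]) := by
    unfold cC
    rw [hu]
  rw [h3, h5] at hW₁
  have h4 : (C (C 2) : ℤ[X][Y]) = 2 := by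
    have h6 : (C 2 : ℤ[X]) = 2 := map_ofNat C 2
    rw [h6]
    exact map_ofNat C 2
  rw [h4]
  linear_combination U ^ (z - 1) * hW₁

end JP91
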