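import Pool.Agent.LibJP91.Defs

open Polynomial
open scoped Polynomial.Bivariate

namespace JP91

/-- Row A8a (ONLY MATHLIB, EASY). Degree of the resultant: a determinant of size `m + n` whose entries
have degree `≤ b` (`Polynomial.resultant`, `Polynomial.sylvester`, `Matrix.det_apply`,
`natDegree_sum_le_of_forall_le`, `natDegree_prod_le`). -/
theorem res_deg (f g : ℤ[X][Y]) (m n b : ℕ) (hf : ∀ j, (f.coeff j).natDegree ≤ b)
    (hg : ∀ j, (g.coeff j).natDegree ≤ b) : (resultant f g m n).natDegree ≤ (m + n) * b := by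
  have hent : ∀ i j, (sylvester f g m n i j).natDegree ≤ b := by
    intro i j
    refine Fin.addCases (fun j => ?_) (fun j => ?_) j
    · simp only [sylvester, Matrix.of_apply, Fin.addCases_left]
      split_ifs
      · exact hg _
      · simp
    · simp only [sylvester, Matrix.of_apply, Fin.addCases_right]
      split_ifs
      · exact hf _
      · simp
  rw [resultant, Matrix.det_apply']
  refine natDegree_sum_le_of_forall_le _ _ fun σ _ => ?_
  refine natDegree_mul_le.trans ?_
  rw [natDegree_intCast, zero_add]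
  refine (natDegree_prod_le _ _).trans ?_
  refine (Finset.sum_le_sum fun i _ => hent _ _).trans ?_
  simp

/-- Row A8b (ONLY MATHLIB, EASY). For `f` monic irreducible in `ℤ[X][Y]` and `¬ f ∣ g` the resultant is
nonzero. Over the field `K = FractionRing ℤ[X]`: `f` stays irreducible (Gauss,
`Polynomial.Monic.irreducible_iff_irreducible_map_fraction_map`), and does not divide `g` there (`f`
monic: division with remainder commutes with the map); so `IsCoprime` and
`Polynomial.resultant_eq_zero_iff` / `resultant_map_map`. -/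
theorem res_ne_zero (f g : ℤ[X][Y]) (hf : f.Monic) (hi : Irreducible f) (hg : ¬ f ∣ g) (n : ℕ)
    (hn : g.natDegree ≤ n) : resultant f g f.natDegree n ≠ 0 := by
  obtain ⟨j, rfl⟩ := Nat.exists_eq_add_of_le hn
  rw [resultant_add_right_deg _ _ _ _ _ le_rfl, hf.coeff_natDegree, one_pow, one_mul]
  have hinj : Function.Injective (algebraMap ℤ[X] (FractionRing ℤ[X])) :=
    IsFractionRing.injective _ _
  have hi' : Irreducible (f.map (algebraMap ℤ[X] (FractionRing ℤ[X]))) :=
    (Monic.irreducible_iff_irreducible_map_fraction_map hf).1 hi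
  have hd : ¬ f.map (algebraMap ℤ[X] (FractionRing ℤ[X])) ∣
      g.map (algebraMap ℤ[X] (FractionRing ℤ[X])) := by
    rw [Polynomial.map_dvd_map _ hinj hf]
    exact hg
  have hcop : IsCoprime (f.map (algebraMap ℤ[X] (FractionRing ℤ[X])))
      (g.map (algebraMap ℤ[X] (FractionRing ℤ[X]))) := hi'.coprime_iff_not_dvd.2 hd
  have h1 := resultant_ne_zero _ _ hcop
  rw [natDegree_map_eq_of_injective hinj, natDegree_map_eq_of_injective hinj,
    resultant_map_map] at h1
  intro h2
  rw [h2, map_zero] at h1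
  exact h1 rfl

/-- Row A8c (MEDIUM). The order of the resultant at `r = 0`. Let `R = resultant f E N a ∈ ℤ[X]`,
`R ≠ 0`, `C R = f * U + E * V'` (`Polynomial.exists_mul_add_mul_eq_C_resultant`). Then
`C (C c) * Y ^ T * C R = f * W' + C X ^ n * V''`. Write `R = X ^ k * R₂` with `R₂.coeff 0 ≠ 0`
(`Polynomial.exists_eq_pow_rootMultiplicity_mul_and_not_dvd` or `divX`). Suppose `k < n`. Then
`C X ^ k ∣ f * W'`; `C X` is prime in `ℤ[X][Y]` and does not divide the monic `f`, so `W' = C X ^ k * W₂`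
and `C (C c) * Y ^ T * C R₂ = f * W₂ + C X ^ (n - k) * V''`. At `r = 0` (`at0`):
`at0 f ∣ C (c * R₂.coeff 0) * X ^ T`, against `hq`. So `n ≤ k ≤ natDegree R ≤ (N + a) b` by A8a. -/
theorem order_le {f E : ℤ[X][Y]} (hf : f.Monic) (hi : Irreducible f) (hE : ¬ f ∣ E)
    (hq : ∀ c : ℤ, c ≠ 0 → ∀ T : ℕ, ¬ at0 f ∣ C c * X ^ T) {a b n T : ℕ} {c : ℤ} (hc : c ≠ 0)
    (ha : E.natDegree ≤ a) (hb : ∀ j, (f.coeff j).natDegree ≤ b)
    (hb' : ∀ j, (E.coeff j).natDegree ≤ b) {W V : ℤ[X][Y]}
    (h : C (C c) * Y ^ T * E = f * W + C X ^ n * V) : n ≤ (f.natDegree + a) * b := by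
  have hN : f.natDegree ≠ 0 := by
    intro h0
    have h1 := eq_one_of_monic_natDegree_zero hf h0
    exact hi.not_isUnit (h1 ▸ isUnit_one)
  have hR := res_ne_zero f E hf hi hE a ha
  have hRd := res_deg f E f.natDegree a b hb hb'
  obtain ⟨p, q, -, -, hpq⟩ := exists_mul_add_mul_eq_C_resultant f E (le_refl f.natDegree) ha
    (Or.inl hN)
  set R := resultant f E f.natDegree a with hRdef
  obtain ⟨R₂, hR₂, hnd⟩ := exists_eq_pow_rootMultiplicity_mul_and_not_dvd R hR 0
  set l := rootMultiplicity 0 R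
  rw [C_0, sub_zero] at hR₂ hnd
  have hR₂0 : R₂ ≠ 0 := by
    rintro rfl
    exact hnd (dvd_zero _)
  have hev : R₂.eval 0 ≠ 0 := by
    intro h0
    exact hnd (X_dvd_iff.2 (by rwa [coeff_zero_eq_eval_zero]))
  have hl : l ≤ R.natDegree := by
    rw [hR₂, natDegree_mul (pow_ne_zero _ X_ne_zero) hR₂0, natDegree_X_pow]
    omega
  by_contra hcon
  have hln : l < n := by omega
  -- the identity for the resultant
  have h1 : C (C c) * Y ^ T * C R = f * (C (C c) * Y ^ T * p + W * q) + C X ^ n * (V * q) := by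
    rw [← hpq]
    linear_combination q * h
  have hprime : Prime (C X : ℤ[X][Y]) := prime_C_iff.2 prime_X
  have hndf : ¬ (C X : ℤ[X][Y]) ∣ f := by
    intro h2
    have h3 := (C_dvd_iff_dvd_coeff _ _).1 h2 f.natDegree
    rw [hf.coeff_natDegree] at h3
    exact not_isUnit_X (isUnit_of_dvd_one h3)
  have hX0 : (C X : ℤ[X][Y]) ^ l ≠ 0 := pow_ne_zero _ hprime.ne_zero
  have hCR : (C R : ℤ[X][Y]) = C X ^ l * C R₂ := by
    conv_lhs => rw [hR₂]
    rw [map_mul, map_pow]
  have hn' : (C X : ℤ[X][Y]) ^ n = C X ^ l * C X ^ (n - l) := by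
    rw [← pow_add]
    congr 1
    omega
  have h2 : (C X : ℤ[X][Y]) ^ l ∣ f * (C (C c) * Y ^ T * p + W * q) := by
    refine ⟨C (C c) * Y ^ T * C R₂ - C X ^ (n - l) * (V * q), ?_⟩
    rw [hCR, hn'] at h1
    linear_combination -h1
  obtain ⟨W₂, hW₂⟩ := hprime.pow_dvd_of_dvd_mul_left l hndf h2
  have h3 : C (C c) * Y ^ T * C R₂ = f * W₂ + C X ^ (n - l) * (V * q) := by
    apply mul_left_cancel₀ hX0
    rw [hCR, hn', hW₂] at h1
    linear_combination h1
  have h4 := congrArg (Polynomial.map (evalRingHom (0 : ℤ))) h3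
  have h5 : (Polynomial.map (evalRingHom (0 : ℤ)) (C X : ℤ[X][Y])) ^ (n - l) = 0 := by
    rw [map_C, coe_evalRingHom, eval_X, C_0]
    exact zero_pow (by omega)
  rw [Polynomial.map_add, Polynomial.map_mul, Polynomial.map_mul, Polynomial.map_mul,
    Polynomial.map_mul, Polynomial.map_pow, Polynomial.map_pow, h5, zero_mul, add_zero, map_C,
    map_C, map_X, coe_evalRingHom, eval_C] at h4
  apply hq (c * R₂.eval 0) (mul_ne_zero hc hev) T
  refine ⟨Polynomial.map (evalRingHom 0) W₂, ?_⟩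
  rw [at0, ← h4, C_mul]
  ring

end JP91
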