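import Pool.Agent.LibJP91.A6
import Pool.Agent.LibJP91.A7
import Pool.Agent.LibJP91.A8

open Polynomial
open scoped Polynomial.Bivariate

namespace JP91

private theorem A9_P1 (a b : ℤ) : (C (C a) * C X ^ 2 + C (C b) * Y ^ 2 : ℤ[X][Y]).natDegree ≤ 2 := by
  have h1 : (C (C a) * C X ^ 2 : ℤ[X][Y]) = C (C a * X ^ 2) := by
    rw [C_mul, C_pow]
  rw [h1]
  refine natDegree_add_le_of_degree_le ?_ ?_
  · rw [natDegree_C]
    exact Nat.zero_le _
  · exact natDegree_C_mul_X_pow_le _ _

private theorem A9_P2 (a b : ℤ) : (C (C a) * Y ^ 2 + C (C b) * C X ^ 2 : ℤ[X][Y]).natDegree ≤ 2 := by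
  rw [add_comm]
  exact A9_P1 b a

theorem E1_deg (y z : ℕ) {f : ℤ[X][Y]} (hf : f.Monic) (h1 : 1 ≤ f.natDegree) :
    (E1 y z f).natDegree ≤ f.natDegree + 2 := by
  unfold E1
  have h2 := natDegree_dr_lt f hf h1
  have h3 : (derivative f).natDegree ≤ f.natDegree - 1 := natDegree_derivative_le f
  refine natDegree_add_le_of_degree_le ?_ ?_
  · refine natDegree_mul_le.trans ?_
    have h4 : (C X * derivative f : ℤ[X][Y]).natDegree ≤ (derivative f).natDegree :=
      natDegree_C_mul_le _ _
    have h5 := A9_P1 ((y : ℤ) - z) ((y : ℤ) + z)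
    omega
  · refine natDegree_mul_le.trans ?_
    have h4 : (Y * dr f : ℤ[X][Y]).natDegree ≤ 1 + (dr f).natDegree := by
      refine natDegree_mul_le.trans ?_
      have h5 : (Y : ℤ[X][Y]).natDegree ≤ 1 := natDegree_X_le
      omega
    have h5 := A9_P1 ((y : ℤ) + z) ((y : ℤ) - z)
    omega

private theorem A9_swap_deriv (f : ℤ[X][Y]) :
    (Bivariate.swap (derivative f)).natDegree ≤ (Bivariate.swap f).natDegree := by
  rw [natDegree_le_iff_coeff_eq_zero]
  intro i hi
  ext j
  rw [coeff_coeff_swap, coeff_derivative, coeff_zero]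
  have h1 : (f.coeff (j + 1)).coeff i = 0 := by
    rw [← coeff_coeff_swap, coeff_eq_zero_of_natDegree_lt hi, coeff_zero]
  have h2 : ((j : ℤ[X]) + 1) = C ((j : ℤ) + 1) := by simp
  rw [h2, coeff_mul_C, h1, zero_mul]

private theorem A9_swap_dr (f : ℤ[X][Y]) :
    Bivariate.swap (dr f) = derivative (Bivariate.swap f) := by
  unfold dr
  ext i j
  rw [coeff_coeff_swap, coeff_coeff_swap]

theorem E1_deg' (y z : ℕ) (f : ℤ[X][Y]) (j : ℕ) :
    ((E1 y z f).coeff j).natDegree ≤ (Bivariate.swap f).natDegree + 3 := by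
  refine (natDegree_coeff_le _ j).trans ?_
  unfold E1
  have hX : Bivariate.swap (C X : ℤ[X][Y]) = Y := Bivariate.swap_X
  have hY : Bivariate.swap (Y : ℤ[X][Y]) = C X := Bivariate.swap_Y
  have hC : ∀ a : ℤ, Bivariate.swap (C (C a) : ℤ[X][Y]) = C (C a) := fun a => Bivariate.swap_C_C a
  simp only [map_add, map_mul, map_pow, hX, hY, hC, A9_swap_dr]
  have h3 : (derivative (Bivariate.swap f)).natDegree ≤ (Bivariate.swap f).natDegree :=
    (natDegree_derivative_le _).trans (Nat.sub_le _ _)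
  have h4 := A9_swap_deriv f
  refine natDegree_add_le_of_degree_le ?_ ?_
  · refine natDegree_mul_le.trans ?_
    have h6 : (Y * Bivariate.swap (derivative f) : ℤ[X][Y]).natDegree ≤
        1 + (Bivariate.swap (derivative f)).natDegree := by
      refine natDegree_mul_le.trans ?_
      have h5 : (Y : ℤ[X][Y]).natDegree ≤ 1 := natDegree_X_le
      omega
    have h5 := A9_P2 ((y : ℤ) - z) ((y : ℤ) + z)
    simp only [map_sub, map_add] at h5 ⊢
    omega
  · refine natDegree_mul_le.trans ?_
    have h6 : (C X * derivative (Bivariate.swap f) : ℤ[X][Y]).natDegree ≤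
        (derivative (Bivariate.swap f)).natDegree := natDegree_C_mul_le _ _
    have h5 := A9_P2 ((y : ℤ) + z) ((y : ℤ) - z)
    simp only [map_sub, map_add] at h5 ⊢
    omega

theorem exp_le {x y z : ℕ} {H G : ℤ} (h : Dat x y z H G) {f : ℤ[X][Y]} (hf : Good x y z H G f) :
    x ≤ (2 * f.natDegree + 2) * (f.natDegree + 3) + 1 := by
  have h1 : 1 ≤ f.natDegree := by
    have h2 : f ≠ 1 := by
      intro h3
      have h4 := hf.irr.not_isUnit
      rw [h3] at h4
      exact h4 isUnit_one
    exact hf.mon.natDegree_pos.2 h2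
  have hz := h.hz
  have hx := h.hx
  obtain ⟨T, W, V, hT⟩ := loc (G := G) (key_dvd (x := x) (y := y) (z := z) (H := H) (G := G) (by omega) h.hy hz hf.dvd)
  have hdeg := deg_eq h hf.mon hf.dvd
  have h5 := order_le hf.mon hf.irr (not_dvd_E1 h hf) (fun c hc T => not_dvd hf c hc T)
    (a := f.natDegree + 2) (b := f.natDegree + 3) (n := x - 1) (T := T) (c := 2) (by norm_num)
    (E1_deg y z hf.mon h1)
    (fun j => by
      have := natDegree_coeff_le f j
      rw [hdeg] at this
      omega)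
    (fun j => by
      have := E1_deg' y z f j
      rw [hdeg] at this
      exact this) hT
  have h6 : f.natDegree + (f.natDegree + 2) = 2 * f.natDegree + 2 := by ring
  rw [h6] at h5
  omega

end JP91
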