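import Pool.Agent.LibJP91.A8

open Polynomial
open scoped Polynomial.Bivariate

namespace JP91

/-- Row B0 (EASY, from A8). Common integral zeros of `f` and `P`. Let
`R = resultant f P f.natDegree a ≠ 0` (`res_ne_zero`), of degree `≤ (N + a) (M + b)` (`res_deg` with the
bound `M + b` for both). `C R = f * U + P * V` (`exists_mul_add_mul_eq_C_resultant`), so a common
zero `(r, s)` satisfies `R.eval r = 0`: at most `(N + a) (M + b)` values of `r` (`card_roots'`). For each
`r` the polynomial `f(r, ·)` is monic of degree `N`: at most `N` values of `s`. -/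
theorem bezout (f P : ℤ[X][Y]) (M a b : ℕ) (hf : f.Monic) (hi : Irreducible f) (hP : ¬ f ∣ P)
    (hM : ∀ j, (f.coeff j).natDegree ≤ M) (ha : P.natDegree ≤ a)
    (hb : ∀ j, (P.coeff j).natDegree ≤ b) (S : Finset (ℤ × ℤ))
    (hS : ∀ p ∈ S, f.evalEval p.1 p.2 = 0 ∧ P.evalEval p.1 p.2 = 0) :
    S.card ≤ f.natDegree * ((f.natDegree + a) * (M + b)) := by
  classical
  have hN : f.natDegree ≠ 0 := by
    intro h0
    have h1 := eq_one_of_monic_natDegree_zero hf h0
    exact hi.not_isUnit (h1 ▸ isUnit_one)
  have hR := res_ne_zero f P hf hi hP a ha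
  have hRd := res_deg f P f.natDegree a (M + b) (fun j => (hM j).trans (Nat.le_add_right _ _))
    (fun j => (hb j).trans (Nat.le_add_left _ _))
  obtain ⟨p, q, -, -, hpq⟩ := exists_mul_add_mul_eq_C_resultant f P (le_refl f.natDegree) ha
    (Or.inl hN)
  set R := resultant f P f.natDegree a with hRdef
  have h1 : S.card ≤ f.natDegree * (S.image Prod.fst).card := by
    apply Finset.card_le_mul_card_image
    intro r _
    have hmon : (f.map (evalRingHom r)).Monic := hf.map _
    have hdeg : (f.map (evalRingHom r)).natDegree = f.natDegree := hf.natDegree_map _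
    have h2 : (S.filter fun p => p.1 = r).card ≤ (f.map (evalRingHom r)).roots.toFinset.card := by
      apply Finset.card_le_card_of_injOn Prod.snd
      · intro p hp
        obtain ⟨hp1, hp2⟩ := Finset.mem_filter.1 (Finset.mem_coe.1 hp)
        rw [Finset.mem_coe, Multiset.mem_toFinset, mem_roots hmon.ne_zero, IsRoot.def, eval_map,
          eval₂_evalRingHom, ← hp2]
        exact (hS p hp1).1
      · intro p hp p' hp' h
        have e1 := (Finset.mem_filter.1 (Finset.mem_coe.1 hp)).2
        have e2 := (Finset.mem_filter.1 (Finset.mem_coe.1 hp')).2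
        exact Prod.ext (e1.trans e2.symm) h
    refine h2.trans ?_
    refine (Multiset.toFinset_card_le _).trans ?_
    rw [← hdeg]
    exact card_roots' _
  refine h1.trans (Nat.mul_le_mul_left _ ?_)
  refine le_trans ?_ hRd
  refine le_trans ?_ ((Multiset.toFinset_card_le _).trans (card_roots' R))
  apply Finset.card_le_card
  intro r hr
  obtain ⟨p', hp', rfl⟩ := Finset.mem_image.1 hr
  rw [Multiset.mem_toFinset, mem_roots hR, IsRoot.def]
  have h3 := congrArg (evalEval p'.1 p'.2) hpq
  rw [evalEval_add, evalEval_mul, evalEval_mul, (hS p' hp').1, (hS p' hp').2, evalEval_C] at h3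
  rw [← h3]
  ring

end JP91
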