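import Pool.Agent.LibJP91.Defs

open Polynomial
open scoped Polynomial.Bivariate

namespace JP91

theorem B1_dvd {k : Type*} [CommRing k] (p : k[X][Y]) (h : p.map (evalRingHom 0) = 0) :
    ∃ g : k[X][Y], p = C X * g := by
  have h1 : C (X : k[X]) ∣ p := by
    rw [C_dvd_iff_dvd_coeff]
    intro i
    rw [X_dvd_iff]
    have h2 : (p.map (evalRingHom 0)).coeff i = 0 := by rw [h, coeff_zero]
    rw [coeff_map, coe_evalRingHom, ← coeff_zero_eq_eval_zero] at h2
    exact h2
  exact h1

theorem B1_map_C {k : Type*} [CommRing k] (u : k[X]) :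
    (u.map (C : k →+* k[X])).map (evalRingHom 0) = u := by
  rw [Polynomial.map_map]
  have : (evalRingHom (0 : k)).comp (C : k →+* k[X]) = RingHom.id k := by
    ext a
    simp
  rw [this, Polynomial.map_id]

/-- Row B1 (ONLY MATHLIB, MEDIUM). Linear algebra: more than `deg q * a` polynomials have a
nontrivial combination which, multiplied by a power of `s`, lies in the ideal `(f, r ^ a)`.
Induction on `a` (for all `m`, `P`). `a = 0`: take any `c ≠ 0`. Step: let `w` be such that
`f = Y ^ o * q.map C + C X * w` (the difference vanishes at `r = 0`, so it is divisible by `C X`).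
The linear map `c ↦ (∑ c i • at0 (P i)) mod q` (for instance into `k[X] ⧸ (q)` or
`AdjoinRoot q`, of dimension `deg q`) has a kernel of dimension `≥ m - deg q > deg q * a`; let `κ₁, …`
be `deg q * a + 1` linearly independent elements. For each, `P'ₗ = ∑ κₗ i • P i` satisfies
`P'ₗ(0, s) = q uₗ`, so `P'ₗ = q.map C * uₗ.map C + C X * gₗ` and
`Y ^ o * P'ₗ = f * uₗ.map C + C X * P''ₗ`, `P''ₗ = Y ^ o * gₗ - w * uₗ.map C`. Apply the induction
hypothesis to the `P''ₗ`; the combination `∑ c'ₗ κₗ` is nonzero by independence. -/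
theorem la_field {k : Type*} [Field k] (f : k[X][Y]) (o : ℕ) (q : k[X])
    (hq : f.map (evalRingHom 0) = X ^ o * q) (hq0 : q ≠ 0) (a : ℕ) :
    ∀ (m : ℕ) (_ : q.natDegree * a < m) (P : Fin m → k[X][Y]),
      ∃ c : Fin m → k, c ≠ 0 ∧ ∃ W V : k[X][Y],
        Y ^ (a * o) * ∑ i, C (C (c i)) * P i = f * W + C X ^ a * V := by
  induction a with
  | zero =>
    intro m hm P
    have hm' : 0 < m := by simpa using hm
    refine ⟨fun _ => 1, fun h => one_ne_zero (congrFun h ⟨0, hm'⟩), 0, ∑ i, P i, ?_⟩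
    simp
  | succ a ih =>
    intro m hm P
    -- the linear map
    let L : (Fin m → k) →ₗ[k] (k[X] ⧸ Ideal.span {q}) :=
      { toFun := fun c => Ideal.Quotient.mk (Ideal.span {q})
          (∑ i, C (c i) * (P i).map (evalRingHom 0))
        map_add' := fun c c' => by
          rw [← map_add, ← Finset.sum_add_distrib]
          congr 1
          refine Finset.sum_congr rfl fun i _ => ?_
          rw [Pi.add_apply, C_add, add_mul]
        map_smul' := fun r c => by
          have h1 : ∑ i, C ((r • c) i) * (P i).map (evalRingHom 0) =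
              C r * ∑ i, C (c i) * (P i).map (evalRingHom 0) := by
            rw [Finset.mul_sum]
            refine Finset.sum_congr rfl fun i _ => ?_
            rw [Pi.smul_apply, smul_eq_mul, C_mul, mul_assoc]
          rw [RingHom.id_apply, h1, map_mul]
          exact (Algebra.smul_def r (Ideal.Quotient.mk (Ideal.span {q})
            (∑ i, C (c i) * (P i).map (evalRingHom 0)))).symm }
    have hfin : Module.finrank k (k[X] ⧸ Ideal.span {q}) = q.natDegree :=
      finrank_quotient_span_eq_natDegree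
    have : FiniteDimensional k (k[X] ⧸ Ideal.span {q}) :=
      (AdjoinRoot.powerBasis hq0).finite
    have hr : Module.finrank k L.range ≤ q.natDegree := by
      rw [← hfin]
      exact Submodule.finrank_le _
    have hsum := L.finrank_range_add_finrank_ker
    rw [Module.finrank_fin_fun] at hsum
    have hker : q.natDegree * a < Module.finrank k L.ker := by
      have h1 : q.natDegree * (a + 1) = q.natDegree * a + q.natDegree := by ring
      omega
    obtain ⟨b⟩ : Nonempty (Module.Basis (Fin (Module.finrank k L.ker)) k L.ker) :=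
      ⟨Module.finBasis k L.ker⟩
    -- the polynomials `P''`
    have hP : ∀ l : Fin (Module.finrank k L.ker), ∃ u : k[X], ∃ P'' : k[X][Y],
        Y ^ o * ∑ i, C (C ((b l : Fin m → k) i)) * P i = f * u.map C + C X * P'' := by
      intro l
      have h1 : L (b l : Fin m → k) = 0 := (b l).2
      have h2 : Ideal.Quotient.mk (Ideal.span {q})
          (∑ i, C ((b l : Fin m → k) i) * (P i).map (evalRingHom 0)) = 0 := h1
      rw [Ideal.Quotient.eq_zero_iff_mem, Ideal.mem_span_singleton] at h2
      obtain ⟨u, hu⟩ := h2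
      have h3 : (Y ^ o * ∑ i, C (C ((b l : Fin m → k) i)) * P i - f * u.map C).map
          (evalRingHom 0) = 0 := by
        rw [Polynomial.map_sub, Polynomial.map_mul, Polynomial.map_mul, Polynomial.map_pow, map_X,
          hq, B1_map_C, Polynomial.map_sum]
        have h4 : ∀ i, (C (C ((b l : Fin m → k) i)) * P i).map (evalRingHom 0) =
            C ((b l : Fin m → k) i) * (P i).map (evalRingHom 0) := by
          intro i
          rw [Polynomial.map_mul, map_C, coe_evalRingHom, eval_C]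
        rw [Finset.sum_congr rfl fun i _ => h4 i, hu]
        ring
      obtain ⟨g, hg⟩ := B1_dvd _ h3
      exact ⟨u, g, by rw [← hg]; ring⟩
    choose u P'' hP using hP
    obtain ⟨c', hc', W', V', hWV⟩ := ih _ hker P''
    refine ⟨((∑ l, c' l • b l : L.ker) : Fin m → k), ?_,
      Y ^ (a * o) * ∑ l, C (C (c' l)) * (u l).map C + C X * W', V', ?_⟩
    · intro h
      have h1 : (∑ l, c' l • b l : L.ker) = 0 := Subtype.ext h
      exact hc' (funext fun l => Fintype.linearIndependent_iff.1 b.linearIndependent c' h1 l)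
    · have h1 : ∑ i, C (C (((∑ l, c' l • b l : L.ker) : Fin m → k) i)) * P i =
          ∑ l, C (C (c' l)) * ∑ i, C (C ((b l : Fin m → k) i)) * P i := by
        have h2 : ∀ i, C (C (((∑ l, c' l • b l : L.ker) : Fin m → k) i)) * P i =
            ∑ l, C (C (c' l)) * (C (C ((b l : Fin m → k) i)) * P i) := by
          intro i
          rw [Submodule.coe_sum, Finset.sum_apply, map_sum, map_sum, Finset.sum_mul]
          refine Finset.sum_congr rfl fun l _ => ?_
          rw [Submodule.coe_smul, Pi.smul_apply, smul_eq_mul, C_mul, C_mul, mul_assoc]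
        rw [Finset.sum_congr rfl fun i _ => h2 i, Finset.sum_comm]
        refine Finset.sum_congr rfl fun l _ => ?_
        rw [Finset.mul_sum]
      rw [h1]
      have h3 : Y ^ ((a + 1) * o) * ∑ l, C (C (c' l)) * ∑ i, C (C ((b l : Fin m → k) i)) * P i =
          Y ^ (a * o) * ∑ l, C (C (c' l)) * (f * (u l).map C + C X * P'' l) := by
        have h4 : ∀ l, C (C (c' l)) * (f * (u l).map C + C X * P'' l) =
            Y ^ o * (C (C (c' l)) * ∑ i, C (C ((b l : Fin m → k) i)) * P i) := by
          intro l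
          rw [← hP l]
          ring
        rw [Finset.sum_congr rfl fun l _ => h4 l, ← Finset.mul_sum, ← mul_assoc, ← pow_add]
        congr 2
        ring
      rw [h3]
      have h5 : ∑ l, C (C (c' l)) * (f * (u l).map C + C X * P'' l) =
          f * ∑ l, C (C (c' l)) * (u l).map C + C X * ∑ l, C (C (c' l)) * P'' l := by
        rw [Finset.mul_sum, Finset.mul_sum, ← Finset.sum_add_distrib]
        refine Finset.sum_congr rfl fun l _ => ?_
        ring
      rw [h5, mul_add]
      have h6 : Y ^ (a * o) * (C X * ∑ l, C (C (c' l)) * P'' l) = C X * (f * W' + C X ^ a * V') := by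
        rw [← hWV]
        ring
      rw [h6]
      ring

theorem B1_den {R S : Type*} [CommRing R] [CommRing S] (φ : R →+* S)
    (h : ∀ s, ∃ N : ℤ, N ≠ 0 ∧ ∃ r, φ r = N • s) (p : S[X]) :
    ∃ N : ℤ, N ≠ 0 ∧ ∃ r : R[X], r.map φ = N • p := by
  induction p using Polynomial.induction_on' with
  | add p q hp hq =>
    obtain ⟨N, hN, r, hr⟩ := hp
    obtain ⟨M, hM, t, ht⟩ := hq
    refine ⟨N * M, mul_ne_zero hN hM, M • r + N • t, ?_⟩
    rw [Polynomial.map_add]
    have h1 : (M • r).map φ = M • (r.map φ) := map_zsmul (mapRingHom φ) M r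
    have h2 : (N • t).map φ = N • (t.map φ) := map_zsmul (mapRingHom φ) N t
    rw [h1, h2, hr, ht, smul_smul, smul_smul, smul_add, mul_comm M N]
  | monomial n a =>
    obtain ⟨N, hN, r, hr⟩ := h a
    refine ⟨N, hN, monomial n r, ?_⟩
    rw [map_monomial, hr, smul_monomial]

theorem B1_den_rat (s : ℚ) : ∃ N : ℤ, N ≠ 0 ∧ ∃ r : ℤ, (Int.castRingHom ℚ) r = N • s := by
  refine ⟨s.den, by exact_mod_cast s.den_nz, s.num, ?_⟩
  rw [zsmul_eq_mul, eq_intCast]
  push_cast
  rw [mul_comm]
  exact (Rat.mul_den_eq_num s).symm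

theorem B1_den2 (p : ℚ[X][Y]) : ∃ N : ℤ, N ≠ 0 ∧ ∃ r : ℤ[X][Y],
    r.map (mapRingHom (Int.castRingHom ℚ)) = N • p :=
  B1_den (mapRingHom (Int.castRingHom ℚ)) (fun s => by
    obtain ⟨N, hN, r, hr⟩ := B1_den (Int.castRingHom ℚ) B1_den_rat s
    exact ⟨N, hN, r, hr⟩) p

theorem B1_den_fun {m : ℕ} (c : Fin m → ℚ) : ∃ N : ℤ, N ≠ 0 ∧ ∃ c' : Fin m → ℤ,
    ∀ i, (c' i : ℚ) = N * c i := by
  have h : ∀ i, ∃ e : ℤ, ((∏ j, ((c j).den : ℤ) : ℤ) : ℚ) * c i = e := by
    intro i
    obtain ⟨d, hd⟩ : ((c i).den : ℤ) ∣ ∏ j, ((c j).den : ℤ) :=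
      Finset.dvd_prod_of_mem _ (Finset.mem_univ i)
    refine ⟨d * (c i).num, ?_⟩
    rw [hd]
    push_cast
    have h1 := Rat.mul_den_eq_num (c i)
    rw [← h1]
    ring
  choose c' hc' using h
  exact ⟨∏ j, ((c j).den : ℤ), Finset.prod_ne_zero_iff.2 fun i _ => by exact_mod_cast (c i).den_nz,
    c', fun i => (hc' i).symm⟩

/-- Row B1, second part (EASY). Over `ℤ`: apply `la_field` over `ℚ` to the mapped polynomials, multiply
by a common denominator of the `c i` and then of all the coefficients of `W` and `V`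
(`IsLocalization` or `Polynomial` induction; the map `ℤ[X][Y] → ℚ[X][Y]` is injective). -/
theorem la_int (f : ℤ[X][Y]) (o : ℕ) (q : ℤ[X]) (hq : at0 f = X ^ o * q) (hq0 : q ≠ 0) (a : ℕ)
    (m : ℕ) (hm : q.natDegree * a < m) (P : Fin m → ℤ[X][Y]) :
    ∃ c : Fin m → ℤ, c ≠ 0 ∧ ∃ (k : ℤ) (T : ℕ) (W V : ℤ[X][Y]), k ≠ 0 ∧
      C (C k) * Y ^ T * ∑ i, C (C (c i)) * P i = f * W + C X ^ a * V := by
  obtain ⟨φ, hφ⟩ : ∃ φ : ℤ[X] →+* ℚ[X], φ = mapRingHom (Int.castRingHom ℚ) := ⟨_, rfl⟩
  have hinj0 : Function.Injective (Int.castRingHom ℚ) := RingHom.injective_int _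
  have hφinj : Function.Injective φ := by
    rw [hφ]
    exact Polynomial.map_injective _ hinj0
  have hφC : ∀ z : ℤ, φ (C z) = C (z : ℚ) := by
    intro z
    rw [hφ, coe_mapRingHom, map_C, eq_intCast]
  have hφX : φ X = X := by
    rw [hφ, coe_mapRingHom, map_X]
  have hqQ : (f.map φ).map (evalRingHom 0) = X ^ o * q.map (Int.castRingHom ℚ) := by
    have h1 : (evalRingHom (0 : ℚ)).comp φ = (Int.castRingHom ℚ).comp (evalRingHom (0 : ℤ)) := by
      rw [hφ]
      exact Polynomial.ringHom_ext (fun z => by simp) (by simp)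
    rw [Polynomial.map_map, h1, ← Polynomial.map_map]
    have h2 : f.map (evalRingHom 0) = X ^ o * q := hq
    rw [h2, Polynomial.map_mul, Polynomial.map_pow, map_X]
  have hdeg : (q.map (Int.castRingHom ℚ)).natDegree = q.natDegree :=
    natDegree_map_eq_of_injective hinj0 q
  have hq0' : q.map (Int.castRingHom ℚ) ≠ 0 := by
    rw [Ne, Polynomial.map_eq_zero_iff hinj0]
    exact hq0
  obtain ⟨c, hc, W, V, hWV⟩ := la_field (f.map φ) o _ hqQ hq0' a m (by rw [hdeg]; exact hm)
    (fun i => (P i).map φ)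
  obtain ⟨N, hN, c', hc'⟩ := B1_den_fun c
  obtain ⟨N1, hN1, W1, hW1⟩ := B1_den2 W
  obtain ⟨N2, hN2, V1, hV1⟩ := B1_den2 V
  rw [← hφ] at hW1 hV1
  refine ⟨c', ?_, N1 * N2, a * o, C (C (N * N2)) * W1, C (C (N * N1)) * V1, mul_ne_zero hN1 hN2, ?_⟩
  · intro h
    refine hc (funext fun i => ?_)
    have h1 := hc' i
    rw [h, Pi.zero_apply, Int.cast_zero] at h1
    rcases mul_eq_zero.1 h1.symm with h2 | h2
    · exact absurd (by exact_mod_cast h2) hN
    · exact h2
  · refine Polynomial.map_injective φ hφinj ?_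
    have e1 : ∀ z : ℤ, (C (C z) : ℤ[X][Y]).map φ = C (C (z : ℚ)) := by
      intro z
      rw [map_C, hφC]
    have e2 : ∀ (z : ℤ) (p : ℚ[X][Y]), z • p = C (C (z : ℚ)) * p := by
      intro z p
      rw [zsmul_eq_mul]
      congr 1
    have e4 : (C X : ℤ[X][Y]).map φ = C X := by rw [map_C, hφX]
    rw [Polynomial.map_mul, Polynomial.map_mul, Polynomial.map_add, Polynomial.map_mul,
      Polynomial.map_mul, Polynomial.map_mul, Polynomial.map_mul, Polynomial.map_pow,
      Polynomial.map_pow, map_X, e4, Polynomial.map_sum, hW1, hV1, e1, e1, e1, e2, e2]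
    have e3 : ∀ i, (C (C (c' i)) * P i).map φ = C (C (N : ℚ)) * (C (C (c i)) * (P i).map φ) := by
      intro i
      rw [Polynomial.map_mul, e1, hc' i, C_mul, C_mul, mul_assoc]
    rw [Finset.sum_congr rfl fun i _ => e3 i, ← Finset.mul_sum]
    push_cast
    rw [C_mul, C_mul, C_mul, C_mul, C_mul, C_mul]
    linear_combination (C (C (N1 : ℚ)) * C (C (N2 : ℚ)) * C (C (N : ℚ))) * hWV

end JP91
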