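import Pool.Agent.LibJP91.B1

open Polynomial
open scoped Polynomial.Bivariate

namespace JP91

/-- Row B2 (ONLY MATHLIB, EASY). Counting monomials: for `v < x` and `D = v + x N` there are more than
`N (D + 1)` pairs `(i, j)` with `i < N`, `x i + v j ≤ x D`: for each `i < N ≤ D` there are
`⌊x (D - i) / v⌋ + 1 > x (D - i) / v` values of `j`, so `v` times the number is at least
`x N D - x N (N - 1) / 2 ≥ v N (D + 1)`, as `(x - v) D ≥ D ≥ v + x N / 2`. -/
theorem count {x v N : ℕ} (hv : 1 ≤ v) (hvx : v < x) (hN : 1 ≤ N) :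
    N * (v + x * N + 1) < (((Finset.range N) ×ˢ (Finset.range (x * (v + x * N) + 1))).filter
      fun p => x * p.1 + v * p.2 ≤ x * (v + x * N)).card := by
  have hsub : (Finset.range N) ×ˢ (Finset.range (v + x * N + 2)) ⊆
      ((Finset.range N) ×ˢ (Finset.range (x * (v + x * N) + 1))).filter
        fun p => x * p.1 + v * p.2 ≤ x * (v + x * N) := by
    rintro ⟨i, j⟩ hp
    rw [Finset.mem_product, Finset.mem_range, Finset.mem_range] at hp
    obtain ⟨hi, hj⟩ := hp
    rw [Finset.mem_filter, Finset.mem_product, Finset.mem_range, Finset.mem_range]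
    obtain ⟨D, hD⟩ : ∃ D, D = v + x * N := ⟨_, rfl⟩
    have hi' : x * i ≤ x * N := Nat.mul_le_mul_left x hi.le
    rw [← hD] at hj ⊢
    have hD1 : 1 ≤ D := by omega
    have h1 : (v + 1) * D ≤ x * D := Nat.mul_le_mul_right D hvx
    have h2 : v * j ≤ v * (D + 1) := Nat.mul_le_mul_left v (by omega)
    have h3 : (v + 1) * D = v * D + D := by ring
    have h4 : v * (D + 1) = v * D + v := by ring
    have h5 : 2 * D ≤ x * D := Nat.mul_le_mul_right D (by omega)
    refine ⟨⟨hi, ?_⟩, ?_⟩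
    · show j < x * D + 1
      omega
    · show x * i + v * j ≤ x * D
      omega
  have h1 := Finset.card_le_card hsub
  rw [Finset.card_product, Finset.card_range, Finset.card_range] at h1
  refine lt_of_lt_of_le ?_ h1
  exact Nat.mul_lt_mul_of_pos_left (by omega) hN

theorem B2_mono (c : ℤ) (a b : ℕ) :
    (C (C c) * (C X ^ a * Y ^ b) : ℤ[X][Y]) = monomial b (monomial a c) := by
  rw [← mul_assoc, ← C_pow, ← C_mul, C_mul_X_pow_eq_monomial, C_mul_X_pow_eq_monomial]

/-- Row B2, second part (EASY given B1). The auxiliary polynomial. Put `at0 f = X ^ o * q` with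
`q ≠ 0`, `o + q.natDegree = N` (`f` monic of degree `N`, so `at0 f` too; e.g. `o = 0`, `q = at0 f` is
already enough). `la_int` with `a = D + 1`, `D = v + x N`, and the family of the monomials
`C X ^ i * Y ^ j` of `count` (`deg q * (D + 1) ≤ N (D + 1) <` their number `m`; index them by `Fin m`).
The coefficient vector is nonzero and the monomials are distinct, so `P ≠ 0`. -/
theorem aux {f : ℤ[X][Y]} (hf : f.Monic) (hN : 1 ≤ f.natDegree) {x v : ℕ} (hv : 1 ≤ v)
    (hvx : v < x) : ∃ (D : ℕ) (P : ℤ[X][Y]), P ≠ 0 ∧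
      (∀ i j : ℕ, (P.coeff j).coeff i ≠ 0 → i < f.natDegree ∧ x * i + v * j ≤ x * D) ∧
      ∃ (k : ℤ) (T : ℕ) (W V : ℤ[X][Y]), k ≠ 0 ∧
        C (C k) * Y ^ T * P = f * W + C X ^ (D + 1) * V := by
  obtain ⟨D, hD⟩ : ∃ D, D = v + x * f.natDegree := ⟨_, rfl⟩
  have hcount := count hv hvx hN
  rw [← hD] at hcount
  obtain ⟨S, hS⟩ : ∃ S : Finset (ℕ × ℕ),
    S = ((Finset.range f.natDegree) ×ˢ (Finset.range (x * D + 1))).filter
      fun p => x * p.1 + v * p.2 ≤ x * D := ⟨_, rfl⟩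
  rw [← hS] at hcount
  have hq0 : at0 f ≠ 0 := (hf.map (evalRingHom (0 : ℤ))).ne_zero
  have hdeg : (at0 f).natDegree = f.natDegree := hf.natDegree_map (evalRingHom (0 : ℤ))
  let e : Fin S.card ≃ S := S.equivFin.symm
  obtain ⟨c, hc, k, T, W, V, hk, h⟩ := la_int f 0 (at0 f) (by rw [pow_zero, one_mul]) hq0 (D + 1)
    S.card (by rw [hdeg]; exact hcount)
    (fun l => C X ^ ((e l : ℕ × ℕ).1) * Y ^ ((e l : ℕ × ℕ).2))
  have hcoeff : ∀ i j : ℕ, ((∑ l, C (C (c l)) * (C X ^ ((e l : ℕ × ℕ).1) *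
      Y ^ ((e l : ℕ × ℕ).2)) : ℤ[X][Y]).coeff j).coeff i =
      ∑ l, if (e l : ℕ × ℕ) = (i, j) then c l else 0 := by
    intro i j
    rw [finsetSum_coeff, finsetSum_coeff]
    refine Finset.sum_congr rfl fun l _ => ?_
    rw [B2_mono, coeff_monomial]
    by_cases h1 : (e l : ℕ × ℕ) = (i, j)
    · rw [if_pos h1, h1, if_pos rfl, coeff_monomial, if_pos rfl]
    · rw [if_neg h1]
      by_cases h2 : (e l : ℕ × ℕ).2 = j
      · rw [if_pos h2, coeff_monomial, if_neg fun h3 => h1 (Prod.ext h3 h2)]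
      · rw [if_neg h2, coeff_zero]
  refine ⟨D, ∑ l, C (C (c l)) * (C X ^ ((e l : ℕ × ℕ).1) * Y ^ ((e l : ℕ × ℕ).2)), ?_, ?_,
    k, T, W, V, hk, h⟩
  · intro h0
    refine hc (funext fun l => ?_)
    have h1 := hcoeff (e l : ℕ × ℕ).1 (e l : ℕ × ℕ).2
    rw [h0, coeff_zero, coeff_zero, Finset.sum_eq_single l] at h1
    · rw [if_pos rfl] at h1
      exact h1.symm
    · intro l' _ hl'
      rw [if_neg]
      intro h2
      exact hl' (e.injective (Subtype.ext h2))
    · intro h2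
      exact absurd (Finset.mem_univ l) h2
  · intro i j hij
    rw [hcoeff] at hij
    obtain ⟨l, -, hl⟩ := Finset.exists_ne_zero_of_sum_ne_zero hij
    have h1 : (e l : ℕ × ℕ) = (i, j) := by
      by_contra h2
      exact hl (if_neg h2)
    have h2 : (e l : ℕ × ℕ) ∈ S := (e l).2
    rw [h1, hS, Finset.mem_filter, Finset.mem_product, Finset.mem_range] at h2
    exact ⟨h2.1.1, h2.2⟩

end JP91
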