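import Pool.Agent.LibJP91.Defs

open Polynomial
open scoped Polynomial.Bivariate

namespace JP91

private theorem B3_key {x v D i j : ℕ} (hx : 1 ≤ x) (h : x * i + v * j ≤ x * D) {r s : ℤ}
    (hr : 1 ≤ r) (hs : 1 ≤ s) (hsr : s ^ x ≤ r ^ v) : r ^ i * s ^ j ≤ r ^ D := by
  have hr0 : 0 ≤ r := by omega
  have hs0 : 0 ≤ s := by omega
  have h1 : (r ^ i * s ^ j) ^ x ≤ (r ^ D) ^ x := by
    calc (r ^ i * s ^ j) ^ x = r ^ (x * i) * (s ^ x) ^ j := by
          rw [mul_pow, ← pow_mul, ← pow_mul, ← pow_mul, mul_comm i x, mul_comm j x]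
      _ ≤ r ^ (x * i) * (r ^ v) ^ j := by
          gcongr
      _ = r ^ (x * i + v * j) := by rw [pow_add, ← pow_mul]
      _ ≤ r ^ (x * D) := pow_le_pow_right₀ hr h
      _ = (r ^ D) ^ x := by rw [← pow_mul, mul_comm]
  exact (pow_le_pow_iff_left₀ (by positivity) (by positivity) (by omega)).1 h1

/-- Row B3 (EASY). Size: `evalEval` is the sum of `((P.coeff j).coeff i) r ^ i s ^ j`, and
`(r ^ i s ^ j) ^ x = r ^ (x i) (s ^ x) ^ j ≤ r ^ (x i + v j) ≤ (r ^ D) ^ x`; `K` is the sum of the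
absolute values of the coefficients. -/
theorem size (P : ℤ[X][Y]) {x v D : ℕ} (hx : 1 ≤ x)
    (hP : ∀ i j : ℕ, (P.coeff j).coeff i ≠ 0 → x * i + v * j ≤ x * D) :
    ∃ K : ℤ, ∀ r s : ℤ, 1 ≤ r → 1 ≤ s → s ^ x ≤ r ^ v → |P.evalEval r s| ≤ K * r ^ D := by
  refine ⟨∑ j ∈ P.support, ∑ i ∈ (P.coeff j).support, |(P.coeff j).coeff i|, ?_⟩
  intro r s hr hs hsr
  have hev : P.evalEval r s =
      ∑ j ∈ P.support, ∑ i ∈ (P.coeff j).support, (P.coeff j).coeff i * (r ^ i * s ^ j) := by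
    have h1 : eval (C s) P = ∑ j ∈ P.support, P.coeff j * C s ^ j := by
      rw [eval_eq_sum, Polynomial.sum_def]
    unfold Polynomial.evalEval
    rw [h1, eval_finset_sum]
    refine Finset.sum_congr rfl fun j _ => ?_
    rw [eval_mul, eval_pow, eval_C, eval_eq_sum, Polynomial.sum_def, Finset.sum_mul]
    refine Finset.sum_congr rfl fun i _ => ?_
    ring
  rw [hev, Finset.sum_mul]
  refine (Finset.abs_sum_le_sum_abs _ _).trans (Finset.sum_le_sum fun j _ => ?_)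
  rw [Finset.sum_mul]
  refine (Finset.abs_sum_le_sum_abs _ _).trans (Finset.sum_le_sum fun i hi => ?_)
  have h1 := B3_key hx (hP i j (mem_support_iff.1 hi)) hr hs hsr
  have h0 : 0 ≤ r ^ i * s ^ j := by positivity
  rw [abs_mul, abs_of_nonneg h0]
  exact mul_le_mul_of_nonneg_left h1 (abs_nonneg _)

end JP91
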