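import Pool.Agent.LibJP91.A0
import Pool.Agent.LibJP91.B0
import Pool.Agent.LibJP91.B2
import Pool.Agent.LibJP91.B3

open Polynomial
open scoped Polynomial.Bivariate

namespace JP91

private theorem B4_swap_ne {P : ℤ[X][Y]} (hP0 : P ≠ 0) : Bivariate.swap P ≠ 0 := by
  intro h
  apply hP0
  have h1 : Bivariate.swap (Bivariate.swap P) = Bivariate.swap 0 := by rw [h]
  rw [map_zero] at h1
  simpa using h1

private theorem B4_deg {P : ℤ[X][Y]} (hP0 : P ≠ 0) {N : ℕ}
    (hP : ∀ i j : ℕ, (P.coeff j).coeff i ≠ 0 → i < N) : (Bivariate.swap P).natDegree < N := by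
  by_contra h
  have h1 : (Bivariate.swap P).leadingCoeff ≠ 0 := leadingCoeff_ne_zero.2 (B4_swap_ne hP0)
  apply h1
  ext j
  rw [coeff_zero]
  by_contra h2
  rw [leadingCoeff, coeff_coeff_swap] at h2
  exact h (hP _ _ h2)

private theorem B4_ndvd {f P : ℤ[X][Y]} (hP0 : P ≠ 0)
    (hP : ∀ i j : ℕ, (P.coeff j).coeff i ≠ 0 → i < (Bivariate.swap f).natDegree) : ¬ f ∣ P := by
  rintro ⟨Q, rfl⟩
  have h1 := B4_deg hP0 hP
  have hsw := B4_swap_ne hP0
  rw [map_mul] at h1 hsw
  rw [natDegree_mul (left_ne_zero_of_mul hsw) (right_ne_zero_of_mul hsw)] at h1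
  omega

private theorem B4_fin {f P : ℤ[X][Y]} (hf : f.Monic) (hi : Irreducible f) (hP : ¬ f ∣ P) :
    ∃ R : ℤ, ∀ r s : ℤ, f.evalEval r s = 0 → P.evalEval r s = 0 → r ≤ R := by
  have hfin : {p : ℤ × ℤ | f.evalEval p.1 p.2 = 0 ∧ P.evalEval p.1 p.2 = 0}.Finite := by
    by_contra hinf
    obtain ⟨S, hS, hc⟩ := Set.Infinite.exists_subset_card_eq hinf
      (f.natDegree * ((f.natDegree + P.natDegree) *
        ((Bivariate.swap f).natDegree + (Bivariate.swap P).natDegree)) + 1)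
    have h1 := bezout f P (Bivariate.swap f).natDegree P.natDegree
      (Bivariate.swap P).natDegree hf hi hP (fun j => natDegree_coeff_le f j) le_rfl
      (fun j => natDegree_coeff_le P j) S (fun p hp => hS hp)
    omega
  obtain ⟨R, hR⟩ := (hfin.image Prod.fst).bddAbove
  exact ⟨R, fun r s h1 h2 => hR ⟨(r, s), ⟨h1, h2⟩, rfl⟩⟩

/-- Row B4 (EASY-MEDIUM). Let `D`, `P`, `k`, `T`, `W`, `V` be as in `aux` and `K` as in `size`. At a point
with `f = 0`: `k s ^ T P(r, s) = r ^ (D + 1) V(r, s)`, so `r ^ (D + 1) ∣ k P(r, s)` as `r`, `s` are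
coprime, while `|k P(r, s)| ≤ |k| K r ^ D < r ^ (D + 1)` if `r > |k| K`; so then `P(r, s) = 0`. And
`¬ f ∣ P`: the degree in `r` of `P` is `< N` (`coeff_coeff_swap`), that of `f` is `N` (`hsw`), and `P ≠ 0`.
By `bezout` there are only finitely many common zeros, so their first coordinates are bounded. -/
theorem fin_factor {f : ℤ[X][Y]} (hf : f.Monic) (hi : Irreducible f)
    (hsw : (Bivariate.swap f).natDegree = f.natDegree) {x v : ℕ} (hv : 1 ≤ v) (hvx : v < x) :
    ∃ R : ℤ, ∀ r s : ℤ, 1 ≤ s → s < r → IsCoprime r s → s ^ x ≤ r ^ v → f.evalEval r s = 0 →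
      r ≤ R := by
  have hN : 1 ≤ f.natDegree := by
    rcases Nat.eq_zero_or_pos f.natDegree with h0 | h0
    · have h1 : f = 1 := hf.natDegree_eq_zero.1 h0
      exact absurd isUnit_one (h1 ▸ hi.not_isUnit)
    · exact h0
  obtain ⟨D, P, hP0, hPc, k, T, W, V, hk, hkey⟩ := aux hf hN hv hvx
  obtain ⟨K, hK⟩ := size P (x := x) (v := v) (D := D) (by omega) (fun i j h => (hPc i j h).2)
  have hnd : ¬ f ∣ P := B4_ndvd hP0 (fun i j h => by rw [hsw]; exact (hPc i j h).1)
  obtain ⟨R, hR⟩ := B4_fin hf hi hnd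
  refine ⟨max R (|k| * K), ?_⟩
  intro r s hs hsr hcop hle hfz
  rcases le_or_gt r (|k| * K) with h1 | h1
  · exact h1.trans (le_max_right _ _)
  refine (hR r s hfz ?_).trans (le_max_left _ _)
  have h2 := congrArg (fun p => Polynomial.evalEval r s p) hkey
  simp only [evalEval_mul, evalEval_add, evalEval_pow, evalEval_C, evalEval_X, eval_C, eval_X, hfz,
    zero_mul, zero_add] at h2
  have h3 : r ^ (D + 1) ∣ k * P.evalEval r s := by
    have hc : IsCoprime (r ^ (D + 1)) (s ^ T) := hcop.pow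
    refine hc.dvd_of_dvd_mul_left ?_
    refine ⟨V.evalEval r s, ?_⟩
    rw [← h2]; ring
  have hr0 : 0 < r := by omega
  have h4 : |k * P.evalEval r s| < r ^ (D + 1) := by
    have h5 := hK r s (by omega) hs hle
    calc |k * P.evalEval r s| = |k| * |P.evalEval r s| := abs_mul _ _
      _ ≤ |k| * (K * r ^ D) := mul_le_mul_of_nonneg_left h5 (abs_nonneg _)
      _ = (|k| * K) * r ^ D := by ring
      _ < r * r ^ D := mul_lt_mul_of_pos_right h1 (by positivity)
      _ = r ^ (D + 1) := by ring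
  have h6 := Int.eq_zero_of_abs_lt_dvd h3 h4
  exact (mul_eq_zero.1 h6).resolve_left hk

end JP91
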