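import Pool.Agent.LibJP91.A2
import Pool.Agent.LibJP91.A3
import Pool.Agent.LibJP91.B4

open Polynomial
open scoped Polynomial.Bivariate

namespace JP91

/-- Row B5 (EASY). The value of `FF`. -/
theorem FF_eval (x y z : ℕ) (H G r s : ℤ) : (FF x y z H G).evalEval r s =
    (r ^ 2 + s ^ 2) ^ z - H * (r * s) ^ x - G * (r ^ 2 - s ^ 2) ^ y := by
  unfold FF cC cA cB
  simp only [evalEval_sub, evalEval_mul, evalEval_pow, evalEval_add, evalEval_C, evalEval_X,
    eval_X, eval_C]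

/-- Row B5, second part (EASY). `H (r s) ^ x < (r² + s²) ^ z ≤ (2 r²) ^ z ≤ H r ^ (2 z)`, so
`s ^ x ≤ r ^ (2 z - x)`. -/
theorem small_s {x y z : ℕ} {H G : ℤ} (h : Dat x y z H G) {r s : ℤ} (hp : Pt x y z H G r s) :
    s ^ x ≤ r ^ (2 * z - x) := by
  have h0 := hp.zero
  rw [FF_eval] at h0
  have hs := hp.hs
  have hr := hp.hr
  have hr0 : 0 < r := by linarith
  have hs0 : 0 < s := by linarith
  have hH0 : 0 < H := by linarith [h.hH1]
  have h1 : 0 < G * (r ^ 2 - s ^ 2) ^ y := by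
    have h2 : 0 < r ^ 2 - s ^ 2 := by nlinarith
    have h3 : 0 < G := by linarith [h.hG1]
    positivity
  have h2 : H * (r * s) ^ x < (r ^ 2 + s ^ 2) ^ z := by linarith
  have h3 : (r ^ 2 + s ^ 2) ^ z ≤ (2 * r ^ 2) ^ z := by
    apply pow_le_pow_left₀ (by positivity)
    nlinarith
  have h4 : (2 * r ^ 2) ^ z = 2 ^ z * (r ^ x * r ^ (2 * z - x)) := by
    rw [mul_pow, ← pow_mul, ← pow_add]
    congr 2
    have := h.hx2
    omega
  have h5 : (2 : ℤ) ^ z * (r ^ x * r ^ (2 * z - x)) ≤ H * (r ^ x * r ^ (2 * z - x)) :=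
    mul_le_mul_of_nonneg_right h.hH3 (by positivity)
  have h6 : H * r ^ x * s ^ x < H * r ^ x * r ^ (2 * z - x) := by
    have e : H * (r * s) ^ x = H * r ^ x * s ^ x := by
      rw [mul_pow]
      ring
    rw [e] at h2
    rw [h4] at h3
    have e2 : H * (r ^ x * r ^ (2 * z - x)) = H * r ^ x * r ^ (2 * z - x) := by ring
    linarith
  exact (lt_of_mul_lt_mul_left h6 (by positivity)).le

/-- Row B5, third part (EASY): `fin_factor` with `v = 2 z - x < x` (as `z < x`) for each of the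
finitely many factors of `exists_factors` (`deg_eq` gives `hsw`); take the maximum of the bounds. -/
theorem fin_exp {x y z : ℕ} {H G : ℤ} (h : Dat x y z H G) :
    ∃ R : ℤ, ∀ r s : ℤ, Pt x y z H G r s → r ≤ R := by
  obtain ⟨T, -, hT, hz⟩ := exists_factors h
  have h1 : 1 ≤ 2 * z - x := by
    have := h.hx2
    omega
  have h2 : 2 * z - x < x := by
    have := h.hx
    omega
  have h3 : ∀ f ∈ T, ∃ R : ℤ, ∀ r s : ℤ, 1 ≤ s → s < r → IsCoprime r s → s ^ x ≤ r ^ (2 * z - x) →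
      f.evalEval r s = 0 → r ≤ R := fun f hf =>
    fin_factor (hT f hf).1 (hT f hf).2.1 (deg_eq h (hT f hf).1 (hT f hf).2.2) h1 h2
  choose! R hR using h3
  obtain ⟨M, hM⟩ := (T.image R).exists_le
  refine ⟨M, fun r s hp => ?_⟩
  obtain ⟨f, hf, hfz⟩ := hz r s hp.zero
  exact (hR f hf r s hp.hs hp.hr hp.cop (small_s h hp) hfz).trans
    (hM _ (Finset.mem_image_of_mem R hf))

end JP91
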