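import Pool.Agent.LibJP91.Defs

open Polynomial
open scoped Polynomial.Bivariate

namespace JP91

private theorem D1_evalEval (f : ℤ[X][Y]) (r s : ℤ) :
    f.evalEval r s = (f.map (evalRingHom r)).eval s :=
  (map_evalRingHom_eval r s f).symm

private theorem D1_eval (f : ℤ[X][Y]) (φ : ℤ[X]) (r : ℤ) :
    (f.eval φ).eval r = f.evalEval r (φ.eval r) := by
  rw [D1_evalEval, eval_map]
  exact (eval₂_at_apply (evalRingHom r) φ).symm

private theorem D1_congr (g : ℤ[X][Y]) {p r s ρ σ : ℤ} (hr : p ∣ r - ρ) (hs : p ∣ s - σ) :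
    p ∣ g.evalEval r s - g.evalEval ρ σ := by
  have h1 : p ∣ g.evalEval r s - g.evalEval r σ := by
    rw [D1_evalEval, D1_evalEval]
    exact hs.trans (sub_dvd_eval_sub s σ _)
  have h2 : p ∣ g.evalEval r σ - g.evalEval ρ σ :=
    hr.trans (sub_dvd_eval_sub r ρ (g.eval (C σ)))
  have h3 := dvd_add h1 h2
  rwa [sub_add_sub_cancel] at h3

private theorem D1_step (f : ℤ[X][Y]) {p : ℕ} {ρ σ u : ℤ}
    (hu : (p : ℤ) ∣ 1 - u * (derivative f).evalEval ρ σ) (k : ℕ) (φ : ℤ[X]) (r s : ℤ)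
    (hr : (p : ℤ) ∣ r - ρ) (hs : (p : ℤ) ∣ s - σ) (h0 : f.evalEval r s = 0)
    (hφ : (p : ℤ) ^ (k + 1) ∣ s - φ.eval r) :
    (p : ℤ) ^ (k + 2) ∣ s - (φ - C u * f.eval φ).eval r := by
  obtain ⟨δ, hδ⟩ : ∃ δ : ℤ, δ = s - φ.eval r := ⟨_, rfl⟩
  obtain ⟨K, hK⟩ := (f.map (evalRingHom r)).binomExpansion s (-δ)
  have h1 : s + -δ = φ.eval r := by
    rw [hδ]
    ring
  rw [h1, ← D1_evalEval, ← D1_evalEval, h0, derivative_map, ← D1_evalEval] at hK
  rw [eval_sub, eval_mul, eval_C, D1_eval, hK]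
  have h2 := D1_congr (derivative f) hr hs
  have h3 : (p : ℤ) ∣ 1 - u * (derivative f).evalEval r s := by
    have h4 := dvd_sub hu (Dvd.dvd.mul_left h2 u)
    have h5 : 1 - u * (derivative f).evalEval ρ σ -
        u * ((derivative f).evalEval r s - (derivative f).evalEval ρ σ) =
        1 - u * (derivative f).evalEval r s := by ring
    rwa [h5] at h4
  rw [← hδ] at hφ
  have h6 : s - (eval r φ - u * (0 + (derivative f).evalEval r s * -δ + K * (-δ) ^ 2)) =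
      δ * (1 - u * (derivative f).evalEval r s) + u * K * (δ * δ) := by
    have : s = δ + eval r φ := by
      rw [hδ]
      ring
    rw [this]
    ring
  rw [h6]
  refine dvd_add ?_ ?_
  · have h7 : (p : ℤ) ^ (k + 2) = (p : ℤ) ^ (k + 1) * p := by ring
    rw [h7]
    exact mul_dvd_mul hφ h3
  · apply Dvd.dvd.mul_left
    have h7 : (p : ℤ) ^ (k + 2) ∣ (p : ℤ) ^ (k + 1) * (p : ℤ) ^ (k + 1) := by
      rw [← pow_add]
      exact pow_dvd_pow _ (by omega)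
    exact h7.trans (mul_dvd_mul hφ hφ)

theorem hensel (f : ℤ[X][Y]) {p : ℕ} (hp : p.Prime) {ρ σ : ℤ}
    (h1 : ¬ (p : ℤ) ∣ (derivative f).evalEval ρ σ) (n : ℕ) :
    ∃ φ : ℤ[X], ∀ r s : ℤ, (p : ℤ) ∣ r - ρ → (p : ℤ) ∣ s - σ → f.evalEval r s = 0 →
      (p : ℤ) ^ n ∣ s - φ.eval r := by
  have hp' : Prime (p : ℤ) := Nat.prime_iff_prime_int.1 hp
  obtain ⟨a, u, hau⟩ : IsCoprime (p : ℤ) ((derivative f).evalEval ρ σ) :=
    (Prime.coprime_iff_not_dvd hp').2 h1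
  have hu : (p : ℤ) ∣ 1 - u * (derivative f).evalEval ρ σ :=
    ⟨a, by rw [← hau]; ring⟩
  have key : ∀ k : ℕ, ∃ φ : ℤ[X], ∀ r s : ℤ, (p : ℤ) ∣ r - ρ → (p : ℤ) ∣ s - σ →
      f.evalEval r s = 0 → (p : ℤ) ^ (k + 1) ∣ s - φ.eval r := by
    intro k
    induction k with
    | zero =>
      refine ⟨C σ, fun r s _ hs _ => ?_⟩
      rw [eval_C, zero_add, pow_one]
      exact hs
    | succ k ih =>
      obtain ⟨φ, hφ⟩ := ih
      exact ⟨φ - C u * f.eval φ, fun r s hr hs h0 =>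
        D1_step f hu k φ r s hr hs h0 (hφ r s hr hs h0)⟩
  rcases n with _ | n
  · exact ⟨0, fun r s _ _ _ => by rw [pow_zero]; exact one_dvd _⟩
  · exact key n

end JP91
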