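import Pool.Agent.LibJP91.D1
import Pool.Agent.LibTL95.DetDvd

open Polynomial
open scoped Polynomial.Bivariate

namespace JP91

theorem det_dvd_class (f : ℤ[X][Y]) {p : ℕ} (hp : p.Prime) {ρ σ : ℤ}
    (h1 : ¬ (p : ℤ) ∣ (derivative f).evalEval ρ σ) (e : ℕ)
    (P : Fin (e + 1) × Fin (e + 1) → ℤ × ℤ)
    (hP : ∀ j, (p : ℤ) ∣ (P j).1 - ρ ∧ (p : ℤ) ∣ (P j).2 - σ ∧ f.evalEval (P j).1 (P j).2 = 0) :
    (p : ℤ) ^ ((e + 1) ^ 2 * ((e + 1) ^ 2 - 1) / 2) ∣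
      (Matrix.of fun i j : Fin (e + 1) × Fin (e + 1) =>
        (P j).1 ^ (i.1 : ℕ) * (P j).2 ^ (i.2 : ℕ)).det := by
  classical
  have hcard : Fintype.card (Fin (e + 1) × Fin (e + 1)) = (e + 1) ^ 2 := by
    rw [Fintype.card_prod, Fintype.card_fin, pow_two]
  obtain ⟨φ, hφ⟩ := hensel f hp h1 ((e + 1) ^ 2)
  choose τ hτ using fun j => (hP j).1
  obtain ⟨g, hg⟩ : ∃ g : Fin (e + 1) × Fin (e + 1) → ℤ[X],
      g = fun i => X ^ (i.1 : ℕ) * φ ^ (i.2 : ℕ) := ⟨_, rfl⟩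
  have hdiff : ∀ i j : Fin (e + 1) × Fin (e + 1), ∃ E : ℤ,
      (P j).1 ^ (i.1 : ℕ) * (P j).2 ^ (i.2 : ℕ) = (g i).eval (P j).1 + (p : ℤ) ^ ((e + 1) ^ 2) * E := by
    intro i j
    have h2 := (hφ (P j).1 (P j).2 (hP j).1 (hP j).2.1 (hP j).2.2).trans
      (sub_dvd_pow_sub_pow (P j).2 (φ.eval (P j).1) (i.2 : ℕ))
    obtain ⟨E, hE⟩ := h2
    refine ⟨(P j).1 ^ (i.1 : ℕ) * E, ?_⟩
    rw [hg]
    simp only [eval_mul, eval_pow, eval_X]
    linear_combination (P j).1 ^ (i.1 : ℕ) * hE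
  choose E hE using hdiff
  have hdeg : ∀ i, (taylor ρ (g i)).natDegree < e + e * φ.natDegree + 1 := by
    intro i
    rw [natDegree_taylor, hg]
    have h3 : (X ^ (i.1 : ℕ) * φ ^ (i.2 : ℕ) : ℤ[X]).natDegree ≤
        (i.1 : ℕ) + (i.2 : ℕ) * φ.natDegree := by
      refine natDegree_mul_le.trans (Nat.add_le_add ?_ natDegree_pow_le)
      exact natDegree_X_pow_le _
    have h4 : (i.2 : ℕ) * φ.natDegree ≤ e * φ.natDegree :=
      Nat.mul_le_mul_right _ (by omega)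
    have h5 : (i.1 : ℕ) ≤ e := by omega
    exact Nat.lt_succ_of_le (h3.trans (Nat.add_le_add h5 h4))
  have heval : ∀ i j, (g i).eval (P j).1 = ∑ t ∈ Finset.range (e + e * φ.natDegree + 1),
      ((taylor ρ (g i)).coeff t * (p : ℤ) ^ t) * τ j ^ t := by
    intro i j
    have h3 : (P j).1 = (p : ℤ) * τ j + ρ := by
      rw [← hτ j]
      ring
    rw [h3, ← taylor_eval, eval_eq_sum_range' (hdeg i)]
    refine Finset.sum_congr rfl fun t _ => ?_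
    rw [mul_pow, mul_assoc]
  have key := TL95.det_dvd (e + e * φ.natDegree + 1) (p : ℤ) (fun _ => 0)
    (fun i t => (taylor ρ (g i)).coeff t * (p : ℤ) ^ t) (fun t j => τ j ^ t) E
    (Matrix.of fun i j : Fin (e + 1) × Fin (e + 1) =>
        (P j).1 ^ (i.1 : ℕ) * (P j).2 ^ (i.2 : ℕ)) (fun i j => by
      rw [Matrix.of_apply, hE i j, heval i j, hcard])
    (fun i t => by
      rw [Nat.sub_zero]
      exact dvd_mul_left _ _)
  rw [hcard] at key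
  simpa using key

end JP91
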