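import Pool.Agent.LibJP91.D2
import Pool.Agent.LibTL95.Comb

open Polynomial
open scoped Polynomial.Bivariate

namespace JP91

private theorem D3_sum (e : ℕ) : ∑ i : Fin (e + 1) × Fin (e + 1), ((i.1 : ℕ) + (i.2 : ℕ)) =
    (e + 1) ^ 2 * e := by
  have h1 : ∑ i : Fin (e + 1), (i : ℕ) = ∑ i ∈ Finset.range (e + 1), i :=
    Fin.sum_univ_eq_sum_range (fun i => i) (e + 1)
  have h2 := Finset.sum_range_id_mul_two (e + 1)
  rw [Nat.add_sub_cancel] at h2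
  rw [Fintype.sum_prod_type]
  simp only [Finset.sum_add_distrib, Finset.sum_const, Finset.card_univ, Fintype.card_fin,
    smul_eq_mul]
  rw [← Finset.mul_sum, h1]
  nlinarith [h2]

theorem det_zero (f : ℤ[X][Y]) {p : ℕ} (hp : p.Prime) {ρ σ : ℤ}
    (h1 : ¬ (p : ℤ) ∣ (derivative f).evalEval ρ σ) (e B : ℕ)
    (hB : ((e + 1) ^ 2).factorial * B ^ ((e + 1) ^ 2 * e) < p ^ ((e + 1) ^ 2 * ((e + 1) ^ 2 - 1) / 2))
    (P : Fin (e + 1) × Fin (e + 1) → ℤ × ℤ)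
    (hP : ∀ j, (p : ℤ) ∣ (P j).1 - ρ ∧ (p : ℤ) ∣ (P j).2 - σ ∧ f.evalEval (P j).1 (P j).2 = 0)
    (hPB : ∀ j, |(P j).1| ≤ B ∧ |(P j).2| ≤ B) :
    (Matrix.of fun i j : Fin (e + 1) × Fin (e + 1) =>
        (P j).1 ^ (i.1 : ℕ) * (P j).2 ^ (i.2 : ℕ)).det = 0 := by
  classical
  obtain ⟨M, hM⟩ : ∃ M : Matrix (Fin (e + 1) × Fin (e + 1)) (Fin (e + 1) × Fin (e + 1)) ℤ,
      M = Matrix.of fun i j : Fin (e + 1) × Fin (e + 1) =>
        (P j).1 ^ (i.1 : ℕ) * (P j).2 ^ (i.2 : ℕ) := ⟨_, rfl⟩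
  have hdvd := det_dvd_class f hp h1 e P hP
  rw [← hM] at hdvd ⊢
  have hcard : Fintype.card (Fin (e + 1) × Fin (e + 1)) = (e + 1) ^ 2 := by
    rw [Fintype.card_prod, Fintype.card_fin, pow_two]
  have hbound := TL95.det_row_bound (M.map (Int.cast : ℤ → ℝ))
    (fun i => (B : ℝ) ^ ((i.1 : ℕ) + (i.2 : ℕ))) (fun i j => by
      rw [Matrix.map_apply, hM, Matrix.of_apply]
      push_cast
      rw [abs_mul, abs_pow, abs_pow, pow_add]
      have h2 : |((P j).1 : ℝ)| ≤ B := by exact_mod_cast (hPB j).1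
      have h3 : |((P j).2 : ℝ)| ≤ B := by exact_mod_cast (hPB j).2
      exact mul_le_mul (pow_le_pow_left₀ (abs_nonneg _) h2 _)
        (pow_le_pow_left₀ (abs_nonneg _) h3 _) (pow_nonneg (abs_nonneg _) _)
        (pow_nonneg (Nat.cast_nonneg _) _))
  rw [Finset.prod_pow_eq_pow_sum, D3_sum, hcard] at hbound
  have hdet : (M.map (Int.cast : ℤ → ℝ)).det = ((M.det : ℤ) : ℝ) := by
    have := RingHom.map_det (Int.castRingHom ℝ) M
    rw [eq_intCast] at this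
    rw [this]
    rfl
  rw [hdet] at hbound
  have hb2 : |M.det| ≤ (((e + 1) ^ 2).factorial : ℤ) * (B : ℤ) ^ ((e + 1) ^ 2 * e) := by
    exact_mod_cast hbound
  have hb3 : |M.det| < (p : ℤ) ^ ((e + 1) ^ 2 * ((e + 1) ^ 2 - 1) / 2) := by
    refine lt_of_le_of_lt hb2 ?_
    exact_mod_cast hB
  exact Int.eq_zero_of_abs_lt_dvd hdvd hb3

end JP91
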