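import Pool.Agent.LibJP91.Defs

open Polynomial
open scoped Polynomial.Bivariate

namespace JP91

private theorem D4_form (e : ℕ) (S : Finset (ℤ × ℤ))
    (h : ∀ P : Fin (e + 1) × Fin (e + 1) → ℤ × ℤ, (∀ j, P j ∈ S) →
      (Matrix.of fun i j : Fin (e + 1) × Fin (e + 1) =>
        (P j).1 ^ (i.1 : ℕ) * (P j).2 ^ (i.2 : ℕ)).det = 0) :
    ∃ c : Fin (e + 1) × Fin (e + 1) → ℚ, (∃ i, c i ≠ 0) ∧
      ∀ p ∈ S, ∑ i : Fin (e + 1) × Fin (e + 1),
        c i * ((p.1 : ℚ) ^ (i.1 : ℕ) * (p.2 : ℚ) ^ (i.2 : ℕ)) = 0 := by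
  classical
  obtain ⟨v, hv⟩ : ∃ v : ℤ × ℤ → (Fin (e + 1) × Fin (e + 1) → ℚ),
      v = fun p i => (p.1 : ℚ) ^ (i.1 : ℕ) * (p.2 : ℚ) ^ (i.2 : ℕ) := ⟨_, rfl⟩
  have hlt : Submodule.span ℚ (v '' (S : Set (ℤ × ℤ))) < ⊤ := by
    rw [lt_top_iff_ne_top]
    intro htop
    obtain ⟨b, hb1, hb2, hb3⟩ := exists_linearIndependent ℚ (v '' (S : Set (ℤ × ℤ)))
    have hsp : ⊤ ≤ Submodule.span ℚ (Set.range (Subtype.val : b → _)) := by
      rw [Subtype.range_coe, hb2, htop]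
    have B1 := Module.Basis.mk hb3 hsp
    let e1 : (Fin (e + 1) × Fin (e + 1)) ≃ b := (Pi.basisFun ℚ (Fin (e + 1) × Fin (e + 1))).indexEquiv B1
    have hmem : ∀ j, ∃ q : ℤ × ℤ, q ∈ S ∧ v q = (e1 j : Fin (e + 1) × Fin (e + 1) → ℚ) := by
      intro j
      obtain ⟨q, hq, hq'⟩ := hb1 (e1 j).2
      exact ⟨q, hq, hq'⟩
    choose P hPS hPv using hmem
    have hli : LinearIndependent ℚ fun j => v (P j) := by
      have h1 : (fun j => v (P j)) = (Subtype.val : b → _) ∘ e1 := by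
        funext j
        exact hPv j
      rw [h1]
      exact hb3.comp e1 e1.injective
    have hunit : IsUnit (Matrix.of fun j i : Fin (e + 1) × Fin (e + 1) => v (P j) i) :=
      Matrix.linearIndependent_rows_iff_isUnit.1 hli
    rw [Matrix.isUnit_iff_isUnit_det] at hunit
    apply hunit.ne_zero
    have h2 := h P hPS
    have h3 := RingHom.map_det (Int.castRingHom ℚ) (Matrix.of fun i j : Fin (e + 1) × Fin (e + 1) =>
        (P j).1 ^ (i.1 : ℕ) * (P j).2 ^ (i.2 : ℕ))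
    rw [h2, map_zero] at h3
    rw [← Matrix.det_transpose, h3]
    congr 1
    ext i j
    rw [hv]
    simp
  obtain ⟨g, hg0, hg⟩ := Submodule.exists_le_ker_of_lt_top _ hlt
  refine ⟨fun i => g (fun j => if i = j then 1 else 0), ?_, ?_⟩
  · by_contra hcon
    push Not at hcon
    apply hg0
    ext x
    rw [LinearMap.comp_apply]
    simp only [LinearMap.coe_single, LinearMap.zero_comp, LinearMap.zero_apply]
    have h1 := hcon x
    rw [← h1]
    congr 1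
    funext j
    rw [Pi.single_apply]
    by_cases hj : j = x
    · rw [if_pos hj, if_pos hj.symm]
    · rw [if_neg hj, if_neg (Ne.symm hj)]
  · intro p hp
    have h1 : g (v p) = 0 := hg (Submodule.subset_span ⟨p, hp, rfl⟩)
    rw [LinearMap.pi_apply_eq_sum_univ g (v p)] at h1
    refine Eq.trans ?_ h1
    refine Finset.sum_congr rfl fun i _ => ?_
    rw [smul_eq_mul, mul_comm, hv]

theorem exists_poly (e : ℕ) (S : Finset (ℤ × ℤ))
    (h : ∀ P : Fin (e + 1) × Fin (e + 1) → ℤ × ℤ, (∀ j, P j ∈ S) →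
      (Matrix.of fun i j : Fin (e + 1) × Fin (e + 1) =>
        (P j).1 ^ (i.1 : ℕ) * (P j).2 ^ (i.2 : ℕ)).det = 0) :
    ∃ Q : ℤ[X][Y], Q ≠ 0 ∧ Q.natDegree ≤ e ∧ (∀ j, (Q.coeff j).natDegree ≤ e) ∧
      ∀ p ∈ S, Q.evalEval p.1 p.2 = 0 := by
  classical
  obtain ⟨c, ⟨i₀, hi₀⟩, hc⟩ := D4_form e S h
  obtain ⟨b, hb⟩ := IsLocalization.exist_integer_multiples_of_finite (nonZeroDivisors ℤ) c
  choose a ha using hb
  have hb0 : ((b : ℤ) : ℚ) ≠ 0 := by
    have := nonZeroDivisors.ne_zero b.2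
    exact_mod_cast this
  have ha' : ∀ i, (a i : ℚ) = ((b : ℤ) : ℚ) * c i := by
    intro i
    have h1 := ha i
    rw [Algebra.smul_def] at h1
    exact h1
  have hcoeff : ∀ l j : ℕ, ((∑ i : Fin (e + 1) × Fin (e + 1),
      C (C (a i) * X ^ (i.1 : ℕ)) * Y ^ (i.2 : ℕ) : ℤ[X][Y]).coeff j).coeff l =
      ∑ i : Fin (e + 1) × Fin (e + 1), if j = (i.2 : ℕ) ∧ l = (i.1 : ℕ) then a i else 0 := by
    intro l j
    rw [finsetSum_coeff, finsetSum_coeff]
    refine Finset.sum_congr rfl fun i _ => ?_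
    rw [coeff_C_mul_X_pow]
    by_cases h1 : j = (i.2 : ℕ)
    · rw [if_pos h1, coeff_C_mul_X_pow]
      by_cases h2 : l = (i.1 : ℕ)
      · rw [if_pos h2, if_pos ⟨h1, h2⟩]
      · rw [if_neg h2, if_neg fun h3 => h2 h3.2]
    · rw [if_neg h1, coeff_zero, if_neg fun h3 => h1 h3.1]
  refine ⟨∑ i : Fin (e + 1) × Fin (e + 1), C (C (a i) * X ^ (i.1 : ℕ)) * Y ^ (i.2 : ℕ),
    ?_, ?_, ?_, ?_⟩
  · intro h0
    have h1 := hcoeff (i₀.1 : ℕ) (i₀.2 : ℕ)
    rw [h0, coeff_zero, coeff_zero, Finset.sum_eq_single i₀] at h1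
    · rw [if_pos ⟨rfl, rfl⟩] at h1
      have h2 := ha' i₀
      rw [← h1, Int.cast_zero] at h2
      exact mul_ne_zero hb0 hi₀ h2.symm
    · intro i _ hi
      rw [if_neg]
      rintro ⟨h2, h3⟩
      exact hi (Prod.ext (Fin.ext h3.symm) (Fin.ext h2.symm))
    · intro h2
      exact absurd (Finset.mem_univ _) h2
  · refine natDegree_sum_le_of_forall_le _ _ fun i _ => ?_
    refine (natDegree_C_mul_X_pow_le _ _).trans ?_
    omega
  · intro j
    rw [natDegree_le_iff_coeff_eq_zero]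
    intro l hl
    rw [hcoeff]
    refine Finset.sum_eq_zero fun i _ => ?_
    rw [if_neg]
    rintro ⟨-, h3⟩
    have := i.1.2
    omega
  · intro p hp
    have h1 := hc p hp
    have h2 : ((∑ i : Fin (e + 1) × Fin (e + 1),
        a i * (p.1 ^ (i.1 : ℕ) * p.2 ^ (i.2 : ℕ)) : ℤ) : ℚ) = 0 := by
      push_cast
      have h3 : ∑ i : Fin (e + 1) × Fin (e + 1),
          (a i : ℚ) * ((p.1 : ℚ) ^ (i.1 : ℕ) * (p.2 : ℚ) ^ (i.2 : ℕ)) =
          ((b : ℤ) : ℚ) * ∑ i : Fin (e + 1) × Fin (e + 1),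
            c i * ((p.1 : ℚ) ^ (i.1 : ℕ) * (p.2 : ℚ) ^ (i.2 : ℕ)) := by
        rw [Finset.mul_sum]
        refine Finset.sum_congr rfl fun i _ => ?_
        rw [ha' i, mul_assoc]
      rw [h3, h1, mul_zero]
    have h4 : ∑ i : Fin (e + 1) × Fin (e + 1), a i * (p.1 ^ (i.1 : ℕ) * p.2 ^ (i.2 : ℕ)) = 0 := by
      exact_mod_cast h2
    rw [evalEval_finsetSum, ← h4]
    refine Finset.sum_congr rfl fun i _ => ?_
    simp only [evalEval, eval_mul, eval_C, eval_pow, eval_X]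
    ring

end JP91
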