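import Pool.Agent.LibJP91.D3
import Pool.Agent.LibJP91.D4
import Pool.Agent.LibJP91.B0

open Polynomial
open scoped Polynomial.Bivariate

namespace JP91

/-- Row D5 (SHORT). All determinants of points of `S` vanish by `det_zero`, so `exists_poly` gives `Q`;
`¬ f ∣ Q` since `f` is monic of degree `> e`; `bezout` with `P = Q`, `a = b = e`. -/
theorem class_card {f : ℤ[X][Y]} (hf : f.Monic) (hi : Irreducible f) {M e B : ℕ}
    (hM : ∀ j, (f.coeff j).natDegree ≤ M) (he : e < f.natDegree) {p : ℕ} (hp : p.Prime) {ρ σ : ℤ}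
    (h1 : ¬ (p : ℤ) ∣ (derivative f).evalEval ρ σ)
    (hB : ((e + 1) ^ 2).factorial * B ^ ((e + 1) ^ 2 * e) < p ^ ((e + 1) ^ 2 * ((e + 1) ^ 2 - 1) / 2))
    (S : Finset (ℤ × ℤ)) (hS : ∀ q ∈ S, (p : ℤ) ∣ q.1 - ρ ∧ (p : ℤ) ∣ q.2 - σ ∧
      f.evalEval q.1 q.2 = 0 ∧ |q.1| ≤ B ∧ |q.2| ≤ B) :
    S.card ≤ f.natDegree * ((f.natDegree + e) * (M + e)) := by
  obtain ⟨Q, hQ0, hQd, hQc, hQz⟩ := exists_poly e S (fun P hPS =>
    det_zero f hp h1 e B hB P
      (fun j => ⟨(hS _ (hPS j)).1, (hS _ (hPS j)).2.1, (hS _ (hPS j)).2.2.1⟩)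
      (fun j => ⟨(hS _ (hPS j)).2.2.2.1, (hS _ (hPS j)).2.2.2.2⟩))
  have hnd : ¬ f ∣ Q := hf.not_dvd_of_natDegree_lt hQ0 (hQd.trans_lt he)
  exact bezout f Q M e e hf hi hnd hM hQd hQc S (fun q hq => ⟨(hS q hq).2.2.1, hQz q hq⟩)

/-- Row D5, second part (EASY). For each `ρ < p` the polynomial `f(ρ, ·)` modulo `p` is monic of degree
`N` over the field `ZMod p`: at most `N` roots. -/
theorem classes {f : ℤ[X][Y]} (hf : f.Monic) {p : ℕ} (hp : p.Prime) :
    (((Finset.range p) ×ˢ (Finset.range p)).filter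
      fun q => (p : ℤ) ∣ f.evalEval (q.1 : ℤ) (q.2 : ℤ)).card ≤ p * f.natDegree := by
  have : Fact p.Prime := ⟨hp⟩
  set T := ((Finset.range p) ×ˢ (Finset.range p)).filter
      fun q => (p : ℤ) ∣ f.evalEval (q.1 : ℤ) (q.2 : ℤ) with hT
  have him : (T.image Prod.fst).card ≤ p := by
    calc (T.image Prod.fst).card ≤ (Finset.range p).card := by
          refine Finset.card_le_card fun x hx => ?_
          obtain ⟨q, hq, rfl⟩ := Finset.mem_image.1 hx
          exact (Finset.mem_product.1 (Finset.mem_filter.1 hq).1).1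
      _ = p := Finset.card_range p
  have hfib : ∀ r ∈ T.image Prod.fst, (T.filter fun q => q.1 = r).card ≤ f.natDegree := by
    intro r _
    set g : (ZMod p)[X] := (f.map (evalRingHom (r : ℤ))).map (Int.castRingHom (ZMod p)) with hg
    have hgm : g.Monic := (hf.map _).map _
    have hgd : g.natDegree = f.natDegree := by
      rw [hg, (hf.map _).natDegree_map, hf.natDegree_map]
    have h1 : (T.filter fun q => q.1 = r).card ≤ g.roots.toFinset.card := by
      refine Finset.card_le_card_of_injOn (fun q => (q.2 : ZMod p)) ?_ ?_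
      · intro q hq
        obtain ⟨hq1, hq2⟩ := Finset.mem_filter.1 hq
        have hq3 := (Finset.mem_filter.1 hq1).2
        rw [Finset.mem_coe, Multiset.mem_toFinset, mem_roots hgm.ne_zero, IsRoot.def, hg]
        have h2 : ((q.2 : ℕ) : ZMod p) = (((q.2 : ℕ) : ℤ) : ZMod p) := by push_cast; rfl
        change eval ((q.2 : ℕ) : ZMod p) _ = 0
        rw [h2, eval_intCast_map, map_evalRingHom_eval, ← hq2, eq_intCast,
          ZMod.intCast_zmod_eq_zero_iff_dvd]
        simpa using hq3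
      · intro q hq q' hq' h
        obtain ⟨hq1, hq2⟩ := Finset.mem_filter.1 (Finset.mem_coe.1 hq)
        obtain ⟨hq1', hq2'⟩ := Finset.mem_filter.1 (Finset.mem_coe.1 hq')
        have hl := Finset.mem_range.1 (Finset.mem_product.1 (Finset.mem_filter.1 hq1).1).2
        have hl' := Finset.mem_range.1 (Finset.mem_product.1 (Finset.mem_filter.1 hq1').1).2
        have h2 : q.2 = q'.2 := by
          have h3 : ((q.2 : ℕ) : ZMod p) = ((q'.2 : ℕ) : ZMod p) := h
          rw [ZMod.natCast_eq_natCast_iff] at h3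
          exact Nat.ModEq.eq_of_lt_of_lt h3 hl hl'
        exact Prod.ext (hq2.trans hq2'.symm) h2
    calc (T.filter fun q => q.1 = r).card ≤ g.roots.toFinset.card := h1
      _ ≤ Multiset.card g.roots := Multiset.toFinset_card_le _
      _ ≤ g.natDegree := card_roots' g
      _ = f.natDegree := hgd
  calc T.card ≤ f.natDegree * (T.image Prod.fst).card :=
        Finset.card_le_mul_card_image T f.natDegree hfib
    _ ≤ f.natDegree * p := Nat.mul_le_mul_left _ him
    _ = p * f.natDegree := mul_comm _ _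

end JP91
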