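import Mathlib

namespace JP91

/-- The lower order terms of Chebyshev's bound. -/
lemma exists_prime_aux : ∃ K₀ : ℕ, 1 ≤ K₀ ∧ ∀ T : ℕ, K₀ ≤ T →
    Real.log ((T : ℝ) + 1) + 2 * √(T : ℝ) * Real.log T < (T : ℝ) * (1 / 4) := by
  have h1 : ∀ᶠ x : ℝ in Filter.atTop, ‖Real.log x‖ ≤ (1 / 16) * ‖x ^ (1 / 2 : ℝ)‖ :=
    (isLittleO_log_rpow_atTop (r := 1 / 2) (by norm_num)).bound (by norm_num)
  obtain ⟨X, hX⟩ := Filter.eventually_atTop.1 h1
  refine ⟨⌈X⌉₊ + 2, by omega, fun T hT => ?_⟩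
  have hTX : X ≤ (T : ℝ) := by
    have h2 : ((⌈X⌉₊ : ℕ) : ℝ) ≤ (T : ℝ) := by
      exact_mod_cast (by omega : ⌈X⌉₊ ≤ T)
    exact (Nat.le_ceil X).trans h2
  have hT2 : (2 : ℝ) ≤ (T : ℝ) := by exact_mod_cast (by omega : 2 ≤ T)
  have ha := hX (T : ℝ) hTX
  have hb := hX ((T : ℝ) + 1) (by linarith)
  rw [← Real.sqrt_eq_rpow, Real.norm_eq_abs, Real.norm_eq_abs, abs_of_nonneg (Real.sqrt_nonneg _)]
    at ha hb
  have ha' := (le_abs_self _).trans ha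
  have hb' := (le_abs_self _).trans hb
  have hs : √(T : ℝ) * √(T : ℝ) = T := Real.mul_self_sqrt (by linarith)
  have hs0 : 0 ≤ √(T : ℝ) := Real.sqrt_nonneg _
  have hs1 : √((T : ℝ) + 1) ≤ (T : ℝ) + 1 := by
    rw [Real.sqrt_le_left (by linarith)]
    nlinarith
  have h3 : 2 * √(T : ℝ) * Real.log T ≤ (T : ℝ) / 8 := by
    have := mul_le_mul_of_nonneg_left ha' (by positivity : (0 : ℝ) ≤ 2 * √(T : ℝ))
    nlinarith
  linarith

/-- Row D6 (EASY-MEDIUM, ONLY MATHLIB). If all primes `p` with `Q < p ≤ T` divide `n`, then their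
product divides `n`, so `θ(T) - θ(Q) ≤ log |n| ≤ L log 2`; but `Chebyshev.theta_ge` and
`Chebyshev.theta_le_log4_mul_x` give `θ(T) - θ(Q) ≥ T log 2 - log (T + 1) - 2 √T log T - Q log 4`,
which is `> L log 2` for `T = 16 (Q + L) + K₀` with `K₀` large (`log (T + 1) + 2 √T log T ≤ T log 2 / 2`
for `T ≥ K₀`, and `T / 2 ≥ 8 (Q + L) > 2 Q + L` or `T / 2 ≥ K₀ / 2 > 0` if `Q = L = 0`). -/
theorem exists_prime : ∃ K₀ : ℕ, ∀ (Q L : ℕ) (n : ℤ), n ≠ 0 → |n| ≤ 2 ^ L →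
    ∃ p : ℕ, p.Prime ∧ Q < p ∧ p ≤ 16 * (Q + L) + K₀ ∧ ¬ (p : ℤ) ∣ n := by
  obtain ⟨K₀, hK1, hK⟩ := exists_prime_aux
  refine ⟨K₀, fun Q L n hn hL => ?_⟩
  by_contra hcon
  push Not at hcon
  set T : ℕ := 16 * (Q + L) + K₀ with hT
  have hKT := hK T (by omega)
  have hQT : Q ≤ T := by omega
  have hdiv : ∏ p ∈ (Finset.Ioc Q T).filter Nat.Prime, p ∣ n.natAbs := by
    apply Finset.prod_primes_dvd
    · intro p hp
      exact (Finset.mem_filter.1 hp).2.prime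
    · intro p hp
      have hp' := Finset.mem_filter.1 hp
      have hp2 := Finset.mem_Ioc.1 hp'.1
      exact Int.natCast_dvd.1 (hcon p hp'.2 hp2.1 hp2.2)
  have hle : ∏ p ∈ (Finset.Ioc Q T).filter Nat.Prime, p ≤ 2 ^ L := by
    refine (Nat.le_of_dvd (Int.natAbs_pos.2 hn) hdiv).trans ?_
    have : ((n.natAbs : ℕ) : ℤ) ≤ ((2 ^ L : ℕ) : ℤ) := by
      push_cast
      exact hL
    exact_mod_cast this
  have hlog : ∑ p ∈ (Finset.Ioc Q T).filter Nat.Prime, Real.log (p : ℝ) ≤ L * Real.log 2 := by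
    rw [← Real.log_prod]
    · rw [← Real.log_pow]
      apply Real.log_le_log
      · apply Finset.prod_pos
        intro p hp
        exact_mod_cast (Finset.mem_filter.1 hp).2.pos
      · have h9 : ((∏ p ∈ (Finset.Ioc Q T).filter Nat.Prime, p : ℕ) : ℝ) ≤ ((2 ^ L : ℕ) : ℝ) :=
          Nat.cast_le.2 hle
        rw [Nat.cast_prod] at h9
        push_cast at h9
        exact h9
    · intro p hp
      exact_mod_cast (Finset.mem_filter.1 hp).2.ne_zero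
  have hth : Chebyshev.theta (T : ℝ) = Chebyshev.theta (Q : ℝ) +
      ∑ p ∈ (Finset.Ioc Q T).filter Nat.Prime, Real.log (p : ℝ) := by
    unfold Chebyshev.theta
    rw [Nat.floor_natCast, Nat.floor_natCast, Finset.sum_filter, Finset.sum_filter,
      Finset.sum_filter, Finset.sum_Ioc_consecutive _ (Nat.zero_le _) hQT]
  have h1 := Chebyshev.theta_ge T
  have h2 := Chebyshev.theta_le_log4_mul_x (x := (Q : ℝ)) (Nat.cast_nonneg _)
  have h4 : Real.log 4 = 2 * Real.log 2 := by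
    rw [show (4 : ℝ) = 2 ^ 2 by norm_num, Real.log_pow]
    norm_num
  have hl2 : (1 / 2 : ℝ) < Real.log 2 := by
    have := Real.log_two_gt_d9
    linarith
  rw [h4] at h2
  have hTr : (T : ℝ) = 16 * ((Q : ℝ) + L) + K₀ := by
    rw [hT]
    push_cast
    ring
  have hQ0 : (0 : ℝ) ≤ Q := Nat.cast_nonneg _
  have hL0 : (0 : ℝ) ≤ L := Nat.cast_nonneg _
  have hK0 : (1 : ℝ) ≤ K₀ := by exact_mod_cast hK1
  have hT0 : (0 : ℝ) < T := by rw [hTr]; linarith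
  have h5 : (T : ℝ) * Real.log 2 ≤ (T : ℝ) * (1 / 4) + 2 * Real.log 2 * Q + L * Real.log 2 := by
    linarith
  have h6 : (T : ℝ) * (1 / 4) < (T : ℝ) * Real.log 2 / 2 := by nlinarith
  have h7 : (T : ℝ) * Real.log 2 / 2 < (2 * Q + L) * Real.log 2 := by linarith
  have h8 : (T : ℝ) / 2 < 2 * Q + L := by
    have : (T : ℝ) / 2 * Real.log 2 < (2 * Q + L) * Real.log 2 := by linarith
    exact lt_of_mul_lt_mul_right this (by linarith)
  rw [hTr] at h8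
  linarith

end JP91
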