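import Pool.Agent.LibJP91.D5
import Pool.Agent.LibJP91.D6

open Polynomial
open scoped Polynomial.Bivariate

namespace JP91

/-- Congruence of values of a bivariate integer polynomial. -/
lemma dvd_evalEval_sub (g : ℤ[X][Y]) {p r s ρ σ : ℤ} (h1 : p ∣ r - ρ) (h2 : p ∣ s - σ) :
    p ∣ g.evalEval r s - g.evalEval ρ σ := by
  have h3 : p ∣ g.evalEval r s - g.evalEval ρ s := h1.trans (Polynomial.sub_dvd_eval_sub _ _ _)
  have h4 : p ∣ g.evalEval ρ s - g.evalEval ρ σ := by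
    rw [← map_evalRingHom_eval, ← map_evalRingHom_eval]
    exact h2.trans (Polynomial.sub_dvd_eval_sub _ _ _)
  have := dvd_add h3 h4
  rwa [sub_add_sub_cancel] at this

/-- The condition `hB` of `class_card` for `p > 4 B ^ (2 / (e + 2))`. -/
lemma hB_of (e B p : ℕ) (he : 1 ≤ e) (hB : 1 ≤ B)
    (hp : 4 * (B : ℝ) ^ (2 / ((e : ℝ) + 2)) < p) :
    ((e + 1) ^ 2).factorial * B ^ ((e + 1) ^ 2 * e) <
      p ^ ((e + 1) ^ 2 * ((e + 1) ^ 2 - 1) / 2) := by
  set m : ℕ := (e + 1) ^ 2 with hm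
  have hm1 : m - 1 = e * (e + 2) := by
    rw [hm]
    have : (e + 1) ^ 2 = e * (e + 2) + 1 := by ring
    omega
  have hm0 : 1 ≤ m := by rw [hm]; exact Nat.one_le_pow _ _ (by omega)
  set h : ℕ := m * (m - 1) / 2 with hh
  have h2h : 2 * h = m * (m - 1) := by
    rw [hh]
    exact Nat.mul_div_cancel' (Nat.even_mul_pred_self m).two_dvd
  have hh0 : h ≠ 0 := by
    intro h0
    rw [h0] at h2h
    have h3 : 0 < m * (m - 1) := by
      rw [hm1]
      positivity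
    omega
  have hfac : m.factorial ≤ 4 ^ h := by
    calc m.factorial ≤ m ^ m := Nat.factorial_le_pow m
      _ ≤ (2 ^ (m - 1)) ^ m := by
        apply Nat.pow_le_pow_left
        have := (Nat.lt_two_pow_self : m - 1 < 2 ^ (m - 1))
        omega
      _ = 4 ^ h := by
        rw [← pow_mul, mul_comm (m - 1) m, ← h2h, pow_mul]
        norm_num
  have hB0 : (0 : ℝ) < B := by exact_mod_cast (by omega : 0 < B)
  set β : ℝ := (B : ℝ) ^ (2 / ((e : ℝ) + 2)) with hβ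
  have hβ0 : 0 < β := Real.rpow_pos_of_pos hB0 _
  have hβh : β ^ h = (B : ℝ) ^ (m * e) := by
    rw [hβ, ← Real.rpow_natCast, ← Real.rpow_mul hB0.le, ← Real.rpow_natCast]
    congr 1
    have h5 : (2 : ℝ) * h = m * (e * (e + 2)) := by
      have : ((2 * h : ℕ) : ℝ) = ((m * (e * (e + 2)) : ℕ) : ℝ) := by rw [h2h, hm1]
      push_cast at this
      exact this
    have h6 : ((e : ℝ) + 2) ≠ 0 := by positivity
    rw [div_mul_eq_mul_div, h5]
    push_cast
    field_simp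
  have key : ((m.factorial * B ^ (m * e) : ℕ) : ℝ) < ((p ^ h : ℕ) : ℝ) := by
    push_cast
    calc (m.factorial : ℝ) * (B : ℝ) ^ (m * e) ≤ 4 ^ h * (B : ℝ) ^ (m * e) := by
          gcongr
          exact_mod_cast hfac
      _ = (4 * β) ^ h := by rw [mul_pow, hβh]
      _ < (p : ℝ) ^ h := pow_lt_pow_left₀ hp (by positivity) hh0
  exact_mod_cast key

/-- The combinatorial part: the number of points in terms of `T`. -/
lemma pdet_nat (f : ℤ[X][Y]) (N M e B T : ℕ) (hf : f.Monic) (hi : Irreducible f)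
    (hN : f.natDegree = N) (hM : ∀ j, (f.coeff j).natDegree ≤ M) (he : 1 ≤ e) (heN : e < N)
    (hB : 1 ≤ B) (S : Finset (ℤ × ℤ))
    (hS : ∀ q ∈ S, |q.1| ≤ B ∧ |q.2| ≤ B ∧ f.evalEval q.1 q.2 = 0)
    (hT : ∀ q ∈ S, (derivative f).evalEval q.1 q.2 ≠ 0 → ∃ p : ℕ, p.Prime ∧
      4 * (B : ℝ) ^ (2 / ((e : ℝ) + 2)) < p ∧ p ≤ T ∧
      ¬ (p : ℤ) ∣ (derivative f).evalEval q.1 q.2) :
    S.card ≤ N * ((N + N) * (M + M)) + T * ((T * N) * (N * ((N + e) * (M + e)))) := by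
  classical
  set S₀ := S.filter fun q => (derivative f).evalEval q.1 q.2 = 0 with hS₀
  set P : Finset ℕ := (Finset.Icc 1 T).filter fun p : ℕ =>
    p.Prime ∧ 4 * (B : ℝ) ^ (2 / ((e : ℝ) + 2)) < (p : ℝ) with hP
  set Cl : ℕ → Finset (ℕ × ℕ) := fun p => ((Finset.range p) ×ˢ (Finset.range p)).filter
      fun q => (p : ℤ) ∣ f.evalEval (q.1 : ℤ) (q.2 : ℤ) with hCl
  set A : ℕ → ℕ × ℕ → Finset (ℤ × ℤ) := fun p c => S.filter fun q =>
    (p : ℤ) ∣ q.1 - (c.1 : ℤ) ∧ (p : ℤ) ∣ q.2 - (c.2 : ℤ) ∧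
      ¬ (p : ℤ) ∣ (derivative f).evalEval q.1 q.2 with hA
  have hcover : S ⊆ S₀ ∪ P.biUnion fun p => (Cl p).biUnion (A p) := by
    intro q hq
    rw [Finset.mem_union]
    by_cases h0 : (derivative f).evalEval q.1 q.2 = 0
    · left
      rw [hS₀, Finset.mem_filter]
      exact ⟨hq, h0⟩
    · right
      obtain ⟨p, hp, hpB, hpT, hnd⟩ := hT q hq h0
      have hp0 : (0 : ℤ) < p := by exact_mod_cast hp.pos
      have hp0' : (p : ℤ) ≠ 0 := hp0.ne'
      have e1 : (((q.1 % (p : ℤ)).toNat : ℕ) : ℤ) = q.1 % p :=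
        Int.toNat_of_nonneg (Int.emod_nonneg _ hp0')
      have e2 : (((q.2 % (p : ℤ)).toNat : ℕ) : ℤ) = q.2 % p :=
        Int.toNat_of_nonneg (Int.emod_nonneg _ hp0')
      have d1 : (p : ℤ) ∣ q.1 - (((q.1 % (p : ℤ)).toNat : ℕ) : ℤ) := by
        rw [e1]; exact Int.dvd_self_sub_emod
      have d2 : (p : ℤ) ∣ q.2 - (((q.2 % (p : ℤ)).toNat : ℕ) : ℤ) := by
        rw [e2]; exact Int.dvd_self_sub_emod
      rw [Finset.mem_biUnion]
      refine ⟨p, ?_, ?_⟩
      · rw [hP, Finset.mem_filter, Finset.mem_Icc]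
        exact ⟨⟨hp.one_le, hpT⟩, hp, hpB⟩
      · rw [Finset.mem_biUnion]
        refine ⟨((q.1 % (p : ℤ)).toNat, (q.2 % (p : ℤ)).toNat), ?_, ?_⟩
        · rw [hCl, Finset.mem_filter, Finset.mem_product, Finset.mem_range, Finset.mem_range]
          refine ⟨⟨?_, ?_⟩, ?_⟩
          · have : (((q.1 % (p : ℤ)).toNat : ℕ) : ℤ) < (p : ℤ) := by
              rw [e1]; exact Int.emod_lt_of_pos _ hp0
            exact_mod_cast this
          · have : (((q.2 % (p : ℤ)).toNat : ℕ) : ℤ) < (p : ℤ) := by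
              rw [e2]; exact Int.emod_lt_of_pos _ hp0
            exact_mod_cast this
          · have h7 := dvd_evalEval_sub f d1 d2
            rw [(hS q hq).2.2, zero_sub, dvd_neg] at h7
            exact h7
        · rw [hA, Finset.mem_filter]
          exact ⟨hq, d1, d2, hnd⟩
  have hcard0 : S₀.card ≤ N * ((N + N) * (M + M)) := by
    have hd0 : derivative f ≠ 0 := by
      intro h0
      have := Polynomial.derivative_eq_zero.1 h0
      omega
    have hnd : ¬ f ∣ derivative f :=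
      hf.not_dvd_of_natDegree_lt hd0 (Polynomial.natDegree_derivative_lt (by omega))
    have h8 := bezout f (derivative f) M N M hf hi hnd hM
      (by rw [← hN]; exact (Polynomial.natDegree_derivative_lt (by omega)).le)
      (by
        intro j
        rw [Polynomial.coeff_derivative]
        refine (Polynomial.natDegree_mul_le).trans ?_
        have h9 : (((j : ℤ[X]) + 1)).natDegree = 0 := by
          have : ((j : ℤ[X]) + 1) = ((j + 1 : ℕ) : ℤ[X]) := by push_cast; ring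
          rw [this, Polynomial.natDegree_natCast]
        rw [h9, add_zero]
        exact hM _) S₀
      (by
        intro q hq
        rw [hS₀, Finset.mem_filter] at hq
        exact ⟨(hS q hq.1).2.2, hq.2⟩)
    rwa [hN] at h8
  have hcardA : ∀ p ∈ P, ∀ c ∈ Cl p, (A p c).card ≤ N * ((N + e) * (M + e)) := by
    intro p hp c hc
    rw [hP, Finset.mem_filter, Finset.mem_Icc] at hp
    by_cases hd : (p : ℤ) ∣ (derivative f).evalEval (c.1 : ℤ) (c.2 : ℤ)
    · have hemp : A p c = ∅ := by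
        rw [hA]
        apply Finset.filter_eq_empty_iff.2
        rintro q hq ⟨h1, h2, h3⟩
        apply h3
        have h4 := dvd_add (dvd_evalEval_sub (derivative f) h1 h2) hd
        rwa [sub_add_cancel] at h4
      rw [hemp]
      simp
    · have h10 := class_card hf hi hM (by rw [hN]; exact heN) hp.2.1 hd
        (hB_of e B p he hB hp.2.2) (A p c)
        (by
          intro q hq
          rw [hA, Finset.mem_filter] at hq
          exact ⟨hq.2.1, hq.2.2.1, (hS q hq.1).2.2, (hS q hq.1).1, (hS q hq.1).2.1⟩)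
      rwa [hN] at h10
  have hcardC : ∀ p ∈ P, ((Cl p).biUnion (A p)).card ≤ (T * N) * (N * ((N + e) * (M + e))) := by
    intro p hp
    refine (Finset.card_biUnion_le_card_mul _ _ _ (hcardA p hp)).trans ?_
    apply Nat.mul_le_mul_right
    rw [hP, Finset.mem_filter, Finset.mem_Icc] at hp
    have h11 := classes hf hp.2.1
    rw [hN] at h11
    exact h11.trans (Nat.mul_le_mul_right _ hp.1.2)
  have hcardP : P.card ≤ T := by
    refine (Finset.card_filter_le _ _).trans ?_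
    rw [Nat.card_Icc]
    omega
  calc S.card ≤ (S₀ ∪ P.biUnion fun p => (Cl p).biUnion (A p)).card := Finset.card_le_card hcover
    _ ≤ S₀.card + (P.biUnion fun p => (Cl p).biUnion (A p)).card := Finset.card_union_le _ _
    _ ≤ _ := by
      refine add_le_add hcard0 ?_
      refine (Finset.card_biUnion_le_card_mul _ _ _ hcardC).trans ?_
      exact Nat.mul_le_mul_right _ hcardP

/-- Row D7 (MEDIUM). The `p`-adic determinant method: integral points of an irreducible curve of degree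
`N > e` in `s`, uniformly in the curve. Let `m = (e + 1) ^ 2`, `Q = ⌊4 B ^ (2 / (e + 2))⌋`. A prime
`p > Q` satisfies `hB` of `class_card`: `p ^ (m (m - 1) / 2) > 4 ^ (m (m - 1) / 2) B ^ (m (m - 1) / (e + 2))`
with `m - 1 = e (e + 2)`, and `4 ^ (m (m - 1) / 2) = (2 ^ m) ^ (m - 1) ≥ m ^ (m - 1) ≥ m!`.
Points with `∂f/∂s = 0`: `bezout` with `P = derivative f` (nonzero, of smaller degree; `a = N`, `b = M`):
at most `N (2 N) (2 M)`. For every other point `exists_prime` with `n = (∂f/∂s)(r, s)` gives a prime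
`Q < p ≤ T = 16 (Q + L) + K₀`, and the point lies in a class counted in `classes` (with
`ρ, σ` the residues of `r, s`, so that `p` does not divide `(∂f/∂s)(ρ, σ)`), which has at most
`N (N + e) (M + e)` points. So `S.card ≤ 4 N² M + T · (T N) · N (N + e) (M + e)`, and
`T ≤ K₁ (L + 1) B ^ (2 / (e + 2))`, `e < N`. -/
theorem pdet : ∃ K : ℕ, ∀ (f : ℤ[X][Y]) (N M e L B : ℕ), f.Monic → Irreducible f →
    f.natDegree = N → (∀ j, (f.coeff j).natDegree ≤ M) → 1 ≤ e → e < N → 1 ≤ B →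
    ∀ S : Finset (ℤ × ℤ), (∀ p ∈ S, |p.1| ≤ B ∧ |p.2| ≤ B ∧ f.evalEval p.1 p.2 = 0 ∧
      |(derivative f).evalEval p.1 p.2| ≤ 2 ^ L) →
    (S.card : ℝ) ≤ K * (((N + M + 1 : ℕ) : ℝ) * (L + 1)) ^ K * (B : ℝ) ^ (4 / ((e : ℝ) + 2)) := by
  obtain ⟨K₀, hK₀⟩ := exists_prime
  obtain ⟨E, hE⟩ : ∃ E : ℕ, E = 4 + 2 * (80 + K₀) ^ 2 := ⟨_, rfl⟩
  have hE4 : 4 ≤ E := by omega
  have hEr : (E : ℝ) = 4 + 2 * (80 + (K₀ : ℝ)) ^ 2 := by
    rw [hE]; push_cast; ring
  clear hE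
  refine ⟨E, ?_⟩
  intro f N M e L B hf hi hN hM he heN hB S hS
  have hB1 : (1 : ℝ) ≤ B := by exact_mod_cast hB
  set β : ℝ := (B : ℝ) ^ (2 / ((e : ℝ) + 2)) with hβ
  have hβ1 : 1 ≤ β := Real.one_le_rpow hB1 (by positivity)
  have hβ2 : (B : ℝ) ^ (4 / ((e : ℝ) + 2)) = β ^ 2 := by
    rw [hβ, ← Real.rpow_natCast, ← Real.rpow_mul (by linarith)]
    congr 1
    push_cast
    ring
  set Q : ℕ := ⌊4 * β⌋₊ with hQ
  set T : ℕ := 16 * (Q + L) + K₀ with hT
  have hQβ : (Q : ℝ) ≤ 4 * β := Nat.floor_le (by linarith)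
  have hnat := pdet_nat f N M e B T hf hi hN hM he heN hB S
    (fun q hq => ⟨(hS q hq).1, (hS q hq).2.1, (hS q hq).2.2.1⟩)
    (by
      intro q hq h0
      obtain ⟨p, hp, h1, h2, h3⟩ := hK₀ Q L _ h0 (hS q hq).2.2.2
      refine ⟨p, hp, ?_, h2, h3⟩
      have h4 : 4 * β < (⌊4 * β⌋₊ : ℝ) + 1 := Nat.lt_floor_add_one _
      have h5 : ((Q : ℝ) + 1) ≤ p := by exact_mod_cast h1
      linarith)
  have hL0 : (0 : ℝ) ≤ L := Nat.cast_nonneg _
  have hK0 : (0 : ℝ) ≤ K₀ := Nat.cast_nonneg _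
  have hTβ : (T : ℝ) ≤ (80 + K₀) * ((L + 1) * β) := by
    have h6 : (T : ℝ) = 16 * ((Q : ℝ) + L) + K₀ := by
      rw [hT]; push_cast; ring
    have h7 : (1 : ℝ) ≤ (L + 1) * β := by nlinarith
    have h8 : β ≤ (L + 1) * β := by nlinarith
    have h9 : (L : ℝ) ≤ (L + 1) * β := by nlinarith
    rw [h6]
    nlinarith
  set D : ℝ := ((N + M + 1 : ℕ) : ℝ) with hD
  have hDe : D = (N : ℝ) + M + 1 := by rw [hD]; push_cast; ring
  have hN0 : (0 : ℝ) ≤ N := Nat.cast_nonneg _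
  have hM0 : (0 : ℝ) ≤ M := Nat.cast_nonneg _
  have he0 : (0 : ℝ) ≤ e := Nat.cast_nonneg _
  have heN' : (e : ℝ) ≤ N := by exact_mod_cast heN.le
  have hD1 : 1 ≤ D := by rw [hDe]; linarith
  have hND : (N : ℝ) ≤ D := by rw [hDe]; linarith
  have hMD : (M : ℝ) ≤ D := by rw [hDe]; linarith
  have hMe : (M : ℝ) + e ≤ D := by rw [hDe]; linarith
  have hT0 : (0 : ℝ) ≤ T := Nat.cast_nonneg _
  have hcast : (S.card : ℝ) ≤ N * ((N + N) * (M + M)) + T * ((T * N) * (N * ((N + e) * (M + e)))) := by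
    exact_mod_cast hnat
  have hb1 : (N : ℝ) * ((N + N) * (M + M)) ≤ 4 * D ^ 4 := by
    calc (N : ℝ) * ((N + N) * (M + M)) ≤ D * ((D + D) * (D + D)) := by gcongr
      _ = 4 * D ^ 3 := by ring
      _ ≤ 4 * D ^ 4 := by
        have : D ^ 3 ≤ D ^ 4 := pow_le_pow_right₀ hD1 (by norm_num)
        linarith
  have hb2 : (N : ℝ) * (N * ((N + e) * (M + e))) ≤ 2 * D ^ 4 := by
    calc (N : ℝ) * (N * ((N + e) * (M + e))) ≤ D * (D * ((D + D) * D)) := by
          gcongr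
          linarith
      _ = 2 * D ^ 4 := by ring
  have hb3 : (T : ℝ) * ((T * N) * (N * ((N + e) * (M + e)))) ≤
      2 * (80 + K₀) ^ 2 * (D * (L + 1)) ^ 4 * β ^ 2 := by
    calc (T : ℝ) * ((T * N) * (N * ((N + e) * (M + e))))
        = T ^ 2 * ((N : ℝ) * (N * ((N + e) * (M + e)))) := by ring
      _ ≤ ((80 + K₀) * ((L + 1) * β)) ^ 2 * (2 * D ^ 4) := by gcongr
      _ = 2 * (80 + K₀) ^ 2 * (D ^ 4 * ((L : ℝ) + 1) ^ 2) * β ^ 2 := by ring
      _ ≤ 2 * (80 + K₀) ^ 2 * (D * (L + 1)) ^ 4 * β ^ 2 := by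
        gcongr
        rw [mul_pow]
        have h12 : ((L : ℝ) + 1) ^ 2 ≤ ((L : ℝ) + 1) ^ 4 :=
          pow_le_pow_right₀ (by linarith) (by norm_num)
        gcongr
  have hb4 : 4 * D ^ 4 ≤ 4 * (D * (L + 1)) ^ 4 * β ^ 2 := by
    have h13 : D ^ 4 ≤ (D * (L + 1)) ^ 4 := by
      apply pow_le_pow_left₀ (by linarith)
      nlinarith
    have h14 : 1 ≤ β ^ 2 := one_le_pow₀ hβ1
    have h15 : 0 ≤ (D * ((L : ℝ) + 1)) ^ 4 := by positivity
    nlinarith
  have hDL : 1 ≤ D * ((L : ℝ) + 1) := by nlinarith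
  have hpow : (D * ((L : ℝ) + 1)) ^ 4 ≤ (D * ((L : ℝ) + 1)) ^ E :=
    pow_le_pow_right₀ hDL hE4
  rw [hβ2]
  calc (S.card : ℝ) ≤ 4 * (D * (L + 1)) ^ 4 * β ^ 2 +
        2 * (80 + K₀) ^ 2 * (D * (L + 1)) ^ 4 * β ^ 2 := by linarith
    _ = (E : ℝ) * (D * (L + 1)) ^ 4 * β ^ 2 := by rw [hEr]; ring
    _ ≤ (E : ℝ) * (D * (L + 1)) ^ E * β ^ 2 := by gcongr

end JP91
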