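import Mathlib

/-!
# Sub-polynomial count of the exceptional primitive Pythagorean triples (MP_252f3f_nt): definitions

Polynomials in `r` (the inner variable) and `s` (the outer variable). A primitive triple has the
legs `r s`, `r² - s²` and the hypotenuse `r² + s²`, up to powers of `2`.
-/

open Polynomial
open scoped Polynomial.Bivariate

namespace JP91

/-- The leg `r s`. -/
noncomputable def cA : ℤ[X][Y] := C X * Y

/-- The leg `r² - s²`. -/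
noncomputable def cB : ℤ[X][Y] := C X ^ 2 - Y ^ 2

/-- The hypotenuse `r² + s²`. -/
noncomputable def cC : ℤ[X][Y] := C X ^ 2 + Y ^ 2

/-- `(r² + s²) ^ z - H (r s) ^ x - G (r² - s²) ^ y`. -/
noncomputable def FF (x y z : ℕ) (H G : ℤ) : ℤ[X][Y] :=
  cC ^ z - C (C H) * cA ^ x - C (C G) * cB ^ y

/-- The derivative with respect to `r`. -/
noncomputable def dr (f : ℤ[X][Y]) : ℤ[X][Y] := Bivariate.swap (derivative (Bivariate.swap f))

/-- The polynomial `f(0, s)`. -/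
noncomputable def at0 (f : ℤ[X][Y]) : ℤ[X] := f.map (evalRingHom 0)

/-- The exponents and the constants which occur. -/
structure Dat (x y z : ℕ) (H G : ℤ) : Prop where
  hy : 1 ≤ y
  hz : 1 ≤ z
  hx : z < x
  hyz : y ≠ z
  hx2 : x < 2 * z
  hy2 : y < 2 * z
  hH : Even H
  hH1 : 2 ≤ H
  hH2 : H ≤ 2 ^ x
  hH3 : 2 ^ z ≤ H
  hG1 : 1 ≤ G
  hG2 : G ≤ 2 ^ x
  hG : z < y → G = 1
  hGH : z < y → H = 2 ^ x

/-- A monic irreducible factor of `FF` with a coprime point. -/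
structure Good (x y z : ℕ) (H G : ℤ) (f : ℤ[X][Y]) : Prop where
  mon : f.Monic
  irr : Irreducible f
  dvd : f ∣ FF x y z H G
  pt : ∃ r s : ℤ, 1 ≤ s ∧ s < r ∧ IsCoprime r s ∧ f.evalEval r s = 0

/-- The triple of the parameters `(r, s)`, in the four possible forms. -/
def tau (i : Fin 4) (p : ℤ × ℤ) : ℕ × ℕ × ℕ :=
  if i = 0 then ((p.1 * p.2).natAbs, ((p.1 ^ 2 - p.2 ^ 2) / 2).natAbs,
    ((p.1 ^ 2 + p.2 ^ 2) / 2).natAbs)
  else if i = 1 then (((p.1 ^ 2 - p.2 ^ 2) / 2).natAbs, (p.1 * p.2).natAbs,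
    ((p.1 ^ 2 + p.2 ^ 2) / 2).natAbs)
  else if i = 2 then ((2 * p.1 * p.2).natAbs, (p.1 ^ 2 - p.2 ^ 2).natAbs,
    (p.1 ^ 2 + p.2 ^ 2).natAbs)
  else ((p.1 ^ 2 - p.2 ^ 2).natAbs, (2 * p.1 * p.2).natAbs, (p.1 ^ 2 + p.2 ^ 2).natAbs)

/-- A coprime point of the curve in the range of the parameters. -/
structure Pt (x y z : ℕ) (H G : ℤ) (r s : ℤ) : Prop where
  hs : 1 ≤ s
  hr : s < r
  cop : IsCoprime r s
  zero : (FF x y z H G).evalEval r s = 0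

/-- Half of `y C D(B) - z B D(C)` for the derivation `D g = ∂ₛ f ∂ᵣ g - ∂ᵣ f ∂ₛ g`. -/
noncomputable def E1 (y z : ℕ) (f : ℤ[X][Y]) : ℤ[X][Y] :=
  C X * derivative f * (C (C ((y : ℤ) - z)) * C X ^ 2 + C (C ((y : ℤ) + z)) * Y ^ 2) +
    Y * dr f * (C (C ((y : ℤ) + z)) * C X ^ 2 + C (C ((y : ℤ) - z)) * Y ^ 2)

/-- `x B D(A) - y A D(B)` for the same derivation. -/
noncomputable def E2 (x y : ℕ) (f : ℤ[X][Y]) : ℤ[X][Y] :=
  Y * derivative f * (C (C ((x : ℤ) - 2 * y)) * C X ^ 2 - C (C (x : ℤ)) * Y ^ 2) -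
    C X * dr f * (C (C (x : ℤ)) * C X ^ 2 - C (C ((x : ℤ) - 2 * y)) * Y ^ 2)

end JP91
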