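import Pool.Agent.LibJP91.B5

open Polynomial
open scoped Polynomial.Bivariate

namespace JP91

/-- Row Z2 (EASY). Bounded exponents: `z < x ≤ X₀`, `y < 2 z`, `2 ≤ H ≤ 2 ^ x`, `1 ≤ G ≤ 2 ^ x` leave
finitely many data; for each `fin_exp` gives a bound; take the maximum
(`Set.Finite` / `Finset` induction). -/
theorem small_exp (X₀ : ℕ) : ∃ R : ℤ, ∀ (x y z : ℕ) (H G : ℤ), Dat x y z H G → x ≤ X₀ →
    ∀ r s : ℤ, Pt x y z H G r s → r ≤ R := by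
  classical
  have h0 : ∀ t : ℕ × ℕ × ℕ × ℤ × ℤ, ∃ R : ℤ, Dat t.1 t.2.1 t.2.2.1 t.2.2.2.1 t.2.2.2.2 →
      ∀ r s : ℤ, Pt t.1 t.2.1 t.2.2.1 t.2.2.2.1 t.2.2.2.2 r s → r ≤ R := by
    intro t
    by_cases h : Dat t.1 t.2.1 t.2.2.1 t.2.2.2.1 t.2.2.2.2
    · obtain ⟨R, hR⟩ := fin_exp h
      exact ⟨R, fun _ => hR⟩
    · exact ⟨0, fun h1 => absurd h1 h⟩
  choose f hf using h0
  refine ⟨∑ t ∈ Finset.range (X₀ + 1) ×ˢ Finset.range (2 * X₀ + 1) ×ˢ Finset.range (X₀ + 1) ×ˢ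
    Finset.Icc (0 : ℤ) (2 ^ X₀) ×ˢ Finset.Icc (0 : ℤ) (2 ^ X₀), |f t|, ?_⟩
  intro x y z H G h hx r s hp
  have h1 := hf (x, y, z, H, G) h r s hp
  refine h1.trans ((le_abs_self _).trans ?_)
  refine Finset.single_le_sum (f := fun t => |f t|) (fun t _ => abs_nonneg _) ?_
  have hpow : (2 : ℤ) ^ x ≤ 2 ^ X₀ := pow_le_pow_right₀ (by norm_num) hx
  simp only [Finset.mem_product, Finset.mem_range, Finset.mem_Icc]
  have := h.hx
  have := h.hy2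
  have := h.hH1
  have := h.hH2
  have := h.hG1
  have := h.hG2
  refine ⟨by omega, by omega, by omega, ⟨by omega, by linarith⟩, ⟨by omega, by linarith⟩⟩

end JP91
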