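import Pool.Agent.LibJP91.A2
import Pool.Agent.LibJP91.A9
import Pool.Agent.LibJP91.A10
import Pool.Agent.LibJP91.D7

open Polynomial
open scoped Polynomial.Bivariate

namespace JP91

private theorem z3_clog {R : ℕ} (hR : 2 ≤ R) :
    ((Nat.clog 2 R + 1 : ℕ) : ℝ) ≤ 2 * (Real.log R + 1) := by
  have h1 : 2 ^ (Nat.clog 2 R).pred < R := Nat.pow_pred_clog_lt_self (by norm_num) (by omega)
  have h2 : 1 ≤ Nat.clog 2 R := Nat.clog_pos (by norm_num) hR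
  have hR0 : (0 : ℝ) < R := by positivity
  have h3 : ((2 : ℝ) ^ (Nat.clog 2 R - 1)) ≤ R := by
    have h4 : (2 ^ (Nat.clog 2 R - 1) : ℕ) ≤ R := h1.le
    exact_mod_cast h4
  have h5 := Real.log_le_log (by positivity) h3
  rw [Real.log_pow] at h5
  have h6 : (1 / 2 : ℝ) < Real.log 2 := by
    have := Real.log_two_gt_d9
    linarith
  have h7 : ((Nat.clog 2 R - 1 : ℕ) : ℝ) = (Nat.clog 2 R : ℝ) - 1 := by
    rw [Nat.cast_sub h2]; norm_num
  have h8 : (0 : ℝ) ≤ ((Nat.clog 2 R - 1 : ℕ) : ℝ) := Nat.cast_nonneg _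
  have h9 : ((Nat.clog 2 R - 1 : ℕ) : ℝ) * (1 / 2) ≤ Real.log R := by
    refine le_trans ?_ h5
    exact mul_le_mul_of_nonneg_left h6.le h8
  push_cast
  rw [h7] at h9
  linarith

private theorem z3_factor {K₀ : ℕ} (hK₀ : ∀ (f : ℤ[X][Y]) (N M e L B : ℕ), f.Monic →
    Irreducible f → f.natDegree = N → (∀ j, (f.coeff j).natDegree ≤ M) → 1 ≤ e → e < N → 1 ≤ B →
    ∀ S : Finset (ℤ × ℤ), (∀ p ∈ S, |p.1| ≤ B ∧ |p.2| ≤ B ∧ f.evalEval p.1 p.2 = 0 ∧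
      |(derivative f).evalEval p.1 p.2| ≤ 2 ^ L) →
    (S.card : ℝ) ≤ K₀ * (((N + M + 1 : ℕ) : ℝ) * (L + 1)) ^ K₀ * (B : ℝ) ^ (4 / ((e : ℝ) + 2)))
    {e x y z : ℕ} {H G : ℤ} (he : 1 ≤ e) (h : Dat x y z H G)
    (hx : (2 * e + 2) * (e + 3) + 1 < x) {R : ℕ} (hR : 2 ≤ R) {f : ℤ[X][Y]}
    (hf : f.Monic) (hi : Irreducible f) (hd : f ∣ FF x y z H G) (S : Finset (ℤ × ℤ))
    (hS : ∀ p ∈ S, Pt x y z H G p.1 p.2 ∧ p.1 ≤ R ∧ f.evalEval p.1 p.2 = 0) :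
    (S.card : ℝ) ≤ K₀ * (28818 * ((x : ℝ) * (Real.log R + 1)) ^ 3) ^ K₀ *
      (R : ℝ) ^ (4 / ((e : ℝ) + 2)) := by
  have hlog : 0 ≤ Real.log R := Real.log_nonneg (by exact_mod_cast (by omega : 1 ≤ R))
  rcases S.eq_empty_or_nonempty with rfl | ⟨p, hp⟩
  · rw [Finset.card_empty, Nat.cast_zero]
    positivity
  have hx1 : 1 ≤ x := by omega
  have hgood : Good x y z H G f := by
    obtain ⟨h1, -, h3⟩ := hS p hp
    exact ⟨hf, hi, hd, p.1, p.2, h1.hs, h1.hr, h1.cop, h3⟩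
  have hN1 := exp_le h hgood
  have heN : e < f.natDegree := by
    by_contra hcon
    push Not at hcon
    have h1 : (2 * f.natDegree + 2) * (f.natDegree + 3) ≤ (2 * e + 2) * (e + 3) :=
      Nat.mul_le_mul (by omega) (by omega)
    omega
  have hFF := FF_lead h
  have hFF0 : FF x y z H G ≠ 0 := by
    intro h0
    have h1 := hFF.2
    rw [h0, leadingCoeff_zero] at h1
    exact not_isUnit_zero h1
  have hN : f.natDegree ≤ 4 * x := by
    have h1 := natDegree_le_of_dvd hd hFF0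
    rw [hFF.1] at h1
    have h2 := h.hy2
    have h3 := h.hx
    have h4 : max y z ≤ 2 * z := max_le (by omega) (by omega)
    omega
  have hM : ∀ j, (f.coeff j).natDegree ≤ f.natDegree := by
    intro j
    exact (natDegree_coeff_le f j).trans (deg_eq h hf hd).le
  have hclog : (R : ℤ) ≤ 2 ^ Nat.clog 2 R := by
    have h1 : R ≤ 2 ^ Nat.clog 2 R := Nat.le_pow_clog (by norm_num) R
    exact_mod_cast h1
  have hkey := hK₀ f f.natDegree f.natDegree e (100 * (Nat.clog 2 R + 1) * (x + y + z) ^ 2) R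
    hf hi rfl hM he heN (by omega) S (by
      intro q hq
      obtain ⟨h1, h2, h3⟩ := hS q hq
      have hs := h1.hs
      have hr := h1.hr
      have h4 : |q.1| ≤ (R : ℤ) := by
        rw [abs_le]; constructor <;> omega
      have h5 : |q.2| ≤ (R : ℤ) := by
        rw [abs_le]; constructor <;> omega
      exact ⟨h4, h5, h3, der_bound h hf hd (h4.trans hclog) (h5.trans hclog)⟩)
  refine hkey.trans ?_
  apply mul_le_mul_of_nonneg_right _ (by positivity)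
  apply mul_le_mul_of_nonneg_left _ (Nat.cast_nonneg _)
  apply pow_le_pow_left₀ (by positivity)
  have hxr : (1 : ℝ) ≤ x := by exact_mod_cast hx1
  have hb := z3_clog hR
  have h1 : ((f.natDegree + f.natDegree + 1 : ℕ) : ℝ) ≤ 9 * x := by
    have h2 : f.natDegree + f.natDegree + 1 ≤ 9 * x := by omega
    exact_mod_cast h2
  have h2 : ((x + y + z : ℕ) : ℝ) ≤ 4 * x := by
    have h3 := h.hy2
    have h4 := h.hx
    have h5 : x + y + z ≤ 4 * x := by omega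
    exact_mod_cast h5
  have h3 : ((100 * (Nat.clog 2 R + 1) * (x + y + z) ^ 2 : ℕ) : ℝ) + 1 ≤
      3202 * (x : ℝ) ^ 2 * (Real.log R + 1) := by
    have h4 : ((100 * (Nat.clog 2 R + 1) * (x + y + z) ^ 2 : ℕ) : ℝ) =
        100 * ((Nat.clog 2 R + 1 : ℕ) : ℝ) * ((x + y + z : ℕ) : ℝ) ^ 2 := by
      push_cast; ring
    rw [h4]
    have h5 : ((x + y + z : ℕ) : ℝ) ^ 2 ≤ (4 * (x : ℝ)) ^ 2 :=
      pow_le_pow_left₀ (Nat.cast_nonneg _) h2 2
    have h6 : 100 * ((Nat.clog 2 R + 1 : ℕ) : ℝ) * ((x + y + z : ℕ) : ℝ) ^ 2 ≤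
        100 * (2 * (Real.log R + 1)) * (4 * (x : ℝ)) ^ 2 := by
      apply mul_le_mul _ h5 (by positivity) (by positivity)
      linarith
    have h7 : (1 : ℝ) ≤ (x : ℝ) ^ 2 * (Real.log R + 1) := by
      have h8 : (1 : ℝ) ≤ (x : ℝ) ^ 2 := one_le_pow₀ hxr
      nlinarith
    nlinarith
  calc ((f.natDegree + f.natDegree + 1 : ℕ) : ℝ) *
        (((100 * (Nat.clog 2 R + 1) * (x + y + z) ^ 2 : ℕ) : ℝ) + 1)
      ≤ (9 * x) * (3202 * (x : ℝ) ^ 2 * (Real.log R + 1)) := by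
        apply mul_le_mul h1 h3 (by positivity) (by positivity)
    _ = 28818 * ((x : ℝ) ^ 3 * (Real.log R + 1)) := by ring
    _ ≤ 28818 * ((x : ℝ) * (Real.log R + 1)) ^ 3 := by
        rw [mul_pow]
        apply mul_le_mul_of_nonneg_left _ (by norm_num)
        apply mul_le_mul_of_nonneg_left _ (by positivity)
        have h8 : (1 : ℝ) ≤ Real.log R + 1 := by linarith
        calc Real.log R + 1 = (Real.log R + 1) ^ 1 := (pow_one _).symm
          _ ≤ (Real.log R + 1) ^ 3 := pow_le_pow_right₀ h8 (by norm_num)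

/-- Row Z3 (MEDIUM). Large exponents. Let `T` be the set of factors (`exists_factors`, at most
`2 max y z ≤ 4 x` elements). Each point of `S` lies on some `f ∈ T`; if a point of `S` lies on `f`
then `Good x y z H G f`, so `exp_le` and the hypothesis on `x` give `e < f.natDegree =: N`
(monotonicity). `N ≤ 2 max y z ≤ 4 x` (`natDegree_le_of_dvd` or `FF_lead`), `M = N` (`deg_eq`,
`natDegree_coeff_le`). The points of `S` satisfy `|r|, |s| ≤ R ≤ 2 ^ b` with `b = Nat.clog 2 R`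
(`≤ log R / log 2 + 1`), so `der_bound` gives `L = 100 (b + 1) (x + y + z) ^ 2 ≤ K₁ x² (log R + 1)`.
`pdet` with `B = R` for each `f`, and sum over `T`. -/
theorem large_exp : ∃ K : ℕ, ∀ (e x y z : ℕ) (H G : ℤ), 1 ≤ e → Dat x y z H G →
    (2 * e + 2) * (e + 3) + 1 < x → ∀ R : ℕ, 2 ≤ R → ∀ S : Finset (ℤ × ℤ),
    (∀ p ∈ S, Pt x y z H G p.1 p.2 ∧ p.1 ≤ R) →
    (S.card : ℝ) ≤ K * ((x : ℝ) * (Real.log R + 1)) ^ K * (R : ℝ) ^ (4 / ((e : ℝ) + 2)) := by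
  classical
  obtain ⟨K₀, hK₀⟩ := pdet
  refine ⟨4 * K₀ * 28818 ^ K₀ + 3 * K₀ + 1, ?_⟩
  intro e x y z H G he h hx R hR S hS
  obtain ⟨T, hT, hT1, hT2⟩ := exists_factors h
  have hlog : 0 ≤ Real.log R := Real.log_nonneg (by exact_mod_cast (by omega : 1 ≤ R))
  have hx1 : (1 : ℝ) ≤ x := by exact_mod_cast (by omega : 1 ≤ x)
  have hcov : S ⊆ T.biUnion fun f => S.filter fun p => f.evalEval p.1 p.2 = 0 := by
    intro p hp
    obtain ⟨f, hf, hf'⟩ := hT2 p.1 p.2 (hS p hp).1.zero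
    rw [Finset.mem_biUnion]
    exact ⟨f, hf, Finset.mem_filter.2 ⟨hp, hf'⟩⟩
  have h1 : (S.card : ℝ) ≤ ∑ f ∈ T, ((S.filter fun p => f.evalEval p.1 p.2 = 0).card : ℝ) := by
    have h2 := (Finset.card_le_card hcov).trans Finset.card_biUnion_le
    exact_mod_cast h2
  have h2 : ∀ f ∈ T, ((S.filter fun p => f.evalEval p.1 p.2 = 0).card : ℝ) ≤
      K₀ * (28818 * ((x : ℝ) * (Real.log R + 1)) ^ 3) ^ K₀ * (R : ℝ) ^ (4 / ((e : ℝ) + 2)) := by
    intro f hf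
    obtain ⟨h3, h4, h5⟩ := hT1 f hf
    refine z3_factor hK₀ he h hx hR h3 h4 h5 _ ?_
    intro p hp
    rw [Finset.mem_filter] at hp
    exact ⟨(hS p hp.1).1, (hS p hp.1).2, hp.2⟩
  have h3 := h1.trans (Finset.sum_le_card_nsmul T _ _ h2)
  rw [nsmul_eq_mul] at h3
  refine h3.trans ?_
  have h4 : (T.card : ℝ) ≤ 4 * x := by
    have h5 := h.hy2
    have h6 := h.hx
    have h7 : max y z ≤ 2 * z := max_le (by omega) (by omega)
    have h8 : T.card ≤ 4 * x := by omega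
    exact_mod_cast h8
  obtain ⟨w, hw⟩ : ∃ w : ℝ, w = (x : ℝ) * (Real.log R + 1) := ⟨_, rfl⟩
  have hw1 : 1 ≤ w := by rw [hw]; nlinarith
  have hxw : (x : ℝ) ≤ w := by rw [hw]; nlinarith
  rw [← hw]
  obtain ⟨Q, hQ⟩ : ∃ Q : ℝ, Q = (R : ℝ) ^ (4 / ((e : ℝ) + 2)) := ⟨_, rfl⟩
  have hQ0 : 0 ≤ Q := by rw [hQ]; positivity
  rw [← hQ]
  have h5 : (T.card : ℝ) * (K₀ * (28818 * w ^ 3) ^ K₀ * Q) ≤
      (4 * K₀ * 28818 ^ K₀) * w ^ (3 * K₀ + 1) * Q := by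
    have h6 : (T.card : ℝ) ≤ 4 * w := h4.trans (by linarith)
    calc (T.card : ℝ) * (K₀ * (28818 * w ^ 3) ^ K₀ * Q)
        ≤ (4 * w) * (K₀ * (28818 * w ^ 3) ^ K₀ * Q) :=
          mul_le_mul_of_nonneg_right h6 (by positivity)
      _ = (4 * K₀ * 28818 ^ K₀) * w ^ (3 * K₀ + 1) * Q := by
          rw [mul_pow, ← pow_mul, pow_succ]; ring
  refine h5.trans ?_
  apply mul_le_mul_of_nonneg_right _ hQ0
  have h7 : w ^ (3 * K₀ + 1) ≤ w ^ (4 * K₀ * 28818 ^ K₀ + 3 * K₀ + 1) :=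
    pow_le_pow_right₀ hw1 (by omega)
  have h8 : (4 * K₀ * 28818 ^ K₀ : ℝ) ≤ ((4 * K₀ * 28818 ^ K₀ + 3 * K₀ + 1 : ℕ) : ℝ) := by
    push_cast
    have h9 : (0 : ℝ) ≤ K₀ := Nat.cast_nonneg _
    linarith
  exact mul_le_mul h8 h7 (by positivity) (Nat.cast_nonneg _)

end JP91
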