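import Pool.Agent.LibJP91.Z1
import Pool.Agent.LibJP91.Z2
import Pool.Agent.LibJP91.Z3
import Pool.Agent.LibJB95.A6

open Polynomial
open scoped Polynomial.Bivariate

namespace JP91

/-- the points with given exponents -/
private noncomputable def z4_P (R : ℕ) (X₀ U V W : ℕ) (j k : Fin 2) : Finset (ℤ × ℤ) := by
  classical
  exact ((Finset.Icc (1 : ℤ) R) ×ˢ (Finset.Icc (1 : ℤ) R)).filter fun p =>
    X₀ < U ∧ Dat U V W (if j = 0 then 2 ^ U else 2 ^ W) (if k = 0 then 1 else 2 ^ (W - V)) ∧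
      Pt U V W (if j = 0 then 2 ^ U else 2 ^ W) (if k = 0 then 1 else 2 ^ (W - V)) p.1 p.2

private theorem z4_card {K : ℕ} (hK : ∀ (e x y z : ℕ) (H G : ℤ), 1 ≤ e → Dat x y z H G →
    (2 * e + 2) * (e + 3) + 1 < x → ∀ R : ℕ, 2 ≤ R → ∀ S : Finset (ℤ × ℤ),
    (∀ p ∈ S, Pt x y z H G p.1 p.2 ∧ p.1 ≤ R) →
    (S.card : ℝ) ≤ K * ((x : ℝ) * (Real.log R + 1)) ^ K * (R : ℝ) ^ (4 / ((e : ℝ) + 2)))
    {e : ℕ} (he : 1 ≤ e) {R : ℕ} (hR : 2 ≤ R) {E U : ℕ} (hX : U ≤ E) (V W : ℕ) (j k : Fin 2) :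
    ((z4_P R ((2 * e + 2) * (e + 3) + 1) U V W j k).card : ℝ) ≤
      K * (((E + 1 : ℕ) : ℝ) * (Real.log R + 1)) ^ K * (R : ℝ) ^ (4 / ((e : ℝ) + 2)) := by
  classical
  have hlog : 0 ≤ Real.log R := Real.log_nonneg (by exact_mod_cast (by omega : 1 ≤ R))
  rcases (z4_P R ((2 * e + 2) * (e + 3) + 1) U V W j k).eq_empty_or_nonempty with h0 | ⟨p, hp⟩
  · rw [h0, Finset.card_empty, Nat.cast_zero]
    positivity
  · have h1 := (Finset.mem_filter.1 hp).2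
    have h2 := hK e U V W _ _ he h1.2.1 h1.1 R hR
      (z4_P R ((2 * e + 2) * (e + 3) + 1) U V W j k) (by
        intro q hq
        obtain ⟨h3, h4⟩ := Finset.mem_filter.1 hq
        rw [Finset.mem_product, Finset.mem_Icc, Finset.mem_Icc] at h3
        exact ⟨h4.2.2, h3.1.2⟩)
    refine h2.trans ?_
    apply mul_le_mul_of_nonneg_right _ (by positivity)
    apply mul_le_mul_of_nonneg_left _ (Nat.cast_nonneg _)
    apply pow_le_pow_left₀ (by positivity)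
    apply mul_le_mul_of_nonneg_right _ (by linarith)
    exact_mod_cast (by omega : U ≤ E + 1)

/-- the covering of the set by the images of the points -/
private theorem z4_cover {e : ℕ} {R₁ : ℤ} (hR₁ : ∀ (x y z : ℕ) (H G : ℤ), Dat x y z H G →
      x ≤ (2 * e + 2) * (e + 3) + 1 → ∀ r s : ℤ, Pt x y z H G r s → r ≤ R₁)
    {C E : ℕ} (hE : ∀ a b c x y z : ℕ, JB95.Sol a b c x y z → c ≤ C → x ≤ E ∧ y ≤ E ∧ z ≤ E) :
    ∃ Q : Finset (ℤ × ℤ),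
      Q.card ≤ R₁.toNat ^ 2 + ∑ w ∈ (Finset.range (E + 1) ×ˢ (Finset.range (E + 1) ×ˢ
        (Finset.range (E + 1) ×ˢ ((Finset.univ : Finset (Fin 2)) ×ˢ
          (Finset.univ : Finset (Fin 2)))))),
        (z4_P (Nat.sqrt (2 * C) + 2) ((2 * e + 2) * (e + 3) + 1) w.1 w.2.1 w.2.2.1
          w.2.2.2.1 w.2.2.2.2).card ∧
      ({t : ℕ × ℕ × ℕ | 0 < t.1 ∧ 0 < t.2.1 ∧ t.1.Coprime t.2.1 ∧
        t.1 ^ 2 + t.2.1 ^ 2 = t.2.2 ^ 2 ∧ t.2.2 ≤ C ∧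
      ∃ x y z : ℕ, 0 < x ∧ 0 < y ∧ 0 < z ∧ t.1 ^ x + t.2.1 ^ y = t.2.2 ^ z ∧
        ¬ (x = 2 ∧ y = 2 ∧ z = 2)}) ⊆
        (((Finset.univ : Finset (Fin 4)) ×ˢ Q).image fun q => tau q.1 q.2 : Finset _) := by
  classical
  refine ⟨(Finset.Icc (1 : ℤ) R₁ ×ˢ Finset.Icc (1 : ℤ) R₁) ∪
    (Finset.range (E + 1) ×ˢ (Finset.range (E + 1) ×ˢ
        (Finset.range (E + 1) ×ˢ ((Finset.univ : Finset (Fin 2)) ×ˢ
          (Finset.univ : Finset (Fin 2)))))).biUnion fun w =>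
      z4_P (Nat.sqrt (2 * C) + 2) ((2 * e + 2) * (e + 3) + 1) w.1 w.2.1 w.2.2.1
          w.2.2.2.1 w.2.2.2.2, ?_, ?_⟩
  · refine (Finset.card_union_le _ _).trans ?_
    apply Nat.add_le_add
    · rw [Finset.card_product, Int.card_Icc, pow_two]
      have h1 : (R₁ + 1 - 1).toNat = R₁.toNat := by rw [add_sub_cancel_right]
      rw [h1]
    · exact Finset.card_biUnion_le
  · rintro ⟨a, b, c⟩ ⟨ha, hb, hab, habc, hc, x, y, z, hx, hy, hz, hxyz, hne⟩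
    have hsol : JB95.Sol a b c x y z := ⟨ha, hb, habc, hx, hy, hz, hxyz, hne⟩
    obtain ⟨hxE, hyE, hzE⟩ := hE a b c x y z hsol hc
    obtain ⟨i, X', Y', Z', H, G, r, s, hD, hP, hX', hY', hZ', hH, hG, hr2, ht⟩ := param hab hsol
    rw [Finset.coe_image, Set.mem_image]
    refine ⟨(i, (r, s)), ?_, ht.symm⟩
    rw [Finset.mem_coe, Finset.mem_product]
    refine ⟨Finset.mem_univ _, ?_⟩
    have hs := hP.hs
    have hr := hP.hr
    rw [Finset.mem_union]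
    by_cases hX0 : X' ≤ (2 * e + 2) * (e + 3) + 1
    · left
      have h1 := hR₁ X' Y' Z' H G hD hX0 r s hP
      rw [Finset.mem_product, Finset.mem_Icc, Finset.mem_Icc]
      refine ⟨⟨?_, ?_⟩, ?_, ?_⟩ <;> dsimp only <;> omega
    · right
      have hrR : r ≤ ((Nat.sqrt (2 * C) + 2 : ℕ) : ℤ) := by
        by_contra hcon
        push Not at hcon
        have h1 : 2 * C < (Nat.sqrt (2 * C) + 1) ^ 2 := by
          have := Nat.lt_succ_sqrt (2 * C)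
          rw [pow_two]; exact this
        have h2 : (2 * C : ℤ) < ((Nat.sqrt (2 * C) : ℤ) + 1) ^ 2 := by exact_mod_cast h1
        have h3 : (0 : ℤ) ≤ (Nat.sqrt (2 * C) : ℤ) := Int.natCast_nonneg _
        have h4 : (c : ℤ) ≤ C := by exact_mod_cast hc
        push_cast at hcon
        nlinarith
      rw [Finset.mem_biUnion]
      refine ⟨(X', Y', Z', (if H = 2 ^ X' then 0 else 1), (if G = 1 then 0 else 1)), ?_, ?_⟩
      · simp only [Finset.mem_product, Finset.mem_range, Finset.mem_univ, and_true]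
        have h1 : max x y ≤ E := max_le hxE hyE
        refine ⟨?_, ?_, ?_⟩ <;> omega
      · have hH' : (if (if H = 2 ^ X' then (0 : Fin 2) else 1) = 0 then (2 : ℤ) ^ X'
            else 2 ^ Z') = H := by
          by_cases h1 : H = 2 ^ X'
          · rw [if_pos h1, if_pos rfl, h1]
          · rw [if_neg h1, if_neg (by decide)]
            exact (hH.resolve_left h1).symm
        have hG' : (if (if G = 1 then (0 : Fin 2) else 1) = 0 then (1 : ℤ)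
            else 2 ^ (Z' - Y')) = G := by
          by_cases h1 : G = 1
          · rw [if_pos h1, if_pos rfl, h1]
          · rw [if_neg h1, if_neg (by decide)]
            exact (hG.resolve_left h1).symm
        unfold z4_P
        rw [Finset.mem_filter]
        refine ⟨?_, ?_⟩
        · rw [Finset.mem_product, Finset.mem_Icc, Finset.mem_Icc]
          refine ⟨⟨?_, ?_⟩, ?_, ?_⟩ <;> dsimp only <;> omega
        · dsimp only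
          rw [hH', hG']
          exact ⟨by omega, hD, hP⟩

/-- powers of the logarithm -/
private theorem z4_real {K₀ : ℝ} (hK₀ : 0 < K₀) (K e : ℕ) {ε : ℝ} (hε : 0 < ε)
    (he : 4 / ε ≤ e) : ∃ M : ℝ, 0 ≤ M ∧ ∀ C : ℕ, 1 ≤ C →
      ((⌊K₀ * (Real.log C) ^ (9 / 4 : ℝ)⌋₊ + 1 : ℕ) : ℝ) ^ 3 *
        (((⌊K₀ * (Real.log C) ^ (9 / 4 : ℝ)⌋₊ + 1 : ℕ) : ℝ) *
          (Real.log (Nat.sqrt (2 * C) + 2 : ℕ) + 1)) ^ K *
        ((Nat.sqrt (2 * C) + 2 : ℕ) : ℝ) ^ (4 / ((e : ℝ) + 2)) ≤ M * (C : ℝ) ^ ε := by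
  obtain ⟨δ, hδ⟩ : ∃ δ : ℝ, δ = ε / 2 / ((9 + 4 * K : ℕ) : ℝ) := ⟨_, rfl⟩
  have hKn : (0 : ℝ) < ((9 + 4 * K : ℕ) : ℝ) := by positivity
  have hδ0 : 0 < δ := by rw [hδ]; positivity
  obtain ⟨c₁, hc₁⟩ : ∃ c₁ : ℝ, c₁ = K₀ * (1 + 1 / δ) ^ 3 + 1 := ⟨_, rfl⟩
  obtain ⟨c₂, hc₂⟩ : ∃ c₂ : ℝ, c₂ = 3 * (1 + 1 / δ) := ⟨_, rfl⟩
  have hδ1 : 0 < 1 / δ := by positivity
  have hc₁0 : 0 < c₁ := by rw [hc₁]; positivity
  have hc₂0 : 0 < c₂ := by rw [hc₂]; positivity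
  refine ⟨c₁ ^ 3 * (c₁ * c₂) ^ K * 4 ^ 4, by positivity, ?_⟩
  intro C hC
  have hC1 : (1 : ℝ) ≤ C := by exact_mod_cast hC
  have hC0 : (0 : ℝ) < C := by linarith
  obtain ⟨L, hL⟩ : ∃ L : ℝ, L = (C : ℝ) ^ δ := ⟨_, rfl⟩
  have hL1 : 1 ≤ L := by rw [hL]; exact Real.one_le_rpow hC1 hδ0.le
  have hlog0 : 0 ≤ Real.log C := Real.log_nonneg hC1
  have hlogL : 1 + Real.log C ≤ (1 + 1 / δ) * L := by
    have h1 := Real.log_le_rpow_div hC0.le hδ0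
    rw [← hL] at h1
    have h2 : (1 + 1 / δ) * L = L + L / δ := by ring
    rw [h2]
    linarith
  have hE : ((⌊K₀ * (Real.log C) ^ (9 / 4 : ℝ)⌋₊ + 1 : ℕ) : ℝ) ≤ c₁ * L ^ 3 := by
    have h1 : (⌊K₀ * (Real.log C) ^ (9 / 4 : ℝ)⌋₊ : ℝ) ≤ K₀ * (Real.log C) ^ (9 / 4 : ℝ) :=
      Nat.floor_le (by positivity)
    have h2 : (Real.log C) ^ (9 / 4 : ℝ) ≤ (1 + Real.log C) ^ (3 : ℕ) := by
      calc (Real.log C) ^ (9 / 4 : ℝ) ≤ (1 + Real.log C) ^ (9 / 4 : ℝ) :=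
            Real.rpow_le_rpow hlog0 (by linarith) (by norm_num)
        _ ≤ (1 + Real.log C) ^ (3 : ℝ) :=
            Real.rpow_le_rpow_of_exponent_le (by linarith) (by norm_num)
        _ = (1 + Real.log C) ^ (3 : ℕ) := by
            rw [← Real.rpow_natCast]; norm_num
    have h3 : (1 + Real.log C) ^ (3 : ℕ) ≤ ((1 + 1 / δ) * L) ^ 3 :=
      pow_le_pow_left₀ (by linarith) hlogL 3
    have h4 : (1 : ℝ) ≤ L ^ 3 := one_le_pow₀ hL1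
    push_cast
    calc (⌊K₀ * (Real.log C) ^ (9 / 4 : ℝ)⌋₊ : ℝ) + 1
        ≤ K₀ * ((1 + 1 / δ) * L) ^ 3 + L ^ 3 := by
          have h5 := mul_le_mul_of_nonneg_left (h2.trans h3) hK₀.le
          linarith
      _ = c₁ * L ^ 3 := by rw [hc₁, mul_pow]; ring
  have hsq : ((Nat.sqrt (2 * C) + 2 : ℕ) : ℝ) ≤ 4 * Real.sqrt C := by
    have h1 : ((Nat.sqrt (2 * C) : ℕ) : ℝ) ≤ Real.sqrt (2 * C) := by
      apply Real.le_sqrt_of_sq_le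
      have h2 : Nat.sqrt (2 * C) ^ 2 ≤ 2 * C := Nat.sqrt_le' _
      exact_mod_cast h2
    have h3 : (1 : ℝ) ≤ Real.sqrt C := by
      rw [Real.one_le_sqrt]; exact hC1
    have h4 : Real.sqrt (2 * C) ≤ 2 * Real.sqrt C := by
      rw [Real.sqrt_mul (by norm_num)]
      apply mul_le_mul_of_nonneg_right _ (Real.sqrt_nonneg _)
      rw [Real.sqrt_le_left (by norm_num)]
      norm_num
    push_cast
    linarith
  have hR2 : (2 : ℝ) ≤ ((Nat.sqrt (2 * C) + 2 : ℕ) : ℝ) := by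
    push_cast
    have : (0 : ℝ) ≤ (Nat.sqrt (2 * C) : ℝ) := Nat.cast_nonneg _
    linarith
  have hlogR : Real.log (Nat.sqrt (2 * C) + 2 : ℕ) + 1 ≤ c₂ * L := by
    have h1 : Real.log (Nat.sqrt (2 * C) + 2 : ℕ) ≤ Real.log (4 * Real.sqrt C) :=
      Real.log_le_log (by linarith) hsq
    have h2 : Real.log (4 * Real.sqrt C) = 2 * Real.log 2 + Real.log C / 2 := by
      rw [Real.log_mul (by norm_num) (Real.sqrt_pos.2 hC0).ne', Real.log_sqrt hC0.le]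
      have h3 : Real.log 4 = 2 * Real.log 2 := by
        rw [show (4 : ℝ) = 2 ^ 2 by norm_num, Real.log_pow]; norm_num
      rw [h3]
    have h4 : Real.log 2 ≤ 1 := by
      have := Real.log_two_lt_d9
      linarith
    have h5 : c₂ * L = 3 * ((1 + 1 / δ) * L) := by rw [hc₂]; ring
    rw [h5]
    linarith
  have hlogR0 : 0 ≤ Real.log (Nat.sqrt (2 * C) + 2 : ℕ) := Real.log_nonneg (by linarith)
  have hRp : ((Nat.sqrt (2 * C) + 2 : ℕ) : ℝ) ^ (4 / ((e : ℝ) + 2)) ≤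
      4 ^ 4 * (C : ℝ) ^ (ε / 2) := by
    have he0 : (0 : ℝ) ≤ e := Nat.cast_nonneg _
    have h1 : ((Nat.sqrt (2 * C) + 2 : ℕ) : ℝ) ^ (4 / ((e : ℝ) + 2)) ≤
        (4 * Real.sqrt C) ^ (4 / ((e : ℝ) + 2)) :=
      Real.rpow_le_rpow (by linarith) hsq (by positivity)
    refine h1.trans ?_
    rw [Real.mul_rpow (by norm_num) (Real.sqrt_nonneg _)]
    apply mul_le_mul _ _ (by positivity) (by norm_num)
    · have h2 : (4 : ℝ) ^ (4 / ((e : ℝ) + 2)) ≤ 4 ^ (4 : ℝ) := by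
        apply Real.rpow_le_rpow_of_exponent_le (by norm_num)
        rw [div_le_iff₀ (by positivity)]
        linarith
      refine h2.trans (le_of_eq ?_)
      rw [show (4 : ℝ) = ((4 : ℕ) : ℝ) by norm_num, Real.rpow_natCast]
    · rw [Real.sqrt_eq_rpow, ← Real.rpow_mul hC0.le]
      apply Real.rpow_le_rpow_of_exponent_le hC1
      have h2 : (4 : ℝ) ≤ e * ε := by
        rwa [div_le_iff₀ hε] at he
      rw [show (1 / 2 : ℝ) * (4 / ((e : ℝ) + 2)) = 2 / ((e : ℝ) + 2) by ring,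
        div_le_iff₀ (by positivity)]
      nlinarith
  have hLp : L ^ (9 + 4 * K) = (C : ℝ) ^ (ε / 2) := by
    rw [hL, ← Real.rpow_natCast, ← Real.rpow_mul hC0.le]
    congr 1
    rw [hδ]
    field_simp
  have hmain : ((⌊K₀ * (Real.log C) ^ (9 / 4 : ℝ)⌋₊ + 1 : ℕ) : ℝ) ^ 3 *
        (((⌊K₀ * (Real.log C) ^ (9 / 4 : ℝ)⌋₊ + 1 : ℕ) : ℝ) *
          (Real.log (Nat.sqrt (2 * C) + 2 : ℕ) + 1)) ^ K ≤
      c₁ ^ 3 * (c₁ * c₂) ^ K * (C : ℝ) ^ (ε / 2) := by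
    have h1 : ((⌊K₀ * (Real.log C) ^ (9 / 4 : ℝ)⌋₊ + 1 : ℕ) : ℝ) ^ 3 ≤ (c₁ * L ^ 3) ^ 3 :=
      pow_le_pow_left₀ (Nat.cast_nonneg _) hE 3
    have h2 : (((⌊K₀ * (Real.log C) ^ (9 / 4 : ℝ)⌋₊ + 1 : ℕ) : ℝ) *
          (Real.log (Nat.sqrt (2 * C) + 2 : ℕ) + 1)) ^ K ≤ (c₁ * L ^ 3 * (c₂ * L)) ^ K := by
      apply pow_le_pow_left₀ (by positivity)
      exact mul_le_mul hE hlogR (by positivity) (by positivity)
    refine (mul_le_mul h1 h2 (by positivity) (by positivity)).trans (le_of_eq ?_)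
    rw [← hLp]
    rw [pow_add, pow_mul]
    simp only [mul_pow]
    ring
  calc _ ≤ (c₁ ^ 3 * (c₁ * c₂) ^ K * (C : ℝ) ^ (ε / 2)) * (4 ^ 4 * (C : ℝ) ^ (ε / 2)) :=
        mul_le_mul hmain hRp (by positivity) (by positivity)
    _ = c₁ ^ 3 * (c₁ * c₂) ^ K * 4 ^ 4 * ((C : ℝ) ^ (ε / 2) * (C : ℝ) ^ (ε / 2)) := by ring
    _ = c₁ ^ 3 * (c₁ * c₂) ^ K * 4 ^ 4 * (C : ℝ) ^ ε := by
        rw [← Real.rpow_add hC0, add_halves]

/-- Row Z4 (MEDIUM). Assembly. Take `e ≥ 1` with `2 / (e + 2) ≤ ε / 2`,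
`X₀ = (2 e + 2) (e + 3) + 1`, `R₁` from `small_exp X₀`. Let `t = (a, b, c)` be in the set, with the
solution `(x, y, z)`: `JB95.Sol a b c x y z`, so `x, y, z ≤ E = ⌊K (log C) ^ (9/4)⌋` by
`JB95.exp_bound`. `param` gives `t = tau i (r, s)` with `1 ≤ s < r`, `r ≤ R = ⌊√(2 C)⌋ + 2`, and
`(r, s)` is either in `[1, R₁]²`, or in one of the sets `{Pt X Y Z H G r s, r ≤ R}` with
`X, Y, Z ≤ E`, `X₀ < X`, `H ∈ {2 ^ X, 2 ^ Z}`, `G ∈ {1, 2 ^ (Z - Y)}`: at most `4 (E + 1)³` sets, each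
of at most `K' (E (log R + 1)) ^ K' R ^ (4 / (e + 2))` elements by `large_exp`. So the number of `t` is
at most `4 R₁² + 16 (E + 1)³ K' (E (log R + 1)) ^ K' R ^ (4 / (e + 2)) ≤ K'' C ^ ε`, since
`R ≤ 4 √C` and powers of `log C` are `≤ K C ^ (ε / 2)`. -/
theorem main (ε : ℝ) (hε : 0 < ε) : ∃ K : ℝ, ∀ C : ℕ, 1 ≤ C →
    (({t : ℕ × ℕ × ℕ | 0 < t.1 ∧ 0 < t.2.1 ∧ t.1.Coprime t.2.1 ∧
        t.1 ^ 2 + t.2.1 ^ 2 = t.2.2 ^ 2 ∧ t.2.2 ≤ C ∧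
      ∃ x y z : ℕ, 0 < x ∧ 0 < y ∧ 0 < z ∧ t.1 ^ x + t.2.1 ^ y = t.2.2 ^ z ∧
        ¬ (x = 2 ∧ y = 2 ∧ z = 2)}).ncard : ℝ) ≤ K * (C : ℝ) ^ ε := by
  classical
  obtain ⟨e, he⟩ : ∃ e : ℕ, e = ⌈4 / ε⌉₊ + 1 := ⟨_, rfl⟩
  have he1 : 1 ≤ e := by omega
  have heε : 4 / ε ≤ e := by
    rw [he]; push_cast
    linarith [Nat.le_ceil (4 / ε)]
  obtain ⟨R₁, hR₁⟩ := small_exp ((2 * e + 2) * (e + 3) + 1)
  obtain ⟨K', hK'⟩ := large_exp
  obtain ⟨K₀, hK₀, hexp⟩ := JB95.exp_bound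
  obtain ⟨M, hM0, hM⟩ := z4_real hK₀ K' e hε heε
  refine ⟨4 * ((R₁.toNat : ℝ) ^ 2 + 4 * K' * M), ?_⟩
  intro C hC
  obtain ⟨E, hE⟩ : ∃ E : ℕ, E = ⌊K₀ * (Real.log C) ^ (9 / 4 : ℝ)⌋₊ := ⟨_, rfl⟩
  have hC1 : (1 : ℝ) ≤ C := by exact_mod_cast hC
  have hEb : ∀ a b c x y z : ℕ, JB95.Sol a b c x y z → c ≤ C → x ≤ E ∧ y ≤ E ∧ z ≤ E := by
    intro a b c x y z hs hc
    obtain ⟨h1, h2, h3⟩ := hexp a b c x y z hs
    have hc1 : 1 ≤ c := by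
      obtain ⟨ha, -, hc2, -⟩ := hs
      rcases Nat.eq_zero_or_pos c with h0 | h0
      · subst h0
        have h4 : 0 < a ^ 2 := by positivity
        omega
      · exact h0
    have h4 : Real.log c ≤ Real.log C :=
      Real.log_le_log (by exact_mod_cast hc1) (by exact_mod_cast hc)
    have h5 : 0 ≤ Real.log c := Real.log_nonneg (by exact_mod_cast hc1)
    have h6 : K₀ * (Real.log c) ^ (9 / 4 : ℝ) ≤ K₀ * (Real.log C) ^ (9 / 4 : ℝ) :=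
      mul_le_mul_of_nonneg_left (Real.rpow_le_rpow h5 h4 (by norm_num)) hK₀.le
    rw [hE]
    exact ⟨Nat.le_floor (h1.trans h6), Nat.le_floor (h2.trans h6), Nat.le_floor (h3.trans h6)⟩
  obtain ⟨Q, hQ, hsub⟩ := z4_cover hR₁ hEb
  have h1 : ({t : ℕ × ℕ × ℕ | 0 < t.1 ∧ 0 < t.2.1 ∧ t.1.Coprime t.2.1 ∧
        t.1 ^ 2 + t.2.1 ^ 2 = t.2.2 ^ 2 ∧ t.2.2 ≤ C ∧
      ∃ x y z : ℕ, 0 < x ∧ 0 < y ∧ 0 < z ∧ t.1 ^ x + t.2.1 ^ y = t.2.2 ^ z ∧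
        ¬ (x = 2 ∧ y = 2 ∧ z = 2)}).ncard ≤ 4 * Q.card := by
    refine (Set.ncard_le_ncard hsub (Finset.finite_toSet _)).trans ?_
    rw [Set.ncard_coe_finset]
    refine Finset.card_image_le.trans ?_
    rw [Finset.card_product, Finset.card_univ, Fintype.card_fin]
  have hR2 : 2 ≤ Nat.sqrt (2 * C) + 2 := by omega
  have h2 : (Q.card : ℝ) ≤ (R₁.toNat : ℝ) ^ 2 + 4 * K' * (M * (C : ℝ) ^ ε) := by
    have h3 : (Q.card : ℝ) ≤ (R₁.toNat : ℝ) ^ 2 + ∑ w ∈ (Finset.range (E + 1) ×ˢ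
        (Finset.range (E + 1) ×ˢ (Finset.range (E + 1) ×ˢ ((Finset.univ : Finset (Fin 2)) ×ˢ
          (Finset.univ : Finset (Fin 2)))))),
        ((z4_P (Nat.sqrt (2 * C) + 2) ((2 * e + 2) * (e + 3) + 1) w.1 w.2.1 w.2.2.1
          w.2.2.2.1 w.2.2.2.2).card : ℝ) := by exact_mod_cast hQ
    refine h3.trans ?_
    have h4 := Finset.sum_le_card_nsmul (Finset.range (E + 1) ×ˢ
        (Finset.range (E + 1) ×ˢ (Finset.range (E + 1) ×ˢ ((Finset.univ : Finset (Fin 2)) ×ˢ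
          (Finset.univ : Finset (Fin 2))))))
        (fun w => ((z4_P (Nat.sqrt (2 * C) + 2) ((2 * e + 2) * (e + 3) + 1) w.1 w.2.1 w.2.2.1
          w.2.2.2.1 w.2.2.2.2).card : ℝ))
        (K' * (((E + 1 : ℕ) : ℝ) * (Real.log (Nat.sqrt (2 * C) + 2 : ℕ) + 1)) ^ K' *
          ((Nat.sqrt (2 * C) + 2 : ℕ) : ℝ) ^ (4 / ((e : ℝ) + 2)))
        (by
          intro w hw
          rw [Finset.mem_product, Finset.mem_range] at hw
          exact z4_card hK' he1 hR2 (by omega) _ _ _ _)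
    have h5 : ((Finset.range (E + 1) ×ˢ (Finset.range (E + 1) ×ˢ
        (Finset.range (E + 1) ×ˢ ((Finset.univ : Finset (Fin 2)) ×ˢ
          (Finset.univ : Finset (Fin 2)))))).card : ℝ) = 4 * ((E + 1 : ℕ) : ℝ) ^ 3 := by
      simp only [Finset.card_product, Finset.card_range, Finset.card_univ, Fintype.card_fin]
      push_cast
      ring
    rw [nsmul_eq_mul, h5] at h4
    have h6 := hM C hC
    rw [← hE] at h6
    have h7 := mul_le_mul_of_nonneg_left h6 (show (0 : ℝ) ≤ 4 * K' by positivity)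
    refine add_le_add le_rfl (h4.trans (le_trans (le_of_eq ?_) h7))
    ring
  have h3 : (1 : ℝ) ≤ (C : ℝ) ^ ε := Real.one_le_rpow hC1 hε.le
  have h4 : ((({t : ℕ × ℕ × ℕ | 0 < t.1 ∧ 0 < t.2.1 ∧ t.1.Coprime t.2.1 ∧
        t.1 ^ 2 + t.2.1 ^ 2 = t.2.2 ^ 2 ∧ t.2.2 ≤ C ∧
      ∃ x y z : ℕ, 0 < x ∧ 0 < y ∧ 0 < z ∧ t.1 ^ x + t.2.1 ^ y = t.2.2 ^ z ∧
        ¬ (x = 2 ∧ y = 2 ∧ z = 2)}).ncard : ℕ) : ℝ) ≤ 4 * (Q.card : ℝ) := by exact_mod_cast h1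
  refine h4.trans ?_
  have h5 : (0 : ℝ) ≤ (R₁.toNat : ℝ) ^ 2 := by positivity
  nlinarith

end JP91
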